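import Mathlib

/-!
# Binary forms with a root of high multiplicity
-/

set_option autoImplicit false

namespace Pool.Agent.L7h91.TW

open Finset Polynomial

namespace BForm

variable {R : Type*} [CommRing R]

/-- homogenization -/
noncomputable def Hm (d : ℕ) (P : R[X]) (z y : R[X]) : R[X] :=
  ∑ j ∈ range (d + 1), C (P.coeff j) * z ^ j * y ^ (d - j)

theorem Hm_add (d : ℕ) (P Q z y : R[X]) : Hm d (P + Q) z y = Hm d P z y + Hm d Q z y := by
  unfold Hm
  rw [← sum_add_distrib]
  refine sum_congr rfl fun j _ => ?_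
  rw [coeff_add, C_add]
  ring

theorem Hm_C_mul (d : ℕ) (u : R) (P z y : R[X]) : Hm d (C u * P) z y = C u * Hm d P z y := by
  unfold Hm
  rw [mul_sum]
  refine sum_congr rfl fun j _ => ?_
  rw [coeff_C_mul, C_mul]
  ring

theorem Hm_succ (d : ℕ) (P z y : R[X]) (hP : P.natDegree ≤ d) :
    Hm (d + 1) P z y = Hm d P z y * y := by
  unfold Hm
  rw [sum_range_succ, coeff_eq_zero_of_natDegree_lt (by omega), C_0, zero_mul, zero_mul, add_zero,
    sum_mul]
  refine sum_congr rfl fun j hj => ?_
  rw [mem_range] at hj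
  rw [show d + 1 - j = (d - j) + 1 by omega, pow_succ]
  ring

theorem Hm_X (d : ℕ) (P z y : R[X]) : Hm (d + 1) (P * X) z y = Hm d P z y * z := by
  unfold Hm
  rw [sum_range_succ', coeff_mul_X_zero, C_0, zero_mul, zero_mul, add_zero, sum_mul]
  refine sum_congr rfl fun j hj => ?_
  rw [coeff_mul_X, show d + 1 - (j + 1) = d - j by omega, pow_succ]
  ring

theorem Hm_mul (d : ℕ) (P : R[X]) (hP : P.natDegree ≤ d) (u v : R) (z y : R[X]) :
    Hm (d + 1) (P * (C u + C v * X)) z y = Hm d P z y * (C u * y + C v * z) := by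
  have e : P * (C u + C v * X) = C u * P + C v * (P * X) := by ring
  rw [e, Hm_add, Hm_C_mul, Hm_C_mul, Hm_succ d P z y hP, Hm_X]
  ring

theorem deg1 (u v : R) : (C u + C v * X : R[X]).natDegree ≤ 1 := by
  rw [add_comm]
  exact natDegree_linear_le

theorem Hm_prod (U V a b : R) (z y : R[X]) (n e : ℕ) :
    Hm (n + e) ((C U + C b * X) ^ n * (C V + C (-a) * X) ^ e) z y =
      (C U * y + C b * z) ^ n * (C V * y + C (-a) * z) ^ e := by
  have hd : ∀ n e : ℕ, ((C U + C b * X) ^ n * (C V + C (-a) * X) ^ e).natDegree ≤ n + e := by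
    intro n e
    refine natDegree_mul_le.trans (add_le_add ?_ ?_)
    · refine natDegree_pow_le.trans ?_
      calc n * _ ≤ n * 1 := Nat.mul_le_mul_left n (deg1 U b)
        _ = n := mul_one n
    · refine natDegree_pow_le.trans ?_
      calc e * _ ≤ e * 1 := Nat.mul_le_mul_left e (deg1 V (-a))
        _ = e := mul_one e
  induction e with
  | zero =>
    induction n with
    | zero => simp [Hm]
    | succ n ih =>
      have h := Hm_mul (n + 0) ((C U + C b * X) ^ n * (C V + C (-a) * X) ^ 0) (hd n 0) U b z y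
      rw [ih] at h
      rw [show n + 1 + 0 = n + 0 + 1 by omega]
      have e : (C U + C b * X) ^ (n + 1) * (C V + C (-a) * X) ^ 0 =
          (C U + C b * X) ^ n * (C V + C (-a) * X) ^ 0 * (C U + C b * X) := by ring
      rw [e, h]
      ring
  | succ e ih =>
    have h := Hm_mul (n + e) ((C U + C b * X) ^ n * (C V + C (-a) * X) ^ e) (hd n e) V (-a) z y
    rw [ih] at h
    have e' : (C U + C b * X) ^ n * (C V + C (-a) * X) ^ (e + 1) =
        (C U + C b * X) ^ n * (C V + C (-a) * X) ^ e * (C V + C (-a) * X) := by ring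
    rw [e', ← add_assoc, h]
    ring

theorem Hm_sum {ι : Type*} (s : Finset ι) (d : ℕ) (P : ι → R[X]) (z y : R[X]) :
    Hm d (∑ i ∈ s, P i) z y = ∑ i ∈ s, Hm d (P i) z y := by
  classical
  induction s using Finset.induction_on with
  | empty => simp [Hm]
  | insert i s hi ih => rw [sum_insert hi, sum_insert hi, Hm_add, ih]

/-- the coefficients of the shifted form -/
noncomputable def Sf (D : ℕ) (φ : ℕ → R) (U V : R) (j : ℕ) : R :=
  ∑ n ∈ range (D + 1), (n.choose j : R) * φ n * (U ^ (n - j) * V ^ (D - n))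

/-- the polynomial identity -/
theorem ident (D : ℕ) (φ : ℕ → R) (U V a b Δ : R) (hΔ : Δ = a * U + b * V) :
    ∃ ψ : ℕ → R, ∀ i, Δ ^ D * Sf D φ U V i = ∑ j ∈ range (D + 1), ψ j * V ^ j *
      (if j ≤ i then ((C Δ + C a * X) ^ (D - j) : R[X]).coeff (i - j) else 0) := by
  obtain ⟨Ψ, hΨ⟩ : ∃ Ψ : R[X], Ψ = ∑ n ∈ range (D + 1), C (φ n) *
    ((C U + C b * X) ^ n * (C V + C (-a) * X) ^ (D - n)) := ⟨_, rfl⟩
  refine ⟨fun j => Ψ.coeff j, fun i => ?_⟩
  have h1 : Hm D Ψ (C V * X) (C Δ + C a * X) =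
      ∑ n ∈ range (D + 1), C (φ n * Δ ^ D * V ^ (D - n)) * (X + C U) ^ n := by
    rw [hΨ, Hm_sum]
    refine sum_congr rfl fun n hn => ?_
    rw [mem_range] at hn
    rw [Hm_C_mul]
    have h2 := Hm_prod U V a b (C V * X) (C Δ + C a * X) n (D - n)
    rw [show n + (D - n) = D by omega] at h2
    rw [h2]
    have e1 : C U * (C Δ + C a * X) + C b * (C V * X) = C Δ * (X + C U) := by
      rw [hΔ]
      simp only [C_add, C_mul]
      ring
    have e2 : C V * (C Δ + C a * X) + C (-a) * (C V * X) = C V * C Δ := by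
      rw [C_neg]
      ring
    rw [e1, e2, mul_pow, mul_pow]
    simp only [C_mul, C_pow]
    have e3 : (C Δ : R[X]) ^ D = C Δ ^ n * C Δ ^ (D - n) := by
      rw [← pow_add]
      congr 1
      omega
    rw [e3]
    ring
  have h2 : (Hm D Ψ (C V * X) (C Δ + C a * X)).coeff i =
      (∑ n ∈ range (D + 1), C (φ n * Δ ^ D * V ^ (D - n)) * (X + C U) ^ n).coeff i := by rw [h1]
  rw [finset_sum_coeff] at h2
  have h3 : ∀ n ∈ range (D + 1), (C (φ n * Δ ^ D * V ^ (D - n)) * (X + C U) ^ n).coeff i =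
      Δ ^ D * ((n.choose i : R) * φ n * (U ^ (n - i) * V ^ (D - n))) := by
    intro n _
    rw [coeff_C_mul, coeff_X_add_C_pow]
    ring
  rw [sum_congr rfl h3, ← mul_sum] at h2
  unfold Sf
  rw [← h2]
  unfold Hm
  rw [finset_sum_coeff]
  refine sum_congr rfl fun j _ => ?_
  have e : C (Ψ.coeff j) * (C V * X) ^ j * (C Δ + C a * X) ^ (D - j) =
      C (Ψ.coeff j * V ^ j) * ((C Δ + C a * X) ^ (D - j) * X ^ j) := by
    rw [mul_pow, C_mul, C_pow]
    ring
  rw [e, coeff_C_mul, coeff_mul_X_pow']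

variable [IsDomain R]

/-- the main lemma -/
theorem main (D : ℕ) (φ : ℕ → R) (U V a b Δ : R) (hΔ : Δ = a * U + b * V) (hV : V ≠ 0)
    (hΔ0 : Δ ≠ 0) (k : ℕ) (hk : k ≤ D) (h0 : ∀ j < k, Sf D φ U V j = 0) :
    ∃ ψ χ : R, Δ ^ k * Sf D φ U V k = V ^ k * ψ ∧ Δ ^ D * φ D = V ^ k * χ := by
  obtain ⟨ψ, hψ⟩ := ident D φ U V a b Δ hΔ
  have hz : ∀ j < k, ψ j = 0 := by
    intro j
    induction j using Nat.strong_induction_on with
    | _ j ih =>
      intro hj
      have h1 := hψ j
      rw [h0 j hj, mul_zero, sum_eq_single j] at h1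
      · rw [if_pos le_rfl, Nat.sub_self, coeff_zero_eq_eval_zero] at h1
        have h2 : ψ j * V ^ j * Δ ^ (D - j) = 0 := by
          rw [h1]
          simp
        rcases mul_eq_zero.1 h2 with h3 | h3
        · rcases mul_eq_zero.1 h3 with h4 | h4
          · exact h4
          · exact absurd h4 (pow_ne_zero _ hV)
        · exact absurd h3 (pow_ne_zero _ hΔ0)
      · intro i _ hij
        rcases lt_or_gt_of_ne hij with h2 | h2
        · rw [ih i h2 (by omega), zero_mul, zero_mul]
        · rw [if_neg (by omega), mul_zero]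
      · intro h2
        exact absurd (mem_range.2 (by omega)) h2
  refine ⟨ψ k, ∑ j ∈ range (D + 1), ψ j * V ^ (j - k) * a ^ (D - j), ?_, ?_⟩
  · have h1 := hψ k
    rw [sum_eq_single k] at h1
    · rw [if_pos le_rfl, Nat.sub_self, coeff_zero_eq_eval_zero] at h1
      have h2 : Δ ^ (D - k) * (Δ ^ k * Sf D φ U V k) = Δ ^ (D - k) * (V ^ k * ψ k) := by
        rw [← mul_assoc, ← pow_add, show D - k + k = D by omega, h1]
        simp
        ring
      exact mul_left_cancel₀ (pow_ne_zero _ hΔ0) h2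
    · intro i _ hij
      rcases lt_or_gt_of_ne hij with h2 | h2
      · rw [hz i h2, zero_mul, zero_mul]
      · rw [if_neg (by omega), mul_zero]
    · intro h2
      exact absurd (mem_range.2 (by omega)) h2
  · have h1 := hψ D
    have h2 : Sf D φ U V D = φ D := by
      unfold Sf
      rw [sum_eq_single D]
      · simp
      · intro n hn hnD
        rw [mem_range] at hn
        rw [Nat.choose_eq_zero_of_lt (by omega)]
        simp
      · intro h2
        exact absurd (mem_range.2 (by omega)) h2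
    rw [h2] at h1
    rw [h1, mul_sum]
    refine sum_congr rfl fun j hj => ?_
    rw [mem_range] at hj
    rw [if_pos (by omega)]
    by_cases hjk : j < k
    · rw [hz j hjk]
      simp
    · have e1 : V ^ j = V ^ k * V ^ (j - k) := by
        rw [← pow_add]
        congr 1
        omega
      have e2 : ((C Δ + C a * X) ^ (D - j) : R[X]).coeff (D - j) = a ^ (D - j) := by
        have := coeff_pow_of_natDegree_le (p := (C Δ + C a * X : R[X])) (m := D - j) (n := 1)
          (deg1 Δ a)
        rw [mul_one] at this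
        rw [this]
        simp
      rw [e1, e2]
      ring

end BForm

end Pool.Agent.L7h91.TW
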