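import Pool.Agent.L7h91.TW.Cls
import Pool.Agent.L7h91.TW.BForm

/-!
# The function with a pole at a point of the tube
-/

set_option autoImplicit false

namespace Pool.Agent.L7h91.TW

open Finset Pool.Agent.TH603.EL Pool.Agent.TH3.IR Pool.Agent.TH3.IR.Pair

/-! ## Abstract algebra -/

section alg

/-- the elements at the tube of the curve and the point of the curve -/
structure Dat (R : Type*) [CommRing R] where
  c : R
  b : R
  cp : R
  bp : R
  ξ : R
  η : R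
  ξp : R
  ηp : R
  κ : R
  w : R
  q : R
  ec : 2 * (c ^ 3 - c) = ξ - η
  eb : 2 * b = ξ + η
  ecp : 2 * (cp ^ 3 - cp) = ξp - ηp
  ebp : 2 * bp = ξp + ηp
  e1 : ξ * κ = ηp
  e2 : ξp * κ = η
  ew : 2 * w = c + cp
  eq : 2 * q = c ^ 2 + c * cp + cp ^ 2 - 1

variable {R : Type*} [CommRing R] (S : Dat R)

/-- the numerator -/
def Dat.U : R := (S.ξ + S.ξp) * S.q
/-- the denominator -/
def Dat.V : R := (S.ξ - S.ξp) * S.w
/-- the determinant -/
def Dat.Δ : R := 2 * S.ξp * (S.w * S.q)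
/-- the first factor -/
def Dat.h : R := 1 + S.κ
/-- the difference of the abscissae -/
def Dat.P : R := S.c ^ 2 - S.cp ^ 2
/-- the sum of the ordinates -/
def Dat.N : R := S.b + S.bp

theorem Dat.eP : 2 * S.P * S.q = S.w * (S.ξ - S.ξp) * S.h := by
  unfold Dat.P Dat.h
  linear_combination (S.c ^ 2 - S.cp ^ 2) * S.eq + S.w * (S.ec - S.ecp) - S.w * (S.e1 - S.e2) -
    ((S.c - S.cp) * (S.c ^ 2 + S.c * S.cp + S.cp ^ 2 - 1)) * S.ew

theorem Dat.eN : 2 * S.N = (S.ξ + S.ξp) * S.h := by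
  unfold Dat.N Dat.h
  linear_combination S.eb + S.ebp - S.e1 - S.e2

theorem Dat.eΔ : S.Δ = S.w * S.U + (-S.q) * S.V := by
  unfold Dat.Δ Dat.U Dat.V
  ring

/-- the quotient of the numerator and the denominator -/
theorem Dat.eQ : 2 * (S.N * S.V) = 2 * (S.U * S.P) := by
  have h1 := S.eP
  have h2 := S.eN
  unfold Dat.U Dat.V
  linear_combination (S.ξ - S.ξp) * S.w * h2 - (S.ξ + S.ξp) * h1

variable [IsDomain R]

/-- the values along the section -/
def Fs (D : ℕ) (φ : ℕ → R) (g : R) (k : ℕ) : R :=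
  ∑ n ∈ range (D + 1), (n.choose k : R) * φ n * g ^ n

/-- the regularized value -/
def Dat.G (D : ℕ) (φ : ℕ → R) (k : ℕ) : R :=
  ∑ n ∈ range (D + 1), (n.choose k : R) * (S.N ^ (n - k) * (S.P ^ (D - n) * φ n))

theorem Fs_eq (D : ℕ) (φ : ℕ → R) {g : R} (hg : g * S.V = S.U) (k : ℕ) :
    S.V ^ D * Fs D φ g k = S.U ^ k * BForm.Sf D φ S.U S.V k := by
  unfold Fs BForm.Sf
  rw [mul_sum, mul_sum]
  refine sum_congr rfl fun n hn => ?_
  rw [mem_range] at hn
  by_cases hk : k ≤ n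
  · have e1 : S.V ^ D = S.V ^ n * S.V ^ (D - n) := by
      rw [← pow_add]
      congr 1
      omega
    have e2 : S.V ^ n * g ^ n = S.U ^ k * S.U ^ (n - k) := by
      rw [← mul_pow, mul_comm S.V g, hg, ← pow_add]
      congr 1
      omega
    rw [e1]
    linear_combination ((n.choose k : R) * φ n * S.V ^ (D - n)) * e2
  · rw [Nat.choose_eq_zero_of_lt (by omega)]
    simp

theorem G_eq (D : ℕ) (φ : ℕ → R) (h2 : (2 : R) ≠ 0) (k : ℕ) (hk : k ≤ D) :
    S.V ^ (D - k) * S.G D φ k = S.P ^ (D - k) * BForm.Sf D φ S.U S.V k := by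
  have hQ : S.N * S.V = S.U * S.P := mul_left_cancel₀ h2 S.eQ
  unfold Dat.G BForm.Sf
  rw [mul_sum, mul_sum]
  refine sum_congr rfl fun n hn => ?_
  rw [mem_range] at hn
  by_cases hkn : k ≤ n
  · have e1 : S.V ^ (D - k) = S.V ^ (n - k) * S.V ^ (D - n) := by
      rw [← pow_add]
      congr 1
      omega
    have e2 : S.P ^ (D - k) = S.P ^ (n - k) * S.P ^ (D - n) := by
      rw [← pow_add]
      congr 1
      omega
    have e3 : S.N ^ (n - k) * S.V ^ (n - k) = S.U ^ (n - k) * S.P ^ (n - k) := by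
      rw [← mul_pow, hQ, mul_pow]
    rw [e1, e2]
    linear_combination ((n.choose k : R) * φ n * S.V ^ (D - n) * S.P ^ (D - n)) * e3
  · rw [Nat.choose_eq_zero_of_lt (by omega)]
    simp

/-- the main algebraic statement -/
theorem alg_main (T : Subring R) (D : ℕ) (φ : ℕ → R) (hφ : ∀ n, φ n ∈ T)
    (hξ : S.ξ ∈ T) (hξp : S.ξp ∈ T) (hw : S.w ∈ T) (hq : S.q ∈ T)
    (h2 : (2 : R) ≠ 0) (hV : S.V ≠ 0) (hU : S.U ≠ 0) (hΔ : S.Δ ≠ 0) {g : R} (hg : g * S.V = S.U)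
    (k : ℕ) (hk : k ≤ D) (h0 : ∀ j < k, Fs D φ g j = 0) :
    ∃ ψ ∈ T, ∃ χ ∈ T, (2 * S.q) ^ D * S.ξp ^ k * S.G D φ k = S.h ^ (D - k) *
        ((S.ξ - S.ξp) ^ k * ψ) ∧
      S.V ^ (D - k) * S.Δ ^ k * Fs D φ g k = S.U ^ k * ψ ∧
      (2 * (S.ξp * S.q)) ^ D * S.w ^ (D - k) * φ D = (S.ξ - S.ξp) ^ k * χ := by
  have hUT : S.U ∈ T := T.mul_mem (T.add_mem hξ hξp) hq
  have hVT : S.V ∈ T := T.mul_mem (T.sub_mem hξ hξp) hw
  have hΔT : S.Δ ∈ T := by
    rw [S.eΔ]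
    exact T.add_mem (T.mul_mem hw hUT) (T.mul_mem (T.neg_mem hq) hVT)
  have h0' : ∀ j < k, BForm.Sf D φ S.U S.V j = 0 := by
    intro j hj
    have h1 := Fs_eq S D φ hg j
    rw [h0 j hj, mul_zero] at h1
    rcases mul_eq_zero.1 h1.symm with h3 | h3
    · exact absurd h3 (pow_ne_zero _ hU)
    · exact h3
  have hSf : ∀ j, ((BForm.Sf D (fun n => (⟨φ n, hφ n⟩ : T)) ⟨S.U, hUT⟩ ⟨S.V, hVT⟩ j : T) : R) =
      BForm.Sf D φ S.U S.V j := by
    intro j
    unfold BForm.Sf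
    push_cast
    rfl
  obtain ⟨ψ, χ, h3, h4⟩ := BForm.main (R := T) D (fun n => (⟨φ n, hφ n⟩ : T)) ⟨S.U, hUT⟩
    ⟨S.V, hVT⟩ ⟨S.w, hw⟩ ⟨-S.q, T.neg_mem hq⟩ ⟨S.Δ, hΔT⟩ (Subtype.ext (by
      push_cast
      exact S.eΔ)) (fun h => hV (congrArg Subtype.val h)) (fun h => hΔ (congrArg Subtype.val h))
    k hk (fun j hj => Subtype.ext (by rw [hSf, h0' j hj]; rfl))
  have h3' := congrArg (Subtype.val : T → R) h3
  have h4' := congrArg (Subtype.val : T → R) h4
  simp only [Subring.coe_mul, Subring.coe_pow] at h3' h4'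
  rw [hSf] at h3'
  have hw0 : S.w ≠ 0 := by
    intro h
    apply hV
    unfold Dat.V
    rw [h, mul_zero]
  refine ⟨ψ, ψ.2, χ, χ.2, ?_, ?_, ?_⟩
  · -- first
    have h5 := G_eq S D φ h2 k hk
    have h6 : (2 * S.q) ^ (D - k) * S.G D φ k = S.h ^ (D - k) * BForm.Sf D φ S.U S.V k := by
      apply mul_left_cancel₀ (pow_ne_zero (D - k) hV)
      have e1 : (2 * S.q) ^ (D - k) * S.P ^ (D - k) = S.V ^ (D - k) * S.h ^ (D - k) := by
        rw [← mul_pow, ← mul_pow]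
        congr 1
        have := S.eP
        unfold Dat.V
        linear_combination this
      linear_combination (2 * S.q) ^ (D - k) * h5 + BForm.Sf D φ S.U S.V k * e1
    apply mul_left_cancel₀ (pow_ne_zero k hw0)
    have e2 : (2 * S.q) ^ D = (2 * S.q) ^ (D - k) * (2 * S.q) ^ k := by
      rw [← pow_add]
      congr 1
      omega
    have e3 : S.Δ ^ k = (2 * S.q) ^ k * S.ξp ^ k * S.w ^ k := by
      rw [← mul_pow, ← mul_pow]
      unfold Dat.Δ
      congr 1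
      ring
    have e4 : S.V ^ k = (S.ξ - S.ξp) ^ k * S.w ^ k := by
      rw [← mul_pow]
      rfl
    rw [e3, e4] at h3'
    rw [e2]
    linear_combination (S.w ^ k * (2 * S.q) ^ k * S.ξp ^ k) * h6 + S.h ^ (D - k) * h3'
  · have h5 := Fs_eq S D φ hg k
    apply mul_left_cancel₀ (pow_ne_zero k hV)
    have e1 : S.V ^ D = S.V ^ k * S.V ^ (D - k) := by
      rw [← pow_add]
      congr 1
      omega
    rw [e1] at h5
    linear_combination S.Δ ^ k * h5 + S.U ^ k * h3'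
  · apply mul_left_cancel₀ (pow_ne_zero k hw0)
    have e1 : S.Δ ^ D = (2 * (S.ξp * S.q)) ^ D * (S.w ^ (D - k) * S.w ^ k) := by
      rw [← pow_add, show D - k + k = D by omega, ← mul_pow]
      unfold Dat.Δ
      congr 1
      ring
    have e4 : S.V ^ k = (S.ξ - S.ξp) ^ k * S.w ^ k := by
      rw [← mul_pow]
      rfl
    rw [e1, e4] at h4'
    linear_combination h4'

end alg

end Pool.Agent.L7h91.TW
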