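import Pool.Agent.L7h91.TW.Reg
import Pool.Agent.L7h91.IR.Emp3

/-!
# The exact bound
-/

set_option autoImplicit false

namespace Pool.Agent.L7h91.TW

open Finset Pool.Agent.TH603.EL Pool.Agent.TH3.IR Pool.Agent.L7h91.IR

/-- the choice of the parameters -/
theorem solve {t θ χ : ℝ} (ht : 2 < t)
    (hbad : Int.fract θ < 1 / t ∨ (1 / t) * (1 + 1 / t) < Int.fract θ) :
    ∃ τ a : ℝ, 0 < τ ∧ τ < a ∧ a < 1 ∧ (∃ n : ℤ, (1 + 1 / t) * a = θ + n) ∧
      ∃ m : ℤ, t * τ = χ - a + m := by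
  have ht0 : 0 < t := by linarith
  have h1 : 0 < 1 / t := by positivity
  have h1' : 1 / t < 1 / 2 := by
    apply one_div_lt_one_div_of_lt <;> linarith
  obtain ⟨a, ha1, ha2, n, hn⟩ : ∃ a : ℝ, 1 / t < a ∧ a < 1 ∧ ∃ n : ℤ,
      (1 + 1 / t) * a = θ + n := by
    have hf0 := Int.fract_nonneg θ
    have hf1 := Int.fract_lt_one θ
    rcases hbad with h | h
    · refine ⟨(Int.fract θ + 1) / (1 + 1 / t), ?_, ?_, 1 - ⌊θ⌋, ?_⟩
      · rw [lt_div_iff₀ (by linarith)]
        nlinarith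
      · rw [div_lt_one (by linarith)]
        linarith
      · rw [mul_div_cancel₀ _ (by linarith : (1 + 1 / t : ℝ) ≠ 0)]
        push_cast
        have := Int.self_sub_floor θ
        linarith
    · refine ⟨Int.fract θ / (1 + 1 / t), ?_, ?_, -⌊θ⌋, ?_⟩
      · rw [lt_div_iff₀ (by linarith)]
        exact h
      · rw [div_lt_one (by linarith)]
        linarith
      · rw [mul_div_cancel₀ _ (by linarith : (1 + 1 / t : ℝ) ≠ 0)]
        push_cast
        have := Int.self_sub_floor θ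
        linarith
  obtain ⟨z, hz0, hz1, m, hm⟩ : ∃ z : ℝ, 0 < z ∧ z ≤ 1 ∧ ∃ m : ℤ, z = χ - a + m := by
    have hf0 := Int.fract_nonneg (χ - a)
    have hf1 := Int.fract_lt_one (χ - a)
    have hf2 := Int.self_sub_floor (χ - a)
    by_cases h : Int.fract (χ - a) = 0
    · exact ⟨1, one_pos, le_rfl, 1 - ⌊χ - a⌋, by push_cast; linarith⟩
    · exact ⟨Int.fract (χ - a), lt_of_le_of_ne hf0 (Ne.symm h), hf1.le, -⌊χ - a⌋, by
        push_cast; linarith⟩
  refine ⟨z / t, a, div_pos hz0 ht0, ?_, ha2, ⟨n, hn⟩, m, ?_⟩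
  · rw [div_lt_iff₀ ht0]
    rw [div_lt_iff₀ ht0] at ha1
    linarith
  · rw [mul_div_cancel₀ _ ht0.ne']
    exact hm

/-- one of two choices is possible -/
theorem good {t θ : ℝ} (ht : 8 ≤ t) :
    (Int.fract θ < 1 / t ∨ (1 / t) * (1 + 1 / t) < Int.fract θ) ∨
    (Int.fract (1 / t - θ) < 1 / t ∨ (1 / t) * (1 + 1 / t) < Int.fract (1 / t - θ)) := by
  by_contra hcon
  push Not at hcon
  obtain ⟨⟨h1, h2⟩, h3, h4⟩ := hcon
  have ht0 : 0 < t := by linarith
  have h5 : 1 / t ≤ 1 / 8 := one_div_le_one_div_of_le (by norm_num) ht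
  have h6 : 0 < 1 / t := by positivity
  have h7 : (1 / t) * (1 / t) ≤ 1 / 64 := by nlinarith
  have e1 := Int.self_sub_floor θ
  have e2 := Int.self_sub_floor (1 / t - θ)
  have e3 : ((⌊θ⌋ + ⌊1 / t - θ⌋ : ℤ) : ℝ) = 1 / t - Int.fract θ - Int.fract (1 / t - θ) := by
    push_cast
    linarith
  have e4 : ((⌊θ⌋ + ⌊1 / t - θ⌋ : ℤ) : ℝ) < 0 := by
    rw [e3]
    linarith
  have e5 : (-1 : ℝ) < ((⌊θ⌋ + ⌊1 / t - θ⌋ : ℤ) : ℝ) := by
    rw [e3]
    nlinarith
  have e6 : (⌊θ⌋ + ⌊1 / t - θ⌋ : ℤ) < 0 := by exact_mod_cast e4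
  have e7 : (-1 : ℤ) < (⌊θ⌋ + ⌊1 / t - θ⌋ : ℤ) := by exact_mod_cast e5
  omega

/-- the two last flattenings -/
theorem fin2 {ι σ : Type} [Fintype ι] [Fintype σ] [DecidableEq σ] {w : ι → ℕ} {L R : ℝ}
    {μ ν : σ → ℝ} (hμ : ∀ i, 0 ≤ μ i) (hν : ∀ i, 0 ≤ ν i) {q l : σ} (hql : q ≠ l) {β t d : ℝ}
    (ht : 0 < t) (hβ : 2 * (1 + 1 / t) ≤ β) (hk : β ^ 3 * t / 8 = Fintype.card ι)
    (hsl : μ l + ν l = (t + 1) ^ 2 / t) (hsq : μ q + ν q = t + 1)
    (hsi : ∀ i, i ≠ q → i ≠ l → μ i + ν i = β * (t + 1) / 2) (hW : R - L = d * (t + 1))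
    (hw : β ^ 2 * t / 4 * d < ∑ i, (w i : ℝ))
    (h1 : ∃ v : ℤ, β * (t + 1) / 2 - μ l = v) (h2 : ∃ v : ℤ, β ^ 2 * t / 4 - μ q = v) :
    EmpS w (RegS L R μ ν) := by
  obtain ⟨v, hv⟩ := h1
  obtain ⟨v', hv'⟩ := h2
  have hβ2 : 2 < β := by
    have : 0 < 1 / t := by positivity
    linarith
  have hβ0 : 0 < β := by linarith
  have hβt : 2 * (t + 1) ≤ β * t := by
    have := mul_le_mul_of_nonneg_right hβ ht.le
    have e : 2 * (1 + 1 / t) * t = 2 * (t + 1) := by field_simp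
    linarith
  have hpos : ∀ i, 0 < μ i + ν i := by
    intro i
    by_cases h1 : i = q
    · subst h1
      rw [hsq]
      linarith
    · by_cases h2 : i = l
      · subst h2
        rw [hsl]
        positivity
      · rw [hsi i h1 h2]
        positivity
  have hlam : β * t / (2 * (t + 1)) * ((t + 1) ^ 2 / t) = β * (t + 1) / 2 := by field_simp
  refine flat' (lam := β * t / (2 * (t + 1))) hμ hν hpos l v ?_ ?_ ?_
  · rw [← hv]
    have h3 : (t + 1) ^ 2 / t ≤ β * (t + 1) / 2 := by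
      rw [div_le_iff₀ ht]
      nlinarith
    linarith
  · rw [hsl, hlam, ← hv]
    ring
  intro L1 R1 μ1 ν1 hμ1 hν1 hW1 hs1 hleft
  have hs1q : μ1 q + ν1 q = β * t / 2 := by
    rw [hs1, Function.update_of_ne hql, hsq]
    field_simp
  have hs1l : μ1 l + ν1 l = β ^ 2 * t / 4 := by
    rw [hs1, Function.update_self, hsl]
    field_simp
    ring
  have hs1i : ∀ i, i ≠ q → i ≠ l → μ1 i + ν1 i = β ^ 2 * t / 4 := by
    intro i h1 h2
    rw [hs1, Function.update_of_ne h2, hsi i h1 h2]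
    field_simp
    ring
  have hpos1 : ∀ i, 0 < μ1 i + ν1 i := by
    intro i
    by_cases h1 : i = q
    · subst h1
      rw [hs1q]
      positivity
    · by_cases h2 : i = l
      · subst h2
        rw [hs1l]
        positivity
      · rw [hs1i i h1 h2]
        positivity
  refine flat' (lam := β / 2) hμ1 hν1 hpos1 q v' ?_ ?_ ?_
  · rw [← hv', ← hleft q hql]
    have h3 : β * t / 2 ≤ β ^ 2 * t / 4 := by nlinarith [mul_pos hβ0 ht]
    linarith
  · rw [hs1q, ← hv', ← hleft q hql]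
    ring
  intro L2 R2 μ2 ν2 hμ2 hν2 hW2 hs2 _
  apply EmpS_final hμ2 hν2
  · intro i
    rw [hs2, ← hk]
    apply le_of_eq
    by_cases h1 : i = q
    · subst h1
      rw [Function.update_self, hs1q]
      ring
    · rw [Function.update_of_ne h1]
      by_cases h2 : i = l
      · subst h2
        rw [hs1l]
        ring
      · rw [hs1i i h1 h2]
        ring
  · rw [hW2, hW1, hW]
    refine lt_of_le_of_lt (le_of_eq ?_) hw
    field_simp
    ring

/-- reflection -/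
theorem refl {ι σ : Type} [Fintype σ] {w : ι → ℕ} {L R : ℝ} {μ ν : σ → ℝ}
    (h : EmpS w (RegS (-R) (-L) ν μ)) : EmpS w (RegS L R μ ν) := by
  refine h.comap (-1) (Or.inr rfl) 0 0 ?_
  rintro ⟨x, y⟩ ⟨k1, k2, k3⟩
  simp only at k1 k2 k3
  refine ⟨k1, ?_, ?_⟩
  · simp only [Pi.zero_apply, zero_mul, Finset.sum_const_zero, add_zero]
    push_cast
    linarith
  · simp only [Pi.zero_apply, zero_mul, Finset.sum_const_zero, add_zero]
    push_cast
    linarith

/-- the treatment of the last direction -/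
theorem baseX {ι σ : Type} [Fintype ι] [Fintype σ] [DecidableEq σ] {w : ι → ℕ} {β : ℝ}
    (hβ0 : 2 ≤ β) (hβ : 2 * (1 + 1 / (8 * β ^ (Fintype.card σ - 2))) ≤ β)
    (hk : β ^ (Fintype.card σ + 1) = Fintype.card ι)
    (d : ℕ) (hw : β ^ Fintype.card σ * d < ∑ i, (w i : ℝ)) (l q : σ) (hlq : l ≠ q) :
    ∀ T : Finset σ, l ∉ T → q ∉ T → T.card + 2 = Fintype.card σ →
      ∀ (L R : ℝ) (μ ν : σ → ℝ), (∀ i, 0 ≤ μ i) → (∀ i, 0 ≤ ν i) →
        R - L = 2 * d * β ^ T.card → (∀ i, μ i + ν i = sl β l T i) →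
        (3 / 2 ≤ ν q ∨ 1 ≤ T.card) → EmpS w (RegS L R μ ν) := by
  intro T hl hq hT L R μ ν hμ hν hW hs hready
  have hcard2 : Fintype.card σ - 2 = T.card := by omega
  rw [hcard2] at hβ
  have hc1 : Fintype.card σ = T.card + 2 := by omega
  rw [hc1] at hw hk
  have hβ1 : 1 ≤ β := by linarith
  have hβp : 0 < β := by linarith
  have hone := one_le_pow₀ hβ1 (n := T.card)
  obtain ⟨t, ht⟩ : ∃ t, t = 8 * β ^ T.card := ⟨_, rfl⟩
  rw [← ht] at hβ
  have ht8 : 8 ≤ t := by rw [ht]; linarith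
  have ht0 : 0 < t := by linarith
  have hsl : sl β l T l = t / 2 := by
    unfold Pool.Agent.L7h91.IR.sl
    rw [if_pos rfl, ht]
    ring
  have hsq : sl β l T q = t / 4 := by
    unfold Pool.Agent.L7h91.IR.sl
    rw [if_neg (Ne.symm hlq), if_neg hq, ht]
    ring
  have hsi : ∀ i, i ≠ q → i ≠ l → sl β l T i = β * t / 4 := by
    intro i h2 h1
    have h0 : i ∈ T := by
      by_contra h3
      have h4 : (insert i (insert l (insert q T))).card = T.card + 3 := by
        rw [Finset.card_insert_of_notMem, Finset.card_insert_of_notMem,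
          Finset.card_insert_of_notMem hq]
        · simp [hl, hlq]
        · simp [h1, h2, h3]
      have h5 := Finset.card_le_univ (insert i (insert l (insert q T)))
      omega
    unfold Pool.Agent.L7h91.IR.sl
    rw [if_neg h1, if_pos h0, ht]
    ring
  have hql : q ≠ l := Ne.symm hlq
  have hWd : R - L = d * t / 4 := by
    rw [hW, ht]
    ring
  obtain ⟨θ, hθ⟩ : ∃ θ, θ = β * (t + 1) / 2 - β ^ 2 * t / 4 := ⟨_, rfl⟩
  have hk' : β ^ 3 * t / 8 = Fintype.card ι := by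
    rw [← hk, ht]
    ring
  have hw' : β ^ 2 * t / 4 * ((d : ℝ) / 2) < ∑ i, (w i : ℝ) := by
    refine lt_of_le_of_lt (le_of_eq ?_) hw
    rw [ht]
    ring
  have key : ∀ τ a : ℝ, 0 < τ → τ < a → a < 1 →
      EmpS w (RegS (-(2 * (d * t / 4) * (τ + a / t))) (2 * (d * t / 4) * (1 - τ + (1 - a) / t))
        (sm (sl β l T) q l τ a) (sm (sl β l T) q l (1 - τ) (1 - a))) →
      EmpS w (RegS L R μ ν) := by
    intro τ a h1 h2 h3 h4
    refine EmpS_twist hμ hν hql ?_ ?_ h1 h2 h3 (s := sl β l T) hs (W := d * t / 4) hWd ?_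
    · rcases hready with h5 | h5
      · exact Or.inr h5
      · left
        rw [hs, hsq, ht]
        have : β ^ 1 ≤ β ^ T.card := pow_le_pow_right₀ hβ1 h5
        rw [pow_one] at this
        linarith
    · rw [hs, hsl]
      linarith
    · rw [hsl, show 2 * (t / 2) = t by ring]
      exact h4
  have esm_l : ∀ τ a : ℝ, sm (sl β l T) q l τ a l = t * τ + (2 + 1 / t) * a := by
    intro τ a
    rw [sm_l, hsl, show 2 * (t / 2) = t by ring]
  have esm_q : ∀ τ a : ℝ, sm (sl β l T) q l τ a q = t * τ + a := by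
    intro τ a
    rw [sm_q _ hql, hsl, hsq, show 2 * (t / 2) = t by ring]
    field_simp
  have esm_i : ∀ τ a : ℝ, ∀ i, i ≠ q → i ≠ l →
      sm (sl β l T) q l τ a i = β * (t * τ + a) / 2 := by
    intro τ a i h1 h2
    rw [sm_i _ h1 h2, hsl, hsi i h1 h2, show 2 * (t / 2) = t by ring]
    field_simp
    ring
  have hnn : ∀ τ a : ℝ, 0 ≤ τ → 0 ≤ a → ∀ i, 0 ≤ sm (sl β l T) q l τ a i := by
    intro τ a h1 h2 i
    by_cases h3 : i = q
    · subst h3
      rw [esm_q]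
      positivity
    · by_cases h4 : i = l
      · subst h4
        rw [esm_l]
        positivity
      · rw [esm_i τ a i h3 h4]
        positivity
  rcases good (θ := θ) ht8 with hg | hg
  · obtain ⟨τ, a, h1, h2, h3, ⟨n, hn⟩, m, hm⟩ := solve (χ := β ^ 2 * t / 4) (by linarith) hg
    apply key τ a h1 h2 h3
    refine fin2 (hnn τ a h1.le (by linarith)) (hnn (1 - τ) (1 - a) (by linarith) (by linarith)) hql
      (β := β) (t := t) (d := (d : ℝ) / 2) ht0 hβ hk' ?_ ?_ ?_ ?_ hw' ⟨-m - n, ?_⟩ ⟨-m, ?_⟩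
    · rw [esm_l, esm_l]
      field_simp
      ring
    · rw [esm_q, esm_q]
      ring
    · intro i h4 h5
      rw [esm_i _ _ i h4 h5, esm_i _ _ i h4 h5]
      ring
    · field_simp
      ring
    · rw [esm_l]
      push_cast
      rw [hθ] at hn
      linarith
    · rw [esm_q]
      push_cast
      linarith
  · obtain ⟨τ, a, h1, h2, h3, ⟨n, hn⟩, m, hm⟩ :=
      solve (χ := t + 1 - β ^ 2 * t / 4) (by linarith) hg
    apply key τ a h1 h2 h3
    apply refl
    refine fin2 (hnn (1 - τ) (1 - a) (by linarith) (by linarith)) (hnn τ a h1.le (by linarith)) hql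
      (β := β) (t := t) (d := (d : ℝ) / 2) ht0 hβ hk' ?_ ?_ ?_ ?_ hw' ⟨m + n - 1, ?_⟩ ⟨m, ?_⟩
    · rw [esm_l, esm_l]
      field_simp
      ring
    · rw [esm_q, esm_q]
      ring
    · intro i h4 h5
      rw [esm_i _ _ i h4 h5, esm_i _ _ i h4 h5]
      ring
    · field_simp
      ring
    · rw [esm_l]
      push_cast
      rw [hθ] at hn
      linarith
    · rw [esm_q]
      push_cast
      linarith

end Pool.Agent.L7h91.TW
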