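import Pool.Agent.L7h91.TW.Key

/-!
# The classes of the values of pairs
-/

set_option autoImplicit false

namespace Pool.Agent.L7h91.TW

open Finset Pool.Agent.TH603.EL Pool.Agent.TH3.IR Pool.Agent.TH3.IR.Pair

variable {F : Type} [Field F]

/-- the values of the pairs with exponents in `[L, R]` -/
def Cls (c b : HR F) (L R : ℝ) : Set (HR F) :=
  {v | ∃ A B : Polynomial (HK F), (∀ n ∈ A.support, L ≤ n ∧ (n : ℝ) ≤ R) ∧
    (∀ n ∈ B.support, L ≤ n ∧ (n : ℝ) ≤ R - 3 / 2) ∧ v = pv c b A B}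

theorem supp_add {K : Type*} [Field K] {A B : Polynomial K} {L R : ℝ}
    (hA : ∀ n ∈ A.support, L ≤ n ∧ (n : ℝ) ≤ R) (hB : ∀ n ∈ B.support, L ≤ n ∧ (n : ℝ) ≤ R) :
    ∀ n ∈ (A + B).support, L ≤ n ∧ (n : ℝ) ≤ R := by
  intro n hn
  rcases Finset.mem_union.1 (Polynomial.support_add hn) with h | h
  · exact hA n h
  · exact hB n h

theorem supp_mono {K : Type*} [Field K] {A : Polynomial K} {L R L' R' : ℝ}
    (hA : ∀ n ∈ A.support, L ≤ n ∧ (n : ℝ) ≤ R) (h1 : L' ≤ L) (h2 : R ≤ R') :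
    ∀ n ∈ A.support, L' ≤ n ∧ (n : ℝ) ≤ R' := by
  intro n hn
  have := hA n hn
  exact ⟨by linarith, by linarith⟩

theorem supp_mul {K : Type*} [Field K] {P A : Polynomial K} {L R : ℝ} {p : ℕ}
    (hP : P.natDegree ≤ p) (hA : ∀ n ∈ A.support, L ≤ n ∧ (n : ℝ) ≤ R) :
    ∀ n ∈ (P * A).support, L ≤ n ∧ (n : ℝ) ≤ R + p := by
  intro n hn
  rw [Polynomial.mem_support_iff, Polynomial.coeff_mul] at hn
  obtain ⟨⟨i, j⟩, hij, h⟩ := Finset.exists_ne_zero_of_sum_ne_zero hn
  rw [HasAntidiagonal.mem_antidiagonal] at hij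
  simp only at hij h
  have h1 := hA j (Polynomial.mem_support_iff.2 (right_ne_zero_of_mul h))
  have h2 : i ≤ p := (Polynomial.le_natDegree_of_ne_zero (left_ne_zero_of_mul h)).trans hP
  have h3 : (n : ℝ) = i + j := by rw [← hij]; push_cast; ring
  have h4 : (i : ℝ) ≤ p := by exact_mod_cast h2
  have h5 : (0 : ℝ) ≤ i := Nat.cast_nonneg i
  exact ⟨by linarith, by linarith⟩

theorem pv_add (c b : HR F) (A A' B B' : Polynomial (HK F)) :
    pv c b (A + A') (B + B') = pv c b A B + pv c b A' B' := by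
  unfold pv
  rw [Polynomial.eval₂_add, Polynomial.eval₂_add]
  ring

theorem Cls.mono {c b : HR F} {L R L' R' : ℝ} {v : HR F} (h : v ∈ Cls c b L R) (h1 : L' ≤ L)
    (h2 : R ≤ R') : v ∈ Cls c b L' R' := by
  obtain ⟨A, B, hA, hB, hv⟩ := h
  exact ⟨A, B, supp_mono hA h1 h2, supp_mono hB h1 (by linarith), hv⟩

theorem Cls.zero {c b : HR F} {L R : ℝ} : (0 : HR F) ∈ Cls c b L R := by
  refine ⟨0, 0, by simp, by simp, ?_⟩
  unfold pv
  simp

theorem Cls.add {c b : HR F} {L R : ℝ} {v w : HR F} (hv : v ∈ Cls c b L R)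
    (hw : w ∈ Cls c b L R) : v + w ∈ Cls c b L R := by
  obtain ⟨A, B, hA, hB, rfl⟩ := hv
  obtain ⟨A', B', hA', hB', rfl⟩ := hw
  exact ⟨A + A', B + B', supp_add hA hA', supp_add hB hB', (pv_add c b A A' B B').symm⟩

theorem Cls.smul {c b : HR F} {L R : ℝ} {v : HR F} (hv : v ∈ Cls c b L R) (κ : HK F) :
    incl κ * v ∈ Cls c b L R := by
  obtain ⟨A, B, hA, hB, rfl⟩ := hv
  refine ⟨Polynomial.C κ * A, Polynomial.C κ * B, ?_, ?_, ?_⟩
  · have := supp_mul (P := Polynomial.C κ) (p := 0) (by simp) hA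
    simpa using this
  · have := supp_mul (P := Polynomial.C κ) (p := 0) (by simp) hB
    simpa using this
  · unfold pv
    rw [Polynomial.eval₂_mul, Polynomial.eval₂_mul, Polynomial.eval₂_C]
    ring

theorem Cls.sum {ι : Type*} {c b : HR F} {L R : ℝ} (s : Finset ι) (f : ι → HR F)
    (h : ∀ i ∈ s, f i ∈ Cls c b L R) : ∑ i ∈ s, f i ∈ Cls c b L R := by
  classical
  induction s using Finset.induction_on with
  | empty => simpa using Cls.zero
  | insert a s ha ih =>
    rw [Finset.sum_insert ha]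
    exact Cls.add (h a (Finset.mem_insert_self a s))
      (ih fun i hi => h i (Finset.mem_insert_of_mem hi))

theorem Cls.nat {c b : HR F} {L R : ℝ} {v : HR F} (hv : v ∈ Cls c b L R) (n : ℕ) :
    (n : HR F) * v ∈ Cls c b L R := by
  have := Cls.smul hv (n : HK F)
  rwa [map_natCast] at this

theorem Cls.mulX {c b : HR F} {L R : ℝ} {v : HR F} (hv : v ∈ Cls c b L R) (α : HK F) :
    (c ^ 2 - incl α) * v ∈ Cls c b L (R + 1) := by
  obtain ⟨A, B, hA, hB, rfl⟩ := hv
  refine ⟨(Polynomial.X - Polynomial.C α) * A, (Polynomial.X - Polynomial.C α) * B, ?_, ?_, ?_⟩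
  · have := supp_mul (P := Polynomial.X - Polynomial.C α) (p := 1)
      (Polynomial.natDegree_X_sub_C_le α) hA
    push_cast at this
    exact this
  · have := supp_mul (P := Polynomial.X - Polynomial.C α) (p := 1)
      (Polynomial.natDegree_X_sub_C_le α) hB
    push_cast at this
    intro n hn
    have := this n hn
    exact ⟨this.1, by linarith⟩
  · unfold pv
    rw [Polynomial.eval₂_mul, Polynomial.eval₂_mul, Polynomial.eval₂_sub, Polynomial.eval₂_X,
      Polynomial.eval₂_C]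
    ring

theorem four_ne [CharZero F] : (4 : HR F) ≠ 0 := by
  intro h
  have h5 := congrArg (fun x : HR F => cf x 0 0 0) h
  have h6 : (4 : HR F) = incl (4 : HK F) := by rw [map_ofNat]
  rw [h6] at h5
  simp only [cf_incl] at h5
  have h7 : ((4 : HK F)).coeff 0 = 4 := by
    have : (4 : HK F) = HahnSeries.C (4 : F) := by rw [map_ofNat]
    rw [this]
    simp
  rw [h7] at h5
  simp [cf] at h5

theorem two_ne [CharZero F] : (2 : HR F) ≠ 0 := by
  intro h
  apply four_ne (F := F)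
  have : (4 : HR F) = 2 * 2 := by norm_num
  rw [this, h, zero_mul]

/-- the equation of the curve -/
theorem IsT.b_sq [CharZero F] {τ : ℝ} {c b : HR F} (hT : IsT τ c b) :
    b ^ 2 = (c ^ 3 - c) ^ 2 + incl (HahnSeries.single (1 : ℝ) (1 : F)) := by
  have h1 : incl (HahnSeries.single (1 : ℝ) (1 : F)) = xi F τ * et F τ := by
    rw [xi_mul_et, Pair.incl_single]
    rfl
  apply mul_left_cancel₀ (four_ne (F := F))
  rw [h1]
  linear_combination (2 * b + xi F τ + et F τ) * hT.b_eq -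
    (2 * (c ^ 3 - c) + xi F τ - et F τ) * hT.eq

theorem Cls.mulY [CharZero F] {τ : ℝ} {c b : HR F} (hT : IsT τ c b) {L R : ℝ} {v : HR F}
    (hv : v ∈ Cls c b L R) (bp : HK F) :
    (b + incl bp) * v ∈ Cls c b L (R + 3 / 2) := by
  obtain ⟨A, B, hA, hB, rfl⟩ := hv
  set t : HK F := HahnSeries.single (1 : ℝ) (1 : F) with ht
  have hb := hT.b_sq
  rw [← ht] at hb
  refine ⟨Polynomial.C (bp - 1) * A + (Polynomial.X * (Polynomial.X - 1) ^ 2 +
    Polynomial.C (t - 1)) * B, A + Polynomial.C (1 + bp) * B, ?_, ?_, ?_⟩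
  · refine supp_add ?_ ?_
    · have := supp_mul (P := Polynomial.C (bp - 1)) (p := 0) (Polynomial.natDegree_C _).le hA
      push_cast at this
      exact supp_mono this le_rfl (by linarith)
    · have hd : (Polynomial.X * (Polynomial.X - 1) ^ 2 + Polynomial.C (t - 1) :
          Polynomial (HK F)).natDegree ≤ 3 := by
        compute_degree
      have := supp_mul hd hB
      push_cast at this
      exact supp_mono this le_rfl (by linarith)
  · refine supp_add ?_ ?_
    · exact supp_mono hA le_rfl (by linarith)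
    · have := supp_mul (P := Polynomial.C (1 + bp)) (p := 0) (Polynomial.natDegree_C _).le hB
      push_cast at this
      exact supp_mono this le_rfl (by linarith)
  · unfold pv
    simp only [Polynomial.eval₂_add, Polynomial.eval₂_mul, Polynomial.eval₂_C,
      Polynomial.eval₂_X, Polynomial.eval₂_pow, Polynomial.eval₂_sub, Polynomial.eval₂_one,
      map_sub, map_add, map_one]
    linear_combination (B.eval₂ incl (c ^ 2)) * hb

theorem Cls.bd {τ : ℝ} {c b : HR F} (hc : Bd τ c) (hb : Bd τ b) {L R : ℝ} {v : HR F}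
    (hv : v ∈ Cls c b L R) : Bd τ v := by
  obtain ⟨A, B, hA, hB, rfl⟩ := hv
  have h1 : ∀ P : Polynomial (HK F), Bd τ (P.eval₂ incl (c ^ 2)) := by
    intro P
    rw [Polynomial.eval₂_eq_sum, Polynomial.sum_def]
    apply Bd.sum
    intro n _
    refine Bd.mul ?_ ((hc.pow 2).pow n)
    obtain ⟨κ, hκ⟩ : ∃ κ, Low (P.coeff n) κ := by
      by_cases h0 : P.coeff n = 0
      · exact ⟨0, by rw [h0]; intro a _; rfl⟩
      · exact ⟨(P.coeff n).order, fun a ha => HahnSeries.coeff_eq_zero_of_lt_order ha⟩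
    exact Bd.of_low hκ
  unfold pv
  exact (h1 A).add ((h1 B).mul (Bd.one.add hb))

end Pool.Agent.L7h91.TW
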