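import Pool.Agent.L7h91.TW.Sub

/-!
# Decomposition of a Laurent polynomial
-/

set_option autoImplicit false

namespace Pool.Agent.L7h91.TW

open Finset Pool.Agent.TH603.EL Pool.Agent.TH3.IR Pool.Agent.TH3.IR.Comap

/-- repeated division by the nodal curve -/
theorem nod_exp {F : Type} [Field F] {l r : ℝ} (hl : 0 ≤ l) (hr : 3 / 2 ≤ r) (N : ℕ) :
    ∀ {L R : ℝ} {f : Polynomial (Polynomial (HK F))}, f.natDegree ≤ N → InTri L R l r f →
    ∃ A B : ℕ → Polynomial (HK F),
      (∀ j : ℕ, ∀ n ∈ (A j).support, L + 2 * l * j ≤ n ∧ (n : ℝ) ≤ R - 2 * r * j) ∧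
      (∀ j : ℕ, ∀ n ∈ (B j).support, L + 2 * l * j ≤ n ∧ (n : ℝ) ≤ R - 2 * r * j - 3 / 2) ∧
      ∀ J, N < J → f = ∑ j ∈ range J, nod F ^ j * (Polynomial.C (A j) +
        Polynomial.C (B j) * Polynomial.X) := by
  induction N with
  | zero =>
    intro L R f hf hT
    refine ⟨fun j => if j = 0 then f.coeff 0 else 0, fun _ => 0, ?_, ?_, ?_⟩
    · intro j n hn
      by_cases hj : j = 0
      · simp only [hj, if_pos] at hn
        have := hT 0 n hn
        rw [hj]
        simpa using this
      · simp only [if_neg hj] at hn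
        simp at hn
    · intro j n hn
      simp at hn
    · intro J hJ
      rw [Finset.sum_eq_single 0]
      · rw [Polynomial.eq_C_of_natDegree_le_zero hf]
        simp
      · intro j _ hj
        simp [hj]
      · intro h
        exact absurd (mem_range.2 hJ) h
  | succ N ih =>
    intro L R f hf hT
    by_cases hf0 : f = 0
    · refine ⟨fun _ => 0, fun _ => 0, by simp, by simp, fun J _ => ?_⟩
      rw [hf0]
      simp
    obtain ⟨A0, B0, q, h1, h2, h3, h4, h5⟩ := nod_div hl hr hT
    have hq : q.natDegree ≤ N := by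
      rcases h5 hf0 with h | h
      · omega
      · rw [h]
        simp
    obtain ⟨A, B, hA, hB, hE⟩ := ih hq h4
    refine ⟨fun j => Nat.casesOn j A0 A, fun j => Nat.casesOn j B0 B, ?_, ?_, ?_⟩
    · intro j n hn
      cases j with
      | zero =>
        have := h2 n hn
        simpa using this
      | succ j =>
        have := hA j n hn
        push_cast
        constructor <;> linarith
    · intro j n hn
      cases j with
      | zero =>
        have := h3 n hn
        rw [Nat.cast_zero, mul_zero, mul_zero]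
        constructor <;> linarith
      | succ j =>
        have := hB j n hn
        push_cast
        constructor <;> linarith
    · intro J hJ
      obtain ⟨J', rfl⟩ : ∃ J', J = J' + 1 := ⟨J - 1, by omega⟩
      rw [Finset.sum_range_succ', h1]
      have h6 := hE J' (by omega)
      have h7 : nod F * q = ∑ j ∈ range J', nod F ^ (j + 1) * (Polynomial.C (A j) +
          Polynomial.C (B j) * Polynomial.X) := by
        conv_lhs => rw [h6]
        rw [Finset.mul_sum]
        refine Finset.sum_congr rfl fun j _ => ?_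
        rw [pow_succ]
        ring
      rw [h7, pow_zero, one_mul]
      exact add_comm _ _

section dec

variable {F : Type} [Field F] {σ : Type} [Fintype σ] [DecidableEq σ] (q l : σ)

/-- the passive part of the exponent -/
def prj (m : ℤ × (σ → ℤ)) : σ → ℤ := Function.update (Function.update m.2 q 0) l 0

theorem prj_q (hql : q ≠ l) (m : ℤ × (σ → ℤ)) : prj q l m q = 0 := by
  unfold prj
  rw [Function.update_of_ne hql, Function.update_self]

theorem prj_l (m : ℤ × (σ → ℤ)) : prj q l m l = 0 := by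
  unfold prj
  rw [Function.update_self]

theorem prj_i (m : ℤ × (σ → ℤ)) {i : σ} (hq : i ≠ q) (hl : i ≠ l) : prj q l m i = m.2 i := by
  unfold prj
  rw [Function.update_of_ne hl, Function.update_of_ne hq]

theorem prod_split {R : Type*} [CommMonoid R] (hql : q ≠ l) (f : σ → R) :
    ∏ i, f i = f q * f l * ∏ i ∈ (univ.erase q).erase l, f i := by
  rw [← Finset.mul_prod_erase univ f (mem_univ q), ← Finset.mul_prod_erase (univ.erase q) f
    (Finset.mem_erase.2 ⟨hql.symm, mem_univ l⟩), mul_assoc]

theorem sum_split (hql : q ≠ l) (f : σ → ℝ) :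
    ∑ i, f i = f q + f l + ∑ i ∈ (univ.erase q).erase l, f i := by
  rw [← Finset.add_sum_erase univ f (mem_univ q), ← Finset.add_sum_erase (univ.erase q) f
    (Finset.mem_erase.2 ⟨hql.symm, mem_univ l⟩), add_assoc]

/-- the part of the polynomial -/
noncomputable def PP (f : (ℤ × (σ → ℤ)) →₀ Ae F) (a : ℕ) (c : σ → ℤ) (n : ℕ) :
    Polynomial (Polynomial (HK F)) :=
  ∑ m ∈ (f.support.filter (fun m => prj q l m = c)).filter (fun m => (m.2 l).toNat = n),
    Polynomial.monomial (m.2 q).toNat (Polynomial.monomial m.1.toNat ((f m).coeff a))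

/-- the coordinates -/
noncomputable def UU {R : Type} [CommRing R] (A : SD F R) (pas : σ → R) (i : σ) : R :=
  if i = q then A.ye else if i = l then A.le else pas i

/-- the inclusion of the polynomials in `ε` -/
noncomputable def SD.φ {R : Type} [CommRing R] (A : SD F R) : Ae F →+* R :=
  Polynomial.eval₂RingHom (A.j.comp (incl (F := F))) A.ε

theorem SD.φ_eq {R : Type} [CommRing R] (A : SD F R) (p : Ae F) {Na : ℕ} (h : p.natDegree < Na) :
    A.φ p = ∑ a ∈ range Na, A.ε ^ a * A.j (incl (p.coeff a)) := by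
  unfold SD.φ
  rw [Polynomial.coe_eval₂RingHom, Polynomial.eval₂_eq_sum_range' _ h]
  refine Finset.sum_congr rfl fun a _ => ?_
  rw [mul_comm]
  rfl

/-- the passive indices -/
noncomputable def CC (f : (ℤ × (σ → ℤ)) →₀ Ae F) : Finset (σ → ℤ) := by
  classical exact f.support.image (prj q l)

theorem mem_CC {f : (ℤ × (σ → ℤ)) →₀ Ae F} {c : σ → ℤ} :
    c ∈ CC q l f ↔ ∃ m ∈ f.support, prj q l m = c := by
  classical
  unfold CC
  rw [Finset.mem_image]

theorem evR_dec {R : Type} [CommRing R] (A : SD F R) (pas : σ → R) (hql : q ≠ l)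
    (f : (ℤ × (σ → ℤ)) →₀ Ae F) (Na N : ℕ)
    (hNa : ∀ m ∈ f.support, (f m).natDegree < Na) (hN : ∀ m ∈ f.support, (m.2 l).toNat ≤ N) :
    evR A.φ A.xe (UU q l A pas) f = ∑ a ∈ range Na, ∑ c ∈ CC q l f,
      A.ε ^ a * (∏ i, pas i ^ (c i).toNat) * ∑ n ∈ range (N + 1), A.le ^ n *
        A.ev (PP q l f a c n) := by
  classical
  unfold evR Finsupp.sum
  have h1 : ∀ m ∈ f.support, A.φ (f m) * (A.xe ^ m.1.toNat *
      ∏ i, UU q l A pas i ^ (m.2 i).toNat) = ∑ a ∈ range Na,
      A.ε ^ a * (∏ i, pas i ^ (prj q l m i).toNat) * (A.le ^ (m.2 l).toNat *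
        A.ev (Polynomial.monomial (m.2 q).toNat
          (Polynomial.monomial m.1.toNat ((f m).coeff a)))) := by
    intro m hm
    rw [A.φ_eq _ (hNa m hm), prod_split q l hql, prod_split q l hql, Finset.sum_mul]
    refine Finset.sum_congr rfl fun a _ => ?_
    rw [prj_q q l hql, prj_l]
    have e1 : ∏ i ∈ (univ.erase q).erase l, UU q l A pas i ^ (m.2 i).toNat =
        ∏ i ∈ (univ.erase q).erase l, pas i ^ (prj q l m i).toNat := by
      refine Finset.prod_congr rfl fun i hi => ?_
      rw [Finset.mem_erase, Finset.mem_erase] at hi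
      rw [prj_i q l m hi.2.1 hi.1]
      unfold UU
      rw [if_neg hi.2.1, if_neg hi.1]
    have e2 : UU q l A pas q = A.ye := if_pos rfl
    have e3 : UU q l A pas l = A.le := by
      unfold UU
      rw [if_neg hql.symm, if_pos rfl]
    have e4 : A.ev (Polynomial.monomial (m.2 q).toNat
        (Polynomial.monomial m.1.toNat ((f m).coeff a))) =
        A.j (incl ((f m).coeff a)) * A.xe ^ m.1.toNat * A.ye ^ (m.2 q).toNat := by
      rw [← Polynomial.C_mul_X_pow_eq_monomial, ← Polynomial.C_mul_X_pow_eq_monomial,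
        Polynomial.C_mul, Polynomial.C_pow, map_mul, map_mul, map_pow, map_pow, A.ev_CC, A.ev_CX,
        A.ev_X]
    rw [e1, e2, e3, e4]
    simp only [Int.toNat_zero, pow_zero, one_mul]
    ring
  rw [Finset.sum_congr rfl h1, Finset.sum_comm]
  refine Finset.sum_congr rfl fun a _ => ?_
  rw [← Finset.sum_fiberwise_of_maps_to (s := f.support) (t := CC q l f) (g := prj q l)
    (fun m hm => (mem_CC q l).2 ⟨m, hm, rfl⟩)]
  refine Finset.sum_congr rfl fun c _ => ?_
  rw [Finset.mul_sum, ← Finset.sum_fiberwise_of_maps_to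
    (s := f.support.filter (fun m => prj q l m = c)) (t := range (N + 1))
    (g := fun m => (m.2 l).toNat)
    (fun m hm => mem_range.2 (Nat.lt_succ_of_le (hN m (Finset.mem_filter.1 hm).1)))]
  refine Finset.sum_congr rfl fun n _ => ?_
  unfold PP
  rw [map_sum, Finset.mul_sum, Finset.mul_sum]
  refine Finset.sum_congr rfl fun m hm => ?_
  rw [Finset.mem_filter, Finset.mem_filter] at hm
  rw [hm.1.2, hm.2]

theorem PP_coeff {f : (ℤ × (σ → ℤ)) →₀ Ae F} {a : ℕ} {c : σ → ℤ} {n b k : ℕ}
    (h : ((PP q l f a c n).coeff b).coeff k ≠ 0) :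
    ∃ m ∈ f.support, prj q l m = c ∧ (m.2 l).toNat = n ∧ (m.2 q).toNat = b ∧ m.1.toNat = k := by
  classical
  unfold PP at h
  rw [Polynomial.finsetSum_coeff, Polynomial.finsetSum_coeff] at h
  obtain ⟨m, hm, h1⟩ := Finset.exists_ne_zero_of_sum_ne_zero h
  rw [Finset.mem_filter, Finset.mem_filter] at hm
  rw [Polynomial.coeff_monomial] at h1
  by_cases hb : (m.2 q).toNat = b
  · rw [if_pos hb, Polynomial.coeff_monomial] at h1
    by_cases hk : m.1.toNat = k
    · exact ⟨m, hm.1.1, hm.1.2, hm.2, hb, hk⟩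
    · rw [if_neg hk] at h1
      exact absurd rfl h1
  · rw [if_neg hb, Polynomial.coeff_zero] at h1
    exact absurd rfl h1

theorem PP_ne {f : (ℤ × (σ → ℤ)) →₀ Ae F}
    (hf : ∀ m ∈ f.support, 0 ≤ m.1 ∧ ∀ i, 0 ≤ m.2 i) {m0 : ℤ × (σ → ℤ)} (hm0 : m0 ∈ f.support)
    {a : ℕ} (ha : (f m0).coeff a ≠ 0) : PP q l f a (prj q l m0) (m0.2 l).toNat ≠ 0 := by
  classical
  intro h
  have h1 : ((PP q l f a (prj q l m0) (m0.2 l).toNat).coeff (m0.2 q).toNat).coeff m0.1.toNat =
      (f m0).coeff a := by
    unfold PP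
    rw [Polynomial.finsetSum_coeff, Polynomial.finsetSum_coeff, Finset.sum_eq_single m0]
    · rw [Polynomial.coeff_monomial, if_pos rfl, Polynomial.coeff_monomial, if_pos rfl]
    · intro m hm hne
      rw [Finset.mem_filter, Finset.mem_filter] at hm
      rw [Polynomial.coeff_monomial]
      by_cases hb : (m.2 q).toNat = (m0.2 q).toNat
      · rw [if_pos hb, Polynomial.coeff_monomial]
        by_cases hk : m.1.toNat = m0.1.toNat
        · exfalso
          apply hne
          obtain ⟨p1, p2⟩ := hf m hm.1.1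
          obtain ⟨p3, p4⟩ := hf m0 hm0
          have g1 : m.1 = m0.1 := by omega
          have g2 : m.2 q = m0.2 q := by
            have := p2 q
            have := p4 q
            omega
          have g3 : m.2 l = m0.2 l := by
            have := p2 l
            have := p4 l
            have := hm.2
            omega
          apply Prod.ext g1
          funext i
          by_cases hi : i = q
          · rw [hi]; exact g2
          · by_cases hi' : i = l
            · rw [hi']; exact g3
            · rw [← prj_i q l m hi hi', ← prj_i q l m0 hi hi', hm.1.2]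
        · rw [if_neg hk]
      · rw [if_neg hb, Polynomial.coeff_zero]
    · intro h2
      exfalso
      apply h2
      rw [Finset.mem_filter, Finset.mem_filter]
      exact ⟨⟨hm0, rfl⟩, rfl⟩
  rw [h] at h1
  simp only [Polynomial.coeff_zero] at h1
  exact ha h1.symm

/-- the triangle of the part -/
theorem PP_tri (hql : q ≠ l) {f : (ℤ × (σ → ℤ)) →₀ Ae F} {L R : ℝ} {μ ν : σ → ℝ}
    (hf : ∀ m ∈ f.support, 0 ≤ m.1 ∧ m ∈ RegS L R μ ν) (a : ℕ) {c : σ → ℤ} (n : ℕ) :
    InTri (L + ∑ i ∈ (univ.erase q).erase l, μ i * (c i : ℝ) + μ l * n)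
      (R - ∑ i ∈ (univ.erase q).erase l, ν i * (c i : ℝ) - ν l * n) (μ q) (ν q)
      (PP q l f a c n) := by
  intro b k hk
  obtain ⟨m, hm, h1, h2, h3, h4⟩ := PP_coeff q l (Polynomial.mem_support_iff.1 hk)
  obtain ⟨h5, h6, h7, h8⟩ := hf m hm
  have e1 : ∀ μ : σ → ℝ, ∑ i, μ i * (m.2 i : ℝ) = μ q * b + μ l * n +
      ∑ i ∈ (univ.erase q).erase l, μ i * (c i : ℝ) := by
    intro μ
    rw [sum_split q l hql]
    have e2 : (m.2 q : ℝ) = b := by
      have : m.2 q = (b : ℤ) := by
        rw [← h3]
        exact (Int.toNat_of_nonneg (h6 q)).symm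
      exact_mod_cast this
    have e3 : (m.2 l : ℝ) = n := by
      have : m.2 l = (n : ℤ) := by
        rw [← h2]
        exact (Int.toNat_of_nonneg (h6 l)).symm
      exact_mod_cast this
    rw [e2, e3]
    congr 1
    refine Finset.sum_congr rfl fun i hi => ?_
    rw [Finset.mem_erase, Finset.mem_erase] at hi
    rw [← h1, prj_i q l m hi.2.1 hi.1]
  have e4 : (m.1 : ℝ) = k := by
    have : m.1 = (k : ℤ) := by
      rw [← h4]
      exact (Int.toNat_of_nonneg h5).symm
    exact_mod_cast this
  rw [e1, e4] at h7 h8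
  constructor <;> linarith

end dec

end Pool.Agent.L7h91.TW
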