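import Pool.Agent.L7h91.TW.Alg

/-!
# The range of the leading exponents
-/

set_option autoImplicit false

namespace Pool.Agent.L7h91.TW

open Finset Pool.Agent.TH603.EL Pool.Agent.TH3.IR Pool.Agent.TH3.IR.Pair

variable {F : Type} [Field F]

/-- one half -/
noncomputable def hf (F : Type) [Field F] : HR F := incl (HahnSeries.C (2⁻¹ : F))

theorem low_hf : Low (hf F) 0 := (low_single 0 (2⁻¹ : F)).incl

theorem wt_hf {β : ℝ} : Wt β 0 (hf F) := wt_incl (low_single 0 (2⁻¹ : F))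

/-- near `1` -/
structure IsN (τ : ℝ) (x : HR F) : Prop where
  u : IsU τ x
  low : ∃ m, 0 < m ∧ Low (x - 1) m

theorem IsN.mul {τ : ℝ} {u v : HR F} (hu : IsN τ u) (hv : IsN τ v) : IsN τ (u * v) := by
  refine ⟨hu.u.mul hv.u, ?_⟩
  obtain ⟨m, hm, h1⟩ := hu.low
  obtain ⟨m', hm', h2⟩ := hv.low
  refine ⟨min m m', lt_min hm hm', ?_⟩
  have e : u * v - 1 = (u - 1) * (v - 1) + ((u - 1) + (v - 1)) := by ring
  rw [e]
  refine ((h1.mul h2).mono ?_).add ((h1.mono (min_le_left _ _)).add (h2.mono (min_le_right _ _)))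
  have := min_le_left m m'
  linarith

theorem IsN.pow {τ : ℝ} {u : HR F} (hu : IsN τ u) (n : ℕ) : IsN τ (u ^ n) := by
  induction n with
  | zero => rw [pow_zero]; exact ⟨IsU.one, 1, one_pos, by rw [sub_self]; intro a _; rfl⟩
  | succ n ih => rw [pow_succ]; exact ih.mul hu

theorem IsN.of_cone {τ m : ℝ} (h0 : 0 < τ) (h1 : τ < 1) (hm : 0 < m) {x : HR F}
    (hx : x ∈ Cone F τ 1) (hy : ∀ a i j, cf x a i j ≠ 0 → j = 0) (hl : Low (x - 1) m) :
    IsN τ x := by
  obtain ⟨w0, w1⟩ := wt_of_cone hx hy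
  refine ⟨⟨w0, w1, fun r hr0 hr1 => ?_⟩, m, hm, hl⟩
  refine ⟨min r (1 - r) * m, mul_pos (lt_min hr0 (by linarith)) hm, ?_⟩
  intro a i j hc
  have ha : m ≤ a := by
    by_contra hcon
    push Not at hcon
    apply hc
    unfold cf
    rw [hl a hcon]
    rfl
  have hc' : cf x a i j ≠ 0 := by
    intro h
    apply hc
    rw [Root.cf_sub, h, zero_sub, neg_eq_zero, ← tz_one, CR.cf_tz', if_neg]
    rintro ⟨h1, _⟩
    linarith
  obtain ⟨k1, k2⟩ := w0 _ _ _ hc'
  obtain ⟨_, k3⟩ := w1 _ _ _ hc'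
  refine ⟨k1, ?_⟩
  have e1 := min_le_left r (1 - r)
  have e2 := min_le_right r (1 - r)
  have e3 : min r (1 - r) * m ≤ r * m := mul_le_mul_of_nonneg_right e1 hm.le
  have e4 : min r (1 - r) * m ≤ (1 - r) * m := mul_le_mul_of_nonneg_right e2 hm.le
  have e : a + (r - τ) * i = (1 - r) * (a + -τ * i) + r * (a + (1 - τ) * i) := by ring
  rw [e]
  rcases le_total (0 : ℝ) i with hi | hi
  · have e5 : m ≤ a + (1 - τ) * i := by
      have : 0 ≤ (1 - τ) * i := mul_nonneg (by linarith) hi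
      linarith
    have := mul_le_mul_of_nonneg_left e5 hr0.le
    have := mul_nonneg (by linarith : 0 ≤ 1 - r) k2
    linarith
  · have e5 : m ≤ a + -τ * i := by
      have : 0 ≤ -τ * i := by nlinarith
      linarith
    have := mul_le_mul_of_nonneg_left e5 (by linarith : 0 ≤ 1 - r)
    have := mul_nonneg hr0.le k3
    linarith

theorem IsN.incl {τ m : ℝ} (hm : 0 < m) {x : HK F} (hl : Low (x - 1) m) : IsN τ (incl x) := by
  have e : ∀ β, Wt β m (Pool.Agent.TH603.EL.incl x - 1) := by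
    intro β
    have := wt_incl (β := β) hl
    rwa [map_sub, map_one] at this
  have e2 : ∀ β, Wt β 0 (Pool.Agent.TH603.EL.incl x) := by
    intro β
    have h1 := ((e β).mono hm.le).add wt_one
    rwa [sub_add_cancel] at h1
  refine ⟨⟨e2 _, e2 _, fun r _ _ => ⟨m, hm, e _⟩⟩, m, hm, ?_⟩
  have := hl.incl
  rwa [map_sub, map_one] at this

section half

variable [CharZero F]

theorem two_hf : 2 * hf F = 1 := by
  unfold hf
  have e2 : (2 : HR F) = incl (HahnSeries.C (2 : F)) := by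
    rw [map_ofNat, map_ofNat]
  rw [e2, ← map_mul, ← map_mul, mul_inv_cancel₀ two_ne_zero, map_one, map_one]

theorem IsN.avg {τ : ℝ} {u v : HR F} (hu : IsN τ u) (hv : IsN τ v) : IsN τ (hf F * (u + v)) := by
  have e : hf F * (u + v) - 1 = hf F * ((u - 1) + (v - 1)) := by
    linear_combination two_hf (F := F)
  obtain ⟨m, hm, h1⟩ := hu.low
  obtain ⟨m', hm', h2⟩ := hv.low
  refine ⟨⟨?_, ?_, fun r h0 h1 => ?_⟩, min m m', lt_min hm hm', ?_⟩
  · exact (wt_hf.mul (hu.u.w0.add hv.u.w0)).mono (by simp)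
  · exact (wt_hf.mul (hu.u.w1.add hv.u.w1)).mono (by simp)
  · obtain ⟨ν, hν, h3⟩ := hu.u.w r h0 h1
    obtain ⟨ν', hν', h4⟩ := hv.u.w r h0 h1
    refine ⟨min ν ν', lt_min hν hν', ?_⟩
    rw [e]
    exact (wt_hf.mul ((h3.mono (min_le_left _ _)).add (h4.mono (min_le_right _ _)))).mono (by simp)
  · rw [e]
    have := low_hf.mul ((h1.mono (min_le_left m m')).add (h2.mono (min_le_right m m')))
    exact this.mono (by simp)

theorem IsN.avg3 {τ : ℝ} {u v w : HR F} (hu : IsN τ u) (hv : IsN τ v) (hw : IsN τ w) :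
    IsN τ (hf F * (u + v + w - 1)) := by
  have e : hf F * (u + v + w - 1) - 1 = hf F * ((u - 1) + (v - 1) + (w - 1)) := by
    linear_combination two_hf (F := F)
  obtain ⟨m, hm, h1⟩ := hu.low
  obtain ⟨m', hm', h2⟩ := hv.low
  obtain ⟨m'', hm'', h2'⟩ := hw.low
  refine ⟨⟨?_, ?_, fun r h0 h1 => ?_⟩, min (min m m') m'', lt_min (lt_min hm hm') hm'', ?_⟩
  · exact (wt_hf.mul (((hu.u.w0.add hv.u.w0).add hw.u.w0).sub wt_one)).mono (by simp)
  · exact (wt_hf.mul (((hu.u.w1.add hv.u.w1).add hw.u.w1).sub wt_one)).mono (by simp)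
  · obtain ⟨ν, hν, h3⟩ := hu.u.w r h0 h1
    obtain ⟨ν', hν', h4⟩ := hv.u.w r h0 h1
    obtain ⟨ν'', hν'', h5⟩ := hw.u.w r h0 h1
    refine ⟨min (min ν ν') ν'', lt_min (lt_min hν hν') hν'', ?_⟩
    rw [e]
    exact (wt_hf.mul (((h3.mono ((min_le_left _ _).trans (min_le_left _ _))).add
      (h4.mono ((min_le_left _ _).trans (min_le_right _ _)))).add
      (h5.mono (min_le_right _ _)))).mono (by simp)
  · rw [e]
    have := low_hf.mul (((h1.mono ((min_le_left (min m m') m'').trans (min_le_left m m'))).add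
      (h2.mono ((min_le_left (min m m') m'').trans (min_le_right m m')))).add
      (h2'.mono (min_le_right (min m m') m'')))
    exact this.mono (by simp)

end half

/-- the leading coefficient is a monomial -/
def Ld (X : HR F) (x0 : ℝ) (p : ℤ) (cx : F) : Prop :=
  Low X x0 ∧ X.coeff x0 = AddMonoidAlgebra.single (p, 0) cx

theorem Ld.mul {X Y : HR F} {x0 y0 : ℝ} {p r : ℤ} {cx cy : F} (hX : Ld X x0 p cx)
    (hY : Ld Y y0 r cy) : Ld (X * Y) (x0 + y0) (p + r) (cx * cy) := by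
  refine ⟨hX.1.mul hY.1, ?_⟩
  rw [hX.1.coeff_mul hY.1, hX.2, hY.2, AddMonoidAlgebra.single_mul_single]
  rfl

theorem Ld.one : Ld (1 : HR F) 0 0 1 := by
  refine ⟨low_one, ?_⟩
  rw [HahnSeries.coeff_one, if_pos rfl]
  rfl

theorem Ld.pow {X : HR F} {x0 : ℝ} {p : ℤ} {cx : F} (hX : Ld X x0 p cx) (n : ℕ) :
    Ld (X ^ n) (n * x0) (n * p) (cx ^ n) := by
  induction n with
  | zero =>
    have := Ld.one (F := F)
    simpa using this
  | succ n ih =>
    have := ih.mul hX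
    rw [pow_succ, pow_succ]
    push_cast
    rw [add_mul, add_mul, one_mul, one_mul]
    exact this

theorem Ld.tz (a : ℝ) (i : ℤ) : Ld (tz F a i 0) a i 1 := by
  refine ⟨low_tz a i 0, ?_⟩
  unfold Pool.Agent.TH603.EL.tz
  rw [HahnSeries.coeff_single_same]

theorem Ld.near {u : HR F} {m : ℝ} (hm : 0 < m) (h : Low (u - 1) m) : Ld u 0 0 1 := by
  have e : u = (u - 1) + 1 := by ring
  refine ⟨?_, ?_⟩
  · rw [e]
    exact (h.mono hm.le).add low_one
  · rw [e, HahnSeries.coeff_add, h 0 hm, zero_add]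
    exact Ld.one.2

theorem Ld.ne {X : HR F} {x0 : ℝ} {p : ℤ} {cx : F} (hX : Ld X x0 p cx) (h : cx ≠ 0) : X ≠ 0 := by
  intro h0
  have := hX.2
  rw [h0, HahnSeries.coeff_zero] at this
  apply h
  have h2 := congrArg (fun f : Pool.Agent.TH603.EL.Lau F => f.coeff (p, 0)) this
  simpa using h2.symm

theorem lead_div {X Y G ψ : HR F} {x0 y0 : ℝ} {p r : ℤ} {cx cy : F} (hX : Ld X x0 p cx)
    (hcx : cx ≠ 0) (hY : Ld Y y0 r cy) (hcy : cy ≠ 0) (h : X * G = Y * ψ) {α : ℝ} {i j : ℤ}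
    (hα : Low G α) (hc : cf G α i j ≠ 0) :
    Low ψ (α + x0 - y0) ∧ cf ψ (α + x0 - y0) (i + p - r) j ≠ 0 := by
  have hl : Low ψ (α + x0 - y0) := by
    by_contra hcon
    unfold Low at hcon
    push Not at hcon
    obtain ⟨a, ha, hψ⟩ := hcon
    have hψ0 : ψ ≠ 0 := by
      intro h0
      apply hψ
      rw [h0, HahnSeries.coeff_zero]
    have h1 : ψ.order ≤ a := HahnSeries.order_le_of_coeff_ne_zero hψ
    have h2 : Low ψ ψ.order := fun b hb => HahnSeries.coeff_eq_zero_of_lt_order hb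
    have h3 : (Y * ψ).coeff (y0 + ψ.order) = 0 := by
      rw [← h]
      exact (hX.1.mul hα) _ (by linarith)
    rw [hY.1.coeff_mul h2, hY.2] at h3
    rcases mul_eq_zero.1 h3 with h4 | h4
    · apply hcy
      have h5 := congrArg (fun f : Pool.Agent.TH603.EL.Lau F => f.coeff (r, 0)) h4
      simpa using h5
    · exact hψ0 (HahnSeries.coeff_order_eq_zero.1 h4)
  refine ⟨hl, ?_⟩
  intro h0
  have h1 : (X * G).coeff (x0 + α) = (Y * ψ).coeff (y0 + (α + x0 - y0)) := by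
    rw [h]
    congr 1
    ring
  rw [hX.1.coeff_mul hα, hY.1.coeff_mul hl, hX.2, hY.2] at h1
  have h2 := congrArg (fun f : Pool.Agent.TH603.EL.Lau F => f.coeff (i + p, j)) h1
  simp only [AddMonoidAlgebra.coeff_single_mul_apply] at h2
  have e1 : -((p, 0) : ℤ × ℤ) + (i + p, j) = (i, j) := by
    ext <;> simp
  have e2 : -((r, 0) : ℤ × ℤ) + (i + p, j) = (i + p - r, j) := by
    ext
    · simp; ring
    · simp
  rw [e1, e2] at h2
  unfold cf at hc h0
  rw [h0, mul_zero] at h2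
  rcases mul_eq_zero.1 h2 with h3 | h3
  · exact hcx h3
  · exact hc h3

end Pool.Agent.L7h91.TW
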