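import Pool.Agent.L7h91.TW.Elev

/-!
# The range of the leading exponents along a section with a pole
-/

set_option autoImplicit false

namespace Pool.Agent.L7h91.TW

open Finset Pool.Agent.TH603.EL Pool.Agent.TH3.IR Pool.Agent.TH3.IR.Pair

variable {F : Type} [Field F]

/-- the point of the curve -/
structure IsPt (ρ : ℝ) (cp bp : HK F) : Prop where
  eq : 2 * (cp ^ 3 - cp) = HahnSeries.single ρ 1 - HahnSeries.single (1 - ρ) 1
  low : Low (cp - 1) (min ρ (1 - ρ))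
  b_eq : 2 * bp = HahnSeries.single ρ 1 + HahnSeries.single (1 - ρ) 1

theorem exists_pt [CharZero F] {ρ : ℝ} (h0 : 0 < ρ) (h1 : ρ < 1) :
    ∃ cp bp : HK F, IsPt ρ cp bp := by
  obtain ⟨c, h2, h3⟩ := exists_cp (F := F) h0 h1
  refine ⟨c, HahnSeries.C (2⁻¹ : F) * (HahnSeries.single ρ 1 + HahnSeries.single (1 - ρ) 1),
    h2, h3, ?_⟩
  have e2 : (2 : HK F) = HahnSeries.C (2 : F) := by
    rw [map_ofNat]
  rw [← mul_assoc, e2, ← map_mul, mul_inv_cancel₀ two_ne_zero, map_one, one_mul]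

theorem incl_single' (ρ : ℝ) : incl (HahnSeries.single ρ (1 : F)) = tz F ρ 0 0 := by
  rw [Pair.incl_single]
  rfl

variable [CharZero F]

/-- the data -/
noncomputable def dat {τ ρ : ℝ} {c b : HR F} {cp bp : HK F} (hT : IsT τ c b)
    (hp : IsPt ρ cp bp) : Dat (HR F) where
  c := c
  b := b
  cp := incl cp
  bp := incl bp
  ξ := xi F τ
  η := et F τ
  ξp := tz F ρ 0 0
  ηp := tz F (1 - ρ) 0 0
  κ := tz F (1 - ρ - τ) (-1) 0
  w := hf F * (c + incl cp)
  q := hf F * (c ^ 2 + c * incl cp + incl cp ^ 2 - 1)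
  ec := hT.eq
  eb := hT.b_eq
  ecp := by
    have h := congrArg (incl (F := F)) hp.eq
    rw [map_mul, map_ofNat, map_sub, map_sub, map_pow, incl_single', incl_single'] at h
    exact h
  ebp := by
    have h := congrArg (incl (F := F)) hp.b_eq
    rw [map_mul, map_ofNat, map_add, incl_single', incl_single'] at h
    exact h
  e1 := by
    unfold xi
    rw [CR.tz_mul']
    norm_num
  e2 := by
    unfold et
    rw [CR.tz_mul']
    congr 1 <;> ring
  ew := by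
    rw [← mul_assoc, two_hf, one_mul]
  eq := by
    rw [← mul_assoc, two_hf, one_mul]

/-- the subring of the bounded elements -/
def BdR (F : Type) [Field F] (τ : ℝ) : Subring (HR F) where
  carrier := {x | Bd τ x}
  mul_mem' := fun h1 h2 => Bd.mul h1 h2
  one_mem' := Bd.one
  add_mem' := fun h1 h2 => Bd.add h1 h2
  zero_mem' := Bd.zero
  neg_mem' := fun h => Bd.neg h

theorem ld_two : Ld (2 : HR F) 0 0 2 := by
  have e : (2 : HR F) = incl (HahnSeries.C (2 : F)) := by rw [map_ofNat, map_ofNat]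
  rw [e]
  refine ⟨(low_single 0 (2 : F)).incl, ?_⟩
  ext ⟨i, j⟩
  have h := cf_incl (HahnSeries.C (2 : F)) 0 i j
  unfold cf at h
  rw [h, AddMonoidAlgebra.coeff_single, Finsupp.single_apply]
  by_cases hij : i = 0 ∧ j = 0
  · obtain ⟨rfl, rfl⟩ := hij
    simp
  · rw [if_neg hij, if_neg]
    intro h2
    rw [Prod.mk.injEq] at h2
    exact hij ⟨h2.1.symm, h2.2.symm⟩

section facts

theorem IsN.ld {τ : ℝ} {u : HR F} (hu : IsN τ u) : Ld u 0 0 1 := by
  obtain ⟨m, hm, h⟩ := hu.low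
  exact Ld.near hm h

theorem nc {τ : ℝ} (h0 : 0 < τ) (h1 : τ < 1) {c b : HR F} (hT : IsT τ c b) : IsN τ c :=
  IsN.of_cone h0 h1 (lt_min h0 (by linarith)) hT.cone hT.noY hT.low

theorem ncp {τ ρ : ℝ} (h0 : 0 < ρ) (h1 : ρ < 1) {cp bp : HK F} (hp : IsPt ρ cp bp) :
    IsN τ (incl cp) :=
  IsN.incl (lt_min h0 (by linarith)) hp.low

theorem nw {τ ρ : ℝ} (h0 : 0 < τ) (hτρ : τ < ρ) (hρ : ρ < 1) {c b : HR F} {cp bp : HK F}
    (hT : IsT τ c b) (hp : IsPt ρ cp bp) : IsN τ (dat hT hp).w :=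
  (nc h0 (by linarith) hT).avg (ncp (by linarith) hρ hp)

theorem nq {τ ρ : ℝ} (h0 : 0 < τ) (hτρ : τ < ρ) (hρ : ρ < 1) {c b : HR F} {cp bp : HK F}
    (hT : IsT τ c b) (hp : IsPt ρ cp bp) : IsN τ (dat hT hp).q :=
  IsN.avg3 ((nc h0 (by linarith) hT).pow 2)
    ((nc h0 (by linarith) hT).mul (ncp (by linarith) hρ hp))
    ((ncp (by linarith) hρ hp).pow 2)

theorem ldV {τ ρ : ℝ} (h0 : 0 < τ) (hτρ : τ < ρ) (hρ : ρ < 1) {c b : HR F} {cp bp : HK F}
    (hT : IsT τ c b) (hp : IsPt ρ cp bp) : Ld (dat hT hp).V τ 1 1 := by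
  have h1 : Ld (xi F τ - tz F ρ 0 0) τ 1 1 := by
    refine ⟨(low_tz τ 1 0).sub ((low_tz ρ 0 0).mono hτρ.le), ?_⟩
    rw [HahnSeries.coeff_sub, (low_tz ρ 0 0) τ hτρ, sub_zero]
    exact (Ld.tz τ 1).2
  have h2 := h1.mul (IsN.ld (nw h0 hτρ hρ hT hp))
  rw [add_zero, add_zero, mul_one] at h2
  exact h2

theorem ldU {τ ρ : ℝ} (h0 : 0 < τ) (hτρ : τ < ρ) (hρ : ρ < 1) {c b : HR F} {cp bp : HK F}
    (hT : IsT τ c b) (hp : IsPt ρ cp bp) : Ld (dat hT hp).U τ 1 1 := by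
  have h1 : Ld (xi F τ + tz F ρ 0 0) τ 1 1 := by
    refine ⟨(low_tz τ 1 0).add ((low_tz ρ 0 0).mono hτρ.le), ?_⟩
    rw [HahnSeries.coeff_add, (low_tz ρ 0 0) τ hτρ, add_zero]
    exact (Ld.tz τ 1).2
  have h2 := h1.mul (IsN.ld (nq h0 hτρ hρ hT hp))
  rw [add_zero, add_zero, mul_one] at h2
  exact h2

theorem ldΔ {τ ρ : ℝ} (h0 : 0 < τ) (hτρ : τ < ρ) (hρ : ρ < 1) {c b : HR F} {cp bp : HK F}
    (hT : IsT τ c b) (hp : IsPt ρ cp bp) : Ld (dat hT hp).Δ ρ 0 2 := by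
  have h1 := (ld_two (F := F).mul (Ld.tz ρ 0)).mul
    ((IsN.ld (nw h0 hτρ hρ hT hp)).mul (IsN.ld (nq h0 hτρ hρ hT hp)))
  simp only [add_zero, zero_add, mul_one] at h1
  exact h1

theorem bd_c {τ : ℝ} {c b : HR F} (hT : IsT τ c b) : Bd τ c := by
  obtain ⟨w0, w1⟩ := wt_of_cone hT.cone hT.noY
  exact Bd.of_wt w0 w1

theorem bd_b {τ : ℝ} {c b : HR F} (hT : IsT τ c b) : Bd τ b := by
  have e : b = hf F * (xi F τ + et F τ) := by
    rw [← hT.b_eq, ← mul_assoc, mul_comm (hf F) 2, two_hf, one_mul]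
  rw [e]
  refine Bd.mul (Bd.of_low (low_single 0 (2⁻¹ : F))) (Bd.add Bd.tz ?_)
  exact Bd.tz

end facts

/-- the E-level lemma -/
theorem elevel {τ ρ : ℝ} (h0 : 0 < τ) (hτρ : τ < ρ) (hρ : ρ < 1) {c b : HR F} {cp bp : HK F}
    (hT : IsT τ c b) (hp : IsPt ρ cp bp) {L R μ ν : ℝ} (hμ : 0 ≤ μ) (hν : 1 / 2 ≤ ν) (D : ℕ)
    (φ : ℕ → HR F) (hφ : ∀ n : ℕ, φ n ∈ Cls c b (L + μ * n) (R - ν * n)) (hD : φ D ≠ 0) {g : HR F}
    (hg : g * (dat hT hp).V = (dat hT hp).U) (k : ℕ) (hk : k ≤ D)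
    (hz : ∀ j < k, Fs D φ g j = 0) :
    (k : ℝ) ≤ 2 * (R - L - (μ + ν) * D) ∧
    ∀ (α : ℝ) (i j : ℤ), Low (Fs D φ g k) α → cf (Fs D φ g k) α i j ≠ 0 → j = 0 ∧
      (i : ℝ) ≤ 2 * (1 - τ) * (R - L - (μ + ν) * k) + (ρ - τ) * ((D : ℝ) - 2 * k) ∧
      -(i : ℝ) ≤ 2 * τ * (R - L - (μ + ν) * k) + (1 - ρ + τ) * ((D : ℝ) - 2 * k) := by
  classical
  set S := dat hT hp with hS
  have lV := ldV h0 hτρ hρ hT hp
  have lU := ldU h0 hτρ hρ hT hp
  have lΔ := ldΔ h0 hτρ hρ hT hp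
  rw [← hS] at lV lU lΔ
  have nw' := nw h0 hτρ hρ hT hp
  have nq' := nq h0 hτρ hρ hT hp
  rw [← hS] at nw' nq'
  have bc := bd_c hT
  have bb := bd_b hT
  have hρ0 : 0 < ρ := by linarith
  have hτ1 : 0 < 1 - τ := by linarith
  have h2 : (2 : F) ≠ 0 := two_ne_zero
  have h2i : (2⁻¹ : F) ≠ 0 := inv_ne_zero h2
  obtain ⟨ψ, hψT, χ, hχT, a1, a2, a3⟩ := alg_main S (BdR F τ) D φ (fun n => Cls.bd bc bb (hφ n))
    (show Bd τ _ from Bd.tz) (show Bd τ _ from Bd.tz) (show Bd τ _ from nw'.u.bd)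
    (show Bd τ _ from nq'.u.bd) two_ne (lV.ne one_ne_zero) (lU.ne one_ne_zero) (lΔ.ne h2) hg k hk hz
  have hkD : (k : ℝ) ≤ D := by exact_mod_cast hk
  have hDk : ((D - k : ℕ) : ℝ) = D - k := by rw [Nat.cast_sub hk]
  have hDk0 : (0 : ℝ) ≤ D - k := by linarith
  -- normalization
  have norm : ∀ (n : ℕ) (A B : Polynomial (HK F)) (L' R' : ℝ),
      (∀ n ∈ A.support, L' ≤ n ∧ (n : ℝ) ≤ R') →
      (∀ n ∈ B.support, L' ≤ n ∧ (n : ℝ) ≤ R' - 3 / 2) → pv c b A B ≠ 0 →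
      ∃ (β : ℝ) (e1 e2 : ℕ), ((e1 : ℝ) + e2) ≤ 2 * (R' - L') ∧
      Wt (-τ) β (pv c b A B) ∧ Wt (1 - τ) β (pv c b A B) ∧
      cf (pv c b A B) (β + e1 * τ) e1 0 ≠ 0 ∧
      cf (pv c b A B) (β + e2 * (1 - τ)) (-e2) 0 ≠ 0 := by
    intro _ A B L' R' hA hB hne
    have hne' : A ≠ 0 ∨ B ≠ 0 := by
      by_contra hcon
      push Not at hcon
      apply hne
      rw [hcon.1, hcon.2]
      unfold pv
      simp
    obtain ⟨β, e1, e2, he, r1, r2, r3, r4⟩ := pair_norm h0 (by linarith) hT hne' hA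
      (fun n hn => by
        have := hB n hn
        exact ⟨by linarith, this.2⟩)
    push_cast at he
    exact ⟨β, e1, e2, he, r1, r2, r3, r4⟩
  have htwo : (2 : HR F) ^ D * hf F ^ D = 1 := by rw [← mul_pow, two_hf, one_pow]
  have htz : ∀ m : ℕ, (tz F ρ 0 0) ^ m * tz F (-(m * ρ)) 0 0 = 1 := by
    intro m
    have e1 := tz_pow0 (F := F) ρ 0 m
    rw [e1, CR.tz_mul', ← tz_one]
    congr 1 <;> simp
  have bhf : Bd τ (hf F ^ D) := Bd.pow (Bd.of_low (low_single 0 (2⁻¹ : F))) D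
  constructor
  · -- the bound for `k`
    obtain ⟨A, B, hA, hB, hv⟩ := hφ D
    obtain ⟨β, e1, e2, he, r1, r2, r3, r4⟩ := norm 0 A B _ _ hA hB (by rw [← hv]; exact hD)
    rw [← hv] at r1 r2 r3 r4
    obtain ⟨ψ', hψ'⟩ : ∃ ψ', ψ' = hf F ^ D * tz F (-(D * ρ)) 0 0 * χ := ⟨_, rfl⟩
    have hb' : Bd τ ψ' := by
      rw [hψ']
      exact (bhf.mul Bd.tz).mul hχT
    have hu : IsU τ (S.q ^ D * S.w ^ (D - k)) := (nq'.u.pow D).mul (nw'.u.pow (D - k))
    have heq : S.q ^ D * S.w ^ (D - k) * φ D = (1 + tz F (1 - ρ - τ) (-1) 0) ^ 0 *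
        ((xi F τ - tz F ρ 0 0) ^ k * ψ') := by
      rw [pow_zero, one_mul, hψ']
      have a3' : (2 : HR F) ^ D * ((tz F ρ 0 0) ^ D * (S.q ^ D * S.w ^ (D - k) * φ D)) =
          (xi F τ - tz F ρ 0 0) ^ k * χ := by
        have : (2 * (S.ξp * S.q)) ^ D = 2 ^ D * ((tz F ρ 0 0) ^ D * S.q ^ D) := by
          rw [mul_pow, mul_pow]
          rfl
        have h9 : S.ξ - S.ξp = xi F τ - tz F ρ 0 0 := rfl
        rw [this, h9] at a3
        rw [← a3]
        ring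
      linear_combination (hf F ^ D * tz F (-(D * ρ)) 0 0) * a3' -
        (S.q ^ D * S.w ^ (D - k) * φ D) * (htz D) -
        (tz F ρ 0 0 ^ D * tz F (-(D * ρ)) 0 0 * S.q ^ D * S.w ^ (D - k) * φ D) * htwo
    have hkey := key_range h0 hτρ hρ (k := k) (m := 0) r1 r2 r3 r4 hu heq hb'
    have hψ0 : ψ' ≠ 0 := by
      intro h
      rw [h, mul_zero, mul_zero] at heq
      rcases mul_eq_zero.1 heq with h3 | h3
      · rcases mul_eq_zero.1 h3 with h4 | h4
        · exact pow_ne_zero D ((IsN.ld nq').ne one_ne_zero) h4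
        · exact pow_ne_zero _ ((IsN.ld nw').ne one_ne_zero) h4
      · exact hD h3
    have hlo : Low ψ' ψ'.order := fun a ha => HahnSeries.coeff_eq_zero_of_lt_order ha
    have hc0 : ψ'.coeff ψ'.order ≠ 0 := fun h => hψ0 (HahnSeries.coeff_order_eq_zero.1 h)
    obtain ⟨⟨i, j⟩, hij⟩ : ∃ ij : ℤ × ℤ, (ψ'.coeff ψ'.order).coeff ij ≠ 0 := by
      by_contra hcon
      push Not at hcon
      apply hc0
      ext ij
      exact hcon ij
    obtain ⟨_, b1, b2⟩ := hkey _ i j hlo hij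
    push_cast at b1 b2
    nlinarith
  · intro α i j hα hij
    obtain ⟨l1, l2⟩ := lead_div ((lV.pow (D - k)).mul (lΔ.pow k))
      (mul_ne_zero (pow_ne_zero _ one_ne_zero) (pow_ne_zero _ h2)) (lU.pow k)
      (pow_ne_zero _ one_ne_zero) a2 hα hij
    have lhf : Ld (hf F) 0 0 (2⁻¹ : F) := by
      refine ⟨low_hf, ?_⟩
      unfold hf
      ext ⟨i, j⟩
      have h := cf_incl (HahnSeries.C (2⁻¹ : F)) 0 i j
      unfold cf at h
      rw [h, AddMonoidAlgebra.coeff_single, Finsupp.single_apply]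
      by_cases hij : i = 0 ∧ j = 0
      · obtain ⟨rfl, rfl⟩ := hij
        simp
      · rw [if_neg hij, if_neg]
        intro h2
        rw [Prod.mk.injEq] at h2
        exact hij ⟨h2.1.symm, h2.2.symm⟩
    obtain ⟨ψ', hψ'⟩ : ∃ ψ', ψ' = hf F ^ D * tz F (-(k * ρ)) 0 0 * ψ := ⟨_, rfl⟩
    obtain ⟨m1, m2⟩ := lead_div ((lhf.pow D).mul (Ld.tz (-(k * ρ)) 0))
      (mul_ne_zero (pow_ne_zero _ h2i) one_ne_zero) Ld.one one_ne_zero
      (show hf F ^ D * tz F (-(k * ρ)) 0 0 * ψ = 1 * ψ' by rw [one_mul, hψ']) l1 l2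
    -- the class of `G`
    have hGc : S.G D φ k ∈ Cls c b (L + μ * k) (R - ν * k + (D - k)) := by
      unfold Dat.G
      apply Cls.sum
      intro n hn
      rw [mem_range] at hn
      by_cases hkn : k ≤ n
      · apply Cls.nat
        have hPn : ∀ (m : ℕ) (L' R' : ℝ) (v : HR F), v ∈ Cls c b L' R' →
            S.P ^ m * v ∈ Cls c b L' (R' + m) := by
          intro m
          induction m with
          | zero => intro L' R' v hv; simpa using hv
          | succ m ih =>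
            intro L' R' v hv
            have h5 := ih _ _ _ (Cls.mulX hv (cp ^ 2))
            rw [map_pow] at h5
            rw [pow_succ, mul_assoc]
            refine Cls.mono h5 le_rfl ?_
            push_cast
            linarith
        have hNn : ∀ (m : ℕ) (L' R' : ℝ) (v : HR F), v ∈ Cls c b L' R' →
            S.N ^ m * v ∈ Cls c b L' (R' + 3 / 2 * m) := by
          intro m
          induction m with
          | zero => intro L' R' v hv; simpa using hv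
          | succ m ih =>
            intro L' R' v hv
            have h5 := ih _ _ _ (Cls.mulY hT hv bp)
            rw [pow_succ, mul_assoc]
            refine Cls.mono h5 le_rfl ?_
            push_cast
            linarith
        have h5 := hNn (n - k) _ _ _ (hPn (D - n) _ _ _ (hφ n))
        rw [Nat.cast_sub hkn, Nat.cast_sub (by omega : n ≤ D)] at h5
        have hkn' : (k : ℝ) ≤ n := by exact_mod_cast hkn
        refine Cls.mono h5 ?_ ?_
        · nlinarith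
        · nlinarith
      · rw [Nat.choose_eq_zero_of_lt (by omega), Nat.cast_zero, zero_mul]
        exact Cls.zero
    obtain ⟨A, B, hA, hB, hv⟩ := hGc
    have hψ0 : ψ ≠ 0 := by
      intro h
      rw [h] at l2
      exact l2 (by simp [cf])
    have hG0 : S.G D φ k ≠ 0 := by
      intro h
      rw [h, mul_zero] at a1
      rcases mul_eq_zero.1 a1.symm with h3 | h3
      · by_cases hDk' : D - k = 0
        · rw [hDk', pow_zero] at h3
          exact one_ne_zero h3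
        · have h5 : S.h = 0 := by
            exact pow_eq_zero_iff hDk' |>.1 h3
          have h8 : S.h = 1 + tz F (1 - ρ - τ) (-1) 0 := rfl
          rw [h8] at h5
          have h9 := congrArg (fun x : HR F => cf x 0 0 0) h5
          simp only [CR.cf_add'] at h9
          rw [← tz_one, CR.cf_tz', CR.cf_tz', if_pos ⟨rfl, rfl, rfl⟩, if_neg (by
            rintro ⟨_, h, _⟩
            omega), add_zero] at h9
          simp [cf] at h9
      · rcases mul_eq_zero.1 h3 with h4 | h4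
        · apply (lV.ne one_ne_zero)
          unfold Dat.V
          by_cases hk0 : k = 0
          · rw [hk0, pow_zero] at h4
            exact absurd h4 one_ne_zero
          · rw [pow_eq_zero_iff hk0 |>.1 h4, zero_mul]
        · exact hψ0 h4
    obtain ⟨β, e1, e2, he, r1, r2, r3, r4⟩ := norm 0 A B _ _ hA hB (by rw [← hv]; exact hG0)
    rw [← hv] at r1 r2 r3 r4
    have hb' : Bd τ ψ' := by
      rw [hψ']
      exact (bhf.mul Bd.tz).mul hψT
    have heq : S.q ^ D * S.G D φ k = (1 + tz F (1 - ρ - τ) (-1) 0) ^ (D - k) *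
        ((xi F τ - tz F ρ 0 0) ^ k * ψ') := by
      rw [hψ']
      have a1' : (2 : HR F) ^ D * ((tz F ρ 0 0) ^ k * (S.q ^ D * S.G D φ k)) =
          (1 + tz F (1 - ρ - τ) (-1) 0) ^ (D - k) * ((xi F τ - tz F ρ 0 0) ^ k * ψ) := by
        have : (2 * S.q) ^ D * S.ξp ^ k = 2 ^ D * ((tz F ρ 0 0) ^ k * S.q ^ D) := by
          rw [mul_pow]
          show 2 ^ D * S.q ^ D * (tz F ρ 0 0) ^ k = _
          ring
        rw [this] at a1
        have h8 : S.h = 1 + tz F (1 - ρ - τ) (-1) 0 := rfl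
        have h9 : S.ξ - S.ξp = xi F τ - tz F ρ 0 0 := rfl
        rw [← h8, ← h9, ← a1]
        ring
      linear_combination (hf F ^ D * tz F (-(k * ρ)) 0 0) * a1' -
        (S.q ^ D * S.G D φ k) * (htz k) -
        (tz F ρ 0 0 ^ k * tz F (-(k * ρ)) 0 0 * S.q ^ D * S.G D φ k) * htwo
    have hkey := key_range h0 hτρ hρ (k := k) (m := D - k) r1 r2 r3 r4 (nq'.u.pow D) heq hb'
    obtain ⟨b0, b1, b2⟩ := hkey _ _ _ m1 m2
    rw [hDk] at b1 b2
    push_cast at b1 b2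
    rw [hDk] at b1 b2
    obtain ⟨W, hW⟩ : ∃ W, W = R - L - (μ + ν) * k := ⟨_, rfl⟩
    have hE : (e1 : ℝ) + e2 ≤ 2 * W + 2 * (D - k) := by
      rw [hW]
      linarith
    rw [← hW]
    refine ⟨b0, ?_, ?_⟩
    · have := mul_le_mul_of_nonneg_right hE hτ1.le
      linarith
    · have := mul_le_mul_of_nonneg_right hE h0.le
      linarith

end Pool.Agent.L7h91.TW
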