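import Pool.Agent.L7h91.TW.Nest
import Pool.Agent.TH3.IR.SNodal
import Pool.Agent.TH3.IR.Div

/-!
# The substitution and its expansion
-/

set_option autoImplicit false

namespace Pool.Agent.L7h91.TW

open Finset Pool.Agent.TH603.EL Pool.Agent.TH3.IR Pool.Agent.TH3.IR.Comap

section NY

variable {F : Type} [Field F]

/-- the homomorphism of the exponents -/
def gk : (ℤ × ℤ) →+ (ℤ × ℤ) where
  toFun m := (m.1, 0)
  map_zero' := rfl
  map_add' a b := by ext <;> simp

/-- the projection, `Y ↦ 1` -/
noncomputable def prY (F : Type) [Field F] : HR F →+* HR F :=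
  hmap (AddMonoidAlgebra.mapDomainRingHom F gk :
    Pool.Agent.TH603.EL.Lau F →+* Pool.Agent.TH603.EL.Lau F)

theorem prY_sum (u : HR F) (a : ℝ) : (prY F u).coeff a = ∑ m ∈ (u.coeff a).coeff.support,
    AddMonoidAlgebra.single (gk m) ((u.coeff a).coeff m) := by
  show (AddMonoidAlgebra.mapDomainRingHom F gk) (u.coeff a) = _
  conv_lhs => rw [← AddMonoidAlgebra.sum_coeff_single (u.coeff a)]
  unfold Finsupp.sum
  rw [map_sum]
  refine Finset.sum_congr rfl fun m _ => ?_
  simp

theorem coeff_lsum {ι : Type*} (s : Finset ι) (f : ι → Pool.Agent.TH603.EL.Lau F) (m : ℤ × ℤ) :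
    (∑ i ∈ s, f i).coeff m = ∑ i ∈ s, (f i).coeff m := by
  classical
  induction s using Finset.induction_on with
  | empty => simp
  | insert a s ha ih =>
    rw [Finset.sum_insert ha, Finset.sum_insert ha, ← ih]
    rfl

theorem NY_prY (u : HR F) : NY (prY F u) := by
  classical
  intro a i j h
  by_contra hj
  apply h
  unfold cf
  rw [prY_sum, coeff_lsum]
  apply Finset.sum_eq_zero
  intro m _
  rw [AddMonoidAlgebra.coeff_single, Finsupp.single_apply, if_neg]
  intro h2
  exact hj (congrArg Prod.snd h2).symm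

theorem prY_of_NY {u : HR F} (hu : NY u) : prY F u = u := by
  classical
  apply cf_ext
  intro a i j
  by_cases hj : j = 0
  · subst hj
    unfold cf
    rw [prY_sum, coeff_lsum]
    by_cases h : (i, (0 : ℤ)) ∈ (u.coeff a).coeff.support
    · rw [Finset.sum_eq_single (i, (0 : ℤ))]
      · rw [AddMonoidAlgebra.coeff_single, Finsupp.single_apply]
        exact if_pos rfl
      · rintro ⟨i', j'⟩ hm hne
        rw [AddMonoidAlgebra.coeff_single, Finsupp.single_apply, if_neg]
        intro h2
        apply hne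
        have h3 : j' = 0 := hu a i' j' (Finsupp.mem_support_iff.1 hm)
        have h4 : i' = i := congrArg Prod.fst h2
        rw [h3, h4]
      · intro h2
        exact absurd h h2
    · rw [Finsupp.notMem_support_iff.1 h]
      apply Finset.sum_eq_zero
      rintro ⟨i', j'⟩ hm
      rw [AddMonoidAlgebra.coeff_single, Finsupp.single_apply, if_neg]
      intro h2
      apply h
      have h3 : j' = 0 := hu a i' j' (Finsupp.mem_support_iff.1 hm)
      have h4 : i' = i := congrArg Prod.fst h2
      rw [← h3, ← h4]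
      exact hm
  · have h1 : cf u a i j = 0 := by
      by_contra h
      exact hj (hu a i j h)
    have h2 : cf (prY F u) a i j = 0 := by
      by_contra h
      exact hj (NY_prY u a i j h)
    rw [h1, h2]

theorem NY_iff {u : HR F} : NY u ↔ prY F u = u := by
  refine ⟨prY_of_NY, fun h => ?_⟩
  rw [← h]
  exact NY_prY u

theorem NY.mul {u v : HR F} (hu : NY u) (hv : NY v) : NY (u * v) := by
  rw [NY_iff, map_mul, prY_of_NY hu, prY_of_NY hv]

theorem NY.add {u v : HR F} (hu : NY u) (hv : NY v) : NY (u + v) := by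
  rw [NY_iff, map_add, prY_of_NY hu, prY_of_NY hv]

theorem NY.sub {u v : HR F} (hu : NY u) (hv : NY v) : NY (u - v) := by
  rw [NY_iff, map_sub, prY_of_NY hu, prY_of_NY hv]

theorem NY.one : NY (1 : HR F) := by
  rw [NY_iff, map_one]

theorem NY.natCast (n : ℕ) : NY (n : HR F) := by
  rw [NY_iff, map_natCast]

theorem NY.zero : NY (0 : HR F) := by
  rw [NY_iff, map_zero]

theorem NY.pow {u : HR F} (hu : NY u) (n : ℕ) : NY (u ^ n) := by
  rw [NY_iff, map_pow, prY_of_NY hu]

theorem NY.sum {ι : Type*} {s : Finset ι} {f : ι → HR F} (h : ∀ i ∈ s, NY (f i)) :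
    NY (∑ i ∈ s, f i) := by
  rw [NY_iff, map_sum]
  exact Finset.sum_congr rfl fun i hi => prY_of_NY (h i hi)

theorem NY.incl (c : HK F) : NY (incl c) := by
  intro a i j h
  rw [cf_incl] at h
  by_contra hj
  exact h (if_neg fun h2 => hj h2.2)

theorem NY.tz (a : ℝ) (i : ℤ) : NY (tz F a i 0) := by
  classical
  intro a' i' j' h
  rw [CR.cf_tz'] at h
  by_contra hj
  exact h (if_neg fun h2 => hj h2.2.2)

theorem NY.poly {u : HR F} (hu : NY u) (P : Polynomial (HK F)) : NY (P.eval₂ Pool.Agent.TH603.EL.incl u) := by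
  rw [Polynomial.eval₂_eq_sum, Polynomial.sum_def]
  exact NY.sum fun n _ => (NY.incl _).mul (hu.pow n)

end NY

/-- two homomorphisms congruent at the generators are congruent -/
theorem cong_hom {K R : Type*} [CommRing K] [CommRing R] (f g : Polynomial (Polynomial K) →+* R)
    (d : R) (h0 : ∀ κ, d ∣ f (Polynomial.C (Polynomial.C κ)) - g (Polynomial.C (Polynomial.C κ)))
    (h1 : d ∣ f (Polynomial.C Polynomial.X) - g (Polynomial.C Polynomial.X))
    (h2 : d ∣ f Polynomial.X - g Polynomial.X) (P : Polynomial (Polynomial K)) :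
    d ∣ f P - g P := by
  have h3 : ∀ a b : R, d ∣ a - b ↔ Ideal.Quotient.mk (Ideal.span {d}) a =
      Ideal.Quotient.mk (Ideal.span {d}) b := by
    intro a b
    rw [Ideal.Quotient.eq, Ideal.mem_span_singleton]
  have h4 : (Ideal.Quotient.mk (Ideal.span {d})).comp f =
      (Ideal.Quotient.mk (Ideal.span {d})).comp g := by
    apply Polynomial.ringHom_ext'
    · apply Polynomial.ringHom_ext
      · intro κ
        exact (h3 _ _).1 (h0 κ)
      · exact (h3 _ _).1 h1
    · exact (h3 _ _).1 h2
  rw [h3]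
  exact RingHom.congr_fun h4 P

end Pool.Agent.L7h91.TW
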