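import Pool.Agent.L7h91.TW.Simp
import Pool.Agent.L7h91.IR.Window4

/-!
# Emptiness, exactly up to the bound, for `k ≥ 2 ^ r + r + 1` general points of `ℙ ^ r`
-/

set_option autoImplicit false

namespace Pool.Agent.L7h91.TW

open MvPolynomial Pool.Agent.TH3.IR Pool.Agent.L7h91.IR

/-- `pow_sub_le` with a better constant -/
theorem pow_sub_le' (s : ℕ) {x : ℝ} (hx2 : 2 ≤ x) (hx3 : x ≤ 5 / 2) :
    x ^ (s + 6) - 2 ^ (s + 6) ≤ 4 * (x ^ (s + 3) * (x - 2)) * (s + 6) := by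
  have hx0 : 0 < x := by linarith
  induction s with
  | zero =>
    have h1 : 0 ≤ x - 2 := by linarith
    have h2 : 0 ≤ (5 / 2 - x) := by linarith
    have h3 : x ^ 5 + 2 * x ^ 4 + 4 * x ^ 3 + 8 * x ^ 2 + 16 * x + 32 ≤ 24 * x ^ 3 := by
      nlinarith [mul_nonneg h1 h2, mul_nonneg (mul_nonneg h1 h2) h1,
        mul_nonneg (mul_nonneg h1 h2) h2, mul_nonneg (mul_nonneg (mul_nonneg h1 h2) h1) h1,
        mul_nonneg (mul_nonneg (mul_nonneg h1 h2) h2) h1]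
    have h4 := mul_le_mul_of_nonneg_left h3 h1
    push_cast
    nlinarith
  | succ s ih =>
    have h1 : (2 : ℝ) ^ s ≤ x ^ s := pow_le_pow_left₀ (by norm_num) hx2 s
    have hy : 0 < x ^ s := by positivity
    have e1 : x ^ (s + 1 + 6) - 2 ^ (s + 1 + 6) =
        x * (x ^ (s + 6) - 2 ^ (s + 6)) + 64 * 2 ^ s * (x - 2) := by ring
    have h2 := mul_le_mul_of_nonneg_left ih hx0.le
    have h3 : 64 * 2 ^ s * (x - 2) ≤ 4 * x ^ (s + 4) * (x - 2) := by
      apply mul_le_mul_of_nonneg_right _ (by linarith)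
      have h4 : (16 : ℝ) ≤ x ^ 4 := by
        have := pow_le_pow_left₀ (by norm_num : (0 : ℝ) ≤ 2) hx2 4
        norm_num at this
        exact this
      have h5 : x ^ (s + 4) = x ^ s * x ^ 4 := pow_add x s 4
      rw [h5]
      nlinarith
    rw [e1]
    push_cast
    have e2 : 4 * (x ^ (s + 1 + 3) * (x - 2)) * ((s : ℝ) + 1 + 6) =
        x * (4 * (x ^ (s + 3) * (x - 2)) * ((s : ℝ) + 6)) +
          4 * x ^ (s + 4) * (x - 2) := by ring
    rw [e2]
    linarith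

/-- the numbers of points which are allowed -/
def Large (r k : ℕ) : Prop := 2 ^ r + r + 1 ≤ k ∨ (6 ≤ r ∧ 2 ^ r + r ≤ k)

theorem cond_exact {s k : ℕ} {x : ℝ} (hx2 : 2 ≤ x) (hx : x ^ (s + 3) = k)
    (hk : Large (s + 3) k) : 1 ≤ 4 * (x ^ s * (x - 2)) := by
  by_contra hcon
  push Not at hcon
  have hxs1 : 1 ≤ x ^ s := one_le_pow₀ (by linarith)
  have hx52 : x < 9 / 4 := by nlinarith
  have h3 : 0 ≤ x ^ s * (x - 2) := mul_nonneg (by linarith) (by linarith)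
  rcases hk with hk | ⟨h6, hk⟩
  · have h1 := pow_sub_le s hx2
    have h2 : x / 2 + (x / 2) ^ 2 < 3 := by nlinarith
    have h4 : (2 : ℝ) ^ (s + 3) + (s + 3) + 1 ≤ k := by exact_mod_cast hk
    have h5 : 4 * (x ^ s * (x - 2)) * (s + 1 + x / 2 + (x / 2) ^ 2) ≤
        1 * (s + 1 + x / 2 + (x / 2) ^ 2) :=
      mul_le_mul_of_nonneg_right hcon.le (by positivity)
    rw [hx] at h1
    linarith
  · obtain ⟨s', rfl⟩ : ∃ s', s = s' + 3 := ⟨s - 3, by omega⟩
    have h1 := pow_sub_le' s' hx2 (by linarith)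
    have h4 : (2 : ℝ) ^ (s' + 3 + 3) + (s' + 3 + 3) ≤ k := by exact_mod_cast hk
    have h5 : 4 * (x ^ (s' + 3) * (x - 2)) * (s' + 6) < 1 * (s' + 6) :=
      mul_lt_mul_of_pos_right hcon (by positivity)
    have h6 : x ^ (s' + 6) = k := hx
    rw [h6] at h1
    have h7 : (2 : ℝ) ^ (s' + 6) = 2 ^ (s' + 3 + 3) := rfl
    rw [h7] at h1
    linarith

theorem Large.le {r k : ℕ} (h : Large r k) : 2 ^ r ≤ k := by
  rcases h with h | ⟨_, h⟩ <;> omega

/-- emptiness in one degree -/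
theorem emptyX {E k : ℕ} (hE : 2 ≤ E) (hk : Large (E + 1) k) (w : Fin k → ℕ) (d : ℕ)
    (hd : kap (E + 1) k * d < ∑ i, (w i : ℝ)) :
    ∃ F : MvPolynomial (Fin k × Fin (E + 1)) ℂ, F ≠ 0 ∧ ∀ P : Fin k → Fin (E + 1) → ℂ,
      MvPolynomial.eval (fun q : Fin k × Fin (E + 1) => P q.1 q.2) F ≠ 0 → NoForms w P d := by
  obtain ⟨s, rfl⟩ : ∃ s, E = s + 1 + 1 := ⟨E - 2, by omega⟩
  obtain ⟨x, hx2, hx1, hxk, hxκ⟩ := root (p := s + 1) hk.le
  have hx0 : 0 < x := by linarith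
  have hκ : kap (s + 3) k = x ^ (s + 2) := hxκ.symm
  have h1 : kap (s + 1 + 1 + 1) k = x ^ (s + 2) := hκ
  rw [h1] at hd
  have hc := cond_exact (s := s) hx2 hxk hk
  have hxs : 0 < x ^ s := by positivity
  apply forms_of_empS
  refine EmpS_simplexX (ι := Fin k) (σ := Fin (s + 1 + 1)) (β := x) ?_ hx2 ?_ ?_ d ?_
  · rw [Fintype.card_fin]
    omega
  · rw [Fintype.card_fin, Nat.add_sub_cancel_right (n := s) (m := 2)]
    have e1 : 2 * (1 + 1 / (8 * x ^ s)) = 2 + 1 / (4 * x ^ s) := by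
      field_simp
      ring
    rw [e1]
    have e2 : 1 / (4 * x ^ s) ≤ x - 2 := by
      rw [div_le_iff₀ (by positivity)]
      linarith
    linarith
  · rw [Fintype.card_fin, Fintype.card_fin]
    exact hxk
  · rw [Fintype.card_fin]
    exact hd

end Pool.Agent.L7h91.TW
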