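import Pool.Agent.L7h91.TW.Fin1

/-!
# One open set for all degrees
-/

set_option autoImplicit false

namespace Pool.Agent.L7h91.TW

open MvPolynomial Pool.Agent.TH3.IR Pool.Agent.L7h91.IR
open scoped LinearAlgebra.Projectivization
open Pool.Agent.H350R3.MG

theorem kap_ge {E k : ℕ} (hE : 2 ≤ E) (hk : 2 ^ (E + 1) ≤ k) : 1 ≤ kap (E + 1) k := by
  obtain ⟨s, rfl⟩ : ∃ s, E = s + 1 + 1 := ⟨E - 2, by omega⟩
  obtain ⟨x, hx2, hx1, hxk, hxκ⟩ := root (p := s + 1) hk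
  have h1 : kap (s + 1 + 1 + 1) k = x ^ (s + 2) := hxκ.symm
  rw [h1]
  exact one_le_pow₀ (by linarith)

/-- emptiness for one open set of points -/
theorem windowE {E k : ℕ} (hE : 2 ≤ E) (hk : Large (E + 1) k) (w : Fin k → ℕ) :
    ∃ F : MvPolynomial (Fin k × Fin (E + 1)) ℂ, F ≠ 0 ∧ ∀ P : Fin k → Fin (E + 1) → ℂ,
      MvPolynomial.eval (fun q : Fin k × Fin (E + 1) => P q.1 q.2) F ≠ 0 → ∀ d : ℕ,
        kap (E + 1) k * d < ∑ i, (w i : ℝ) → NoForms w P d := by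
  classical
  have hA : ∀ d : ℕ, ∃ F : MvPolynomial (Fin k × Fin (E + 1)) ℂ, F ≠ 0 ∧
      ∀ P : Fin k → Fin (E + 1) → ℂ,
      MvPolynomial.eval (fun q : Fin k × Fin (E + 1) => P q.1 q.2) F ≠ 0 →
      kap (E + 1) k * d < ∑ i, (w i : ℝ) → NoForms w P d := by
    intro d
    by_cases hd : kap (E + 1) k * d < ∑ i, (w i : ℝ)
    · obtain ⟨F, hF, h⟩ := emptyX hE hk w d hd
      exact ⟨F, hF, fun P hP _ => h P hP⟩
    · exact ⟨1, one_ne_zero, fun P _ h => absurd h hd⟩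
  choose FA hFA hA' using hA
  refine ⟨∏ d ∈ Finset.range (∑ i, w i + 1), FA d,
    Finset.prod_ne_zero_iff.2 fun d _ => hFA d, fun P hP d hd => ?_⟩
  rw [map_prod] at hP
  have h1 := Finset.prod_ne_zero_iff.1 hP
  refine hA' d P (h1 d ?_) hd
  rw [Finset.mem_range, Nat.lt_succ_iff]
  have h2 : (1 : ℝ) * d ≤ kap (E + 1) k * d :=
    mul_le_mul_of_nonneg_right (kap_ge hE hk.le) (Nat.cast_nonneg _)
  have h3 : ((∑ i, w i : ℕ) : ℝ) = ∑ i, (w i : ℝ) := by push_cast; rfl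
  have h4 : (d : ℝ) < ((∑ i, w i : ℕ) : ℝ) := by
    rw [h3]
    linarith
  have h5 : d < ∑ i, w i := by exact_mod_cast h4
  exact h5.le

theorem boundX {N r : ℕ} (hN : 3 ≤ N) (hr : Large N r) : Bound N r (kap N r) := by
  obtain ⟨E, rfl⟩ : ∃ E, N = E + 1 := ⟨N - 1, by omega⟩
  refine bound_of fun d w h => ?_
  exact emptyX (by omega) hr w d (by rw [mul_comm]; exact h)

/-- the degrees of the emptiness -/
def EDeg5 (r k : ℕ) (w : Fin k → ℕ) (d : ℕ) : Prop :=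
  (Large r k ∧ kap r k * d < ∑ i, (w i : ℝ)) ∨
    (kap r k + 1 / (r : ℝ)) * d < ∑ i, (w i : ℝ) ∨
    ∃ M, (Upper r k M ∨ Upper3 r k M) ∧ M * d < 2 * ∑ i, (w i : ℝ)

theorem main5 {r k : ℕ} (hr : 3 ≤ r) (hk : 2 ^ r ≤ k) (w : Fin k → ℕ) :
    Generally (fun P : Fin k → ℙ ℂ (Fin (r + 1) → ℂ) => ∀ d : ℕ,
      (EDeg5 r k w d →
        pforms d w P = ⊥ ∧ (d + r).choose r ≤ ∑ i, (w i + r - 1).choose r) ∧
      (IDeg r k w d →
        ∑ i, (w i + r - 1).choose r + Module.finrank ℂ ↥(pforms d w P) = (d + r).choose r)) := by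
  obtain ⟨s, rfl⟩ : ∃ s, r = s + 3 := ⟨r - 3, by omega⟩
  obtain ⟨F1, hF1, a⟩ := window4 hk w
  obtain ⟨F2, hF2, b⟩ : ∃ F : MvPolynomial (Fin k × Fin (s + 2 + 1)) ℂ, F ≠ 0 ∧
      ∀ P : Fin k → Fin (s + 2 + 1) → ℂ,
      MvPolynomial.eval (fun q : Fin k × Fin (s + 2 + 1) => P q.1 q.2) F ≠ 0 → ∀ d : ℕ,
        Large (s + 3) k ∧ kap (s + 3) k * d < ∑ i, (w i : ℝ) → NoForms w P d := by
    by_cases hL : Large (s + 3) k
    · obtain ⟨F, hF, h⟩ := windowE (E := s + 2) (by omega) hL w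
      exact ⟨F, hF, fun P hP d hd => h P hP d hd.2⟩
    · exact ⟨1, one_ne_zero, fun P _ d hd => absurd hd.1 hL⟩
  refine generally_of_affine (F1 * F2) (mul_ne_zero hF1 hF2) fun P hv hP d => ?_
  rw [map_mul] at hP
  obtain ⟨h1, h2⟩ := a P (left_ne_zero_of_mul hP) d
  have h3 := b P (right_ne_zero_of_mul hP) d
  rw [pforms_cons (E := s + 2)]
  have e1 : ∀ i, w i + (s + 3) - 1 = w i + (s + 2) := fun i => by omega
  have e2 : d + (s + 3) = d + (s + 2) + 1 := by omega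
  simp only [e1, e2]
  refine ⟨fun hd => ?_, fun hd => (h2 hd).finrank⟩
  have h4 : NoForms w P d := by
    rcases hd with hd | hd | hd
    · exact h3 hd
    · exact h1 (Or.inl hd)
    · exact h1 (Or.inr (Or.inr hd))
  have h5 := vd_eq_bot h4
  refine ⟨h5, ?_⟩
  have h6 := H932R5.finrank_ge d w P
  rw [h5, finrank_bot] at h6
  exact h6

end Pool.Agent.L7h91.TW
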