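import Pool.Agent.L7h91.TW.Norm

/-!
# Weights of the quotient by `(ξ - ξ_p) ^ k (1 + η_p / ξ) ^ m`
-/

set_option autoImplicit false

namespace Pool.Agent.L7h91.TW

open Finset Pool.Agent.TH603.EL Pool.Agent.TH3.IR Pool.Agent.TH3.IR.Pair

variable {F : Type} [Field F]

theorem cf_tz_mul (b : ℝ) (p : ℤ) (x : HR F) (a : ℝ) (i j : ℤ) :
    cf (tz F b p 0 * x) a i j = cf x (a - b) (i - p) j := by
  have h : (tz F b p 0 * x).coeff a =
      AddMonoidAlgebra.single (p, (0 : ℤ)) (1 : F) * x.coeff (a - b) := by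
    unfold tz
    have := HahnSeries.coeff_single_mul_add
      (r := (AddMonoidAlgebra.single (p, (0 : ℤ)) (1 : F) : Lau F)) (x := x) (a := a - b) (b := b)
    rwa [sub_add_cancel] at this
  unfold cf
  rw [h, AddMonoidAlgebra.coeff_single_mul_apply, one_mul]
  congr 1
  ext <;> simp <;> ring

theorem wt_tz_mul {β κ b : ℝ} {p : ℤ} {x : HR F} (h : Wt β κ (tz F b p 0 * x)) :
    Wt β (κ - b - β * p) x := by
  intro a i j hc
  have h1 := h (a + b) (i + p) j (by
    rw [cf_tz_mul, add_sub_cancel_right, add_sub_cancel_right]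
    exact hc)
  obtain ⟨h2, h3⟩ := h1
  push_cast at h3
  refine ⟨h2, by linarith⟩

section CharZero

variable [CharZero F]

/-- normalization of a nonzero pair -/
theorem pair_norm {τ : ℝ} (h0 : 0 < τ) (h1 : τ < 1) {c b : HR F} (hT : IsT τ c b)
    {A B : Polynomial (HK F)} {L R : ℝ} (hne : A ≠ 0 ∨ B ≠ 0)
    (hA : ∀ n ∈ A.support, L ≤ n ∧ (n : ℝ) ≤ R)
    (hB : ∀ n ∈ B.support, L + 0 ≤ n ∧ (n : ℝ) ≤ R - 3 / 2) :
    ∃ (β : ℝ) (e1 e2 : ℕ), ((e1 + e2 : ℕ) : ℝ) ≤ 2 * (R - L) ∧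
      Wt (-τ) β (pv c b A B) ∧ Wt (1 - τ) β (pv c b A B) ∧
      cf (pv c b A B) (β + e1 * τ) e1 0 ≠ 0 ∧ cf (pv c b A B) (β + e2 * (1 - τ)) (-e2) 0 ≠ 0 := by
  classical
  -- the least order
  set T : Finset ℝ := A.support.image (fun n => (A.coeff n).order) ∪
    B.support.image (fun n => (B.coeff n).order) with hTdef
  have hTne : T.Nonempty := by
    rcases hne with h | h
    · obtain ⟨n, hn⟩ := Polynomial.support_nonempty.mpr h
      exact ⟨_, Finset.mem_union_left _ (Finset.mem_image_of_mem _ hn)⟩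
    · obtain ⟨n, hn⟩ := Polynomial.support_nonempty.mpr h
      exact ⟨_, Finset.mem_union_right _ (Finset.mem_image_of_mem _ hn)⟩
  set β : ℝ := T.min' hTne with hβ
  have hlowA : ∀ n, Low (A.coeff n) β := by
    intro n
    by_cases hn : n ∈ A.support
    · have h3 : β ≤ (A.coeff n).order :=
        Finset.min'_le _ _ (Finset.mem_union_left _ (Finset.mem_image_of_mem _ hn))
      exact fun x hx => HahnSeries.coeff_eq_zero_of_lt_order (hx.trans_le h3)
    · rw [Polynomial.notMem_support_iff.mp hn]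
      exact low_zero β
  have hlowB : ∀ n, Low (B.coeff n) β := by
    intro n
    by_cases hn : n ∈ B.support
    · have h3 : β ≤ (B.coeff n).order :=
        Finset.min'_le _ _ (Finset.mem_union_right _ (Finset.mem_image_of_mem _ hn))
      exact fun x hx => HahnSeries.coeff_eq_zero_of_lt_order (hx.trans_le h3)
    · rw [Polynomial.notMem_support_iff.mp hn]
      exact low_zero β
  set u : HK F := HahnSeries.single (-β) 1 with hu
  set u' : HK F := HahnSeries.single β 1 with hu'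
  have huu : u' * u = 1 := by
    rw [hu, hu', HahnSeries.single_mul_single, add_neg_cancel, one_mul]
    rfl
  have hsh : ∀ (x : HK F) (a : ℝ), (u * x).coeff a = x.coeff (a + β) := by
    intro x a
    have h3 := HahnSeries.coeff_single_mul_add (r := (1 : F)) (x := x) (a := a + β) (b := -β)
    rw [one_mul, add_neg_cancel_right] at h3
    rw [hu, h3]
  have hco : ∀ (P : Polynomial (HK F)) (n : ℕ), (Polynomial.C u * P).coeff n = u * P.coeff n :=
    fun P n => Polynomial.coeff_C_mul P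
  have hmul : ∀ P : Polynomial (HK F), P = Polynomial.C u' * (Polynomial.C u * P) := by
    intro P
    rw [← mul_assoc, ← Polynomial.C_mul, huu, Polynomial.C_1, one_mul]
  have hevl : ∀ (P : Polynomial (HK F)) (x : HR F), P.eval₂ incl x =
      tz F β 0 0 * (Polynomial.C u * P).eval₂ incl x := by
    intro P x
    conv_lhs => rw [hmul P]
    rw [Polynomial.eval₂_mul incl (p := Polynomial.C u'), Polynomial.eval₂_C, hu',
      Pair.incl_single]
    rfl
  have hsup : ∀ (P : Polynomial (HK F)), ∀ n ∈ (Polynomial.C u * P).support, n ∈ P.support := by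
    intro P n hn
    rw [Polynomial.mem_support_iff, hco] at hn
    rw [Polynomial.mem_support_iff]
    exact right_ne_zero_of_mul hn
  have hres : ∀ (P : Polynomial (HK F)) (n : ℕ), (Pair.res (Polynomial.C u * P)).coeff n =
      (P.coeff n).coeff β := by
    intro P n
    rw [Pair.res_coeff, hco, hsh, zero_add]
  have hne' : Pair.res (Polynomial.C u * A) ≠ 0 ∨ Pair.res (Polynomial.C u * B) ≠ 0 := by
    have hmem : β ∈ T := Finset.min'_mem _ _
    rcases Finset.mem_union.mp hmem with h | h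
    · left
      obtain ⟨n, hn, hn'⟩ := Finset.mem_image.mp h
      intro h3
      have h4 := hres A n
      rw [h3, Polynomial.coeff_zero, ← hn'] at h4
      exact (Polynomial.mem_support_iff.mp hn) (HahnSeries.coeff_order_eq_zero.mp h4.symm)
    · right
      obtain ⟨n, hn, hn'⟩ := Finset.mem_image.mp h
      intro h3
      have h4 := hres B n
      rw [h3, Polynomial.coeff_zero, ← hn'] at h4
      exact (Polynomial.mem_support_iff.mp hn) (HahnSeries.coeff_order_eq_zero.mp h4.symm)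
  have hl0 : ∀ P : Polynomial (HK F), (∀ n, Low (P.coeff n) β) →
      ∀ n, Low ((Polynomial.C u * P).coeff n) 0 := by
    intro P hP n a ha
    rw [hco, hsh]
    exact hP n _ (by linarith)
  obtain ⟨e1, e2, he, ha1, ha2, ha3⟩ := pair_edges h0 h1 hT (hl0 A hlowA) (hl0 B hlowB) hne'
    (fun n hn => hA n (hsup A n hn)) (fun n hn => hB n (hsup B n hn))
  have hfin : pv c b A B = tz F β 0 0 * pv c b (Polynomial.C u * A) (Polynomial.C u * B) := by
    unfold pv
    rw [hevl A, hevl B]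
    ring
  -- no `Y`
  have hnoc : ∀ (P : Polynomial (HK F)) (a : ℝ) (i j : ℤ),
      cf (P.eval₂ incl (c ^ 2)) a i j ≠ 0 → j = 0 := by
    intro P a i j h
    rw [Polynomial.eval₂_eq_sum, Polynomial.sum_def] at h
    have h4 : ∀ (S : Finset ℕ), cf (∑ n ∈ S, incl (P.coeff n) * (c ^ 2) ^ n) a i j ≠ 0 →
        j = 0 := by
      intro S
      induction S using Finset.induction_on with
      | empty =>
        intro h5
        exact absurd (by simp [cf]) h5
      | insert n S hn ih =>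
        intro h5
        rw [Finset.sum_insert hn, CR.cf_add'] at h5
        by_cases h6 : cf (∑ n ∈ S, incl (P.coeff n) * (c ^ 2) ^ n) a i j = 0
        · rw [h6, add_zero] at h5
          obtain ⟨a1, a2, i1, i2, j1, j2, _, _, hj, k1, k2⟩ := Root.cf_mul_ne h5
          rw [cf_incl] at k1
          have h7 : j1 = 0 := by
            by_contra h8
            exact k1 (if_neg fun h9 => h8 h9.2)
          rw [← hj, h7, noY_pow (noY_pow hT.noY 2) n _ _ _ k2, add_zero]
        · exact ih h6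
    exact h4 _ h
  have hnob : ∀ (a : ℝ) (i j : ℤ), cf (1 + b) a i j ≠ 0 → j = 0 := by
    intro a i j h
    by_contra hj
    have h2 : cf (2 * (1 + b)) a i j = 2 * cf (1 + b) a i j := by
      rw [two_mul, CR.cf_add']
      ring
    have h3 : 2 * (1 + b) = 2 * tz F 0 0 0 + (xi F τ + et F τ) := by
      rw [mul_add, hT.b_eq, mul_one]
      congr 1
      rw [show (tz F 0 0 0 : HR F) = 1 from rfl, mul_one]
    rw [h3, two_mul, CR.cf_add', CR.cf_add', CR.cf_add'] at h2
    unfold xi et at h2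
    rw [CR.cf_tz', CR.cf_tz', CR.cf_tz', if_neg (fun h4 => hj h4.2.2),
      if_neg (fun h4 => hj h4.2.2), if_neg (fun h4 => hj h4.2.2)] at h2
    simp only [add_zero] at h2
    rcases mul_eq_zero.1 h2.symm with h4 | h4
    · exact two_ne_zero h4
    · exact h h4
  have hno : ∀ (P Q : Polynomial (HK F)) (a : ℝ) (i j : ℤ), cf (pv c b P Q) a i j ≠ 0 → j = 0 := by
    intro P Q a i j h
    unfold pv at h
    rw [CR.cf_add'] at h
    by_cases h6 : cf (P.eval₂ incl (c ^ 2)) a i j = 0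
    · rw [h6, zero_add] at h
      obtain ⟨a1, a2, i1, i2, j1, j2, _, _, hj, k1, k2⟩ := Root.cf_mul_ne h
      rw [← hj, hnoc Q _ _ _ k1, hnob _ _ _ k2, add_zero]
    · exact hnoc P _ _ _ h6
  obtain ⟨w1, w2⟩ := wt_of_cone ha1 (hno _ _)
  refine ⟨β, e1, e2, he, ?_, ?_, ?_, ?_⟩
  · rw [hfin]
    refine ((wt_tz (-τ) β 0).mul w1).mono (by simp)
  · rw [hfin]
    refine ((wt_tz (1 - τ) β 0).mul w2).mono (by simp)
  · rw [hfin, cf_tz_mul, add_sub_cancel_left, sub_zero]
    exact ha2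
  · rw [hfin, cf_tz_mul, add_sub_cancel_left, sub_zero]
    exact ha3

end CharZero

/-- elements `1 + ω` which are units near all inner points of the annulus -/
structure IsU (τ : ℝ) (u : HR F) : Prop where
  w0 : Wt (-τ) 0 u
  w1 : Wt (1 - τ) 0 u
  w : ∀ r, 0 < r → r < 1 → ∃ ν, 0 < ν ∧ Wt (r - τ) ν (u - 1)

theorem IsU.one {τ : ℝ} : IsU τ (1 : HR F) :=
  ⟨wt_one, wt_one, fun r _ _ => ⟨1, one_pos, by rw [sub_self]; exact Wt.zero⟩⟩

theorem IsU.mul {τ : ℝ} {u v : HR F} (hu : IsU τ u) (hv : IsU τ v) : IsU τ (u * v) := by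
  refine ⟨(hu.w0.mul hv.w0).mono (by simp), (hu.w1.mul hv.w1).mono (by simp), fun r h0 h1 => ?_⟩
  obtain ⟨ν, hν, h2⟩ := hu.w r h0 h1
  obtain ⟨ν', hν', h3⟩ := hv.w r h0 h1
  refine ⟨min ν ν', lt_min hν hν', ?_⟩
  have e : u * v - 1 = (u - 1) * (v - 1) + ((u - 1) + (v - 1)) := by ring
  rw [e]
  refine (h2.mul h3).mono ?_ |>.add ((h2.mono (min_le_left _ _)).add (h3.mono (min_le_right _ _)))
  have := min_le_left ν ν'
  linarith

theorem IsU.pow {τ : ℝ} {u : HR F} (hu : IsU τ u) (n : ℕ) : IsU τ (u ^ n) := by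
  induction n with
  | zero => rw [pow_zero]; exact IsU.one
  | succ n ih => rw [pow_succ]; exact ih.mul hu

/-- bounded weights for all slopes of the annulus -/
def Bd (τ : ℝ) (x : HR F) : Prop := ∀ r, 0 ≤ r → r ≤ 1 → ∃ C, Wt (r - τ) C x

theorem Bd.mul {τ : ℝ} {x y : HR F} (hx : Bd τ x) (hy : Bd τ y) : Bd τ (x * y) := by
  intro r h0 h1
  obtain ⟨C, hC⟩ := hx r h0 h1
  obtain ⟨C', hC'⟩ := hy r h0 h1
  exact ⟨_, hC.mul hC'⟩

theorem Bd.add {τ : ℝ} {x y : HR F} (hx : Bd τ x) (hy : Bd τ y) : Bd τ (x + y) := by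
  intro r h0 h1
  obtain ⟨C, hC⟩ := hx r h0 h1
  obtain ⟨C', hC'⟩ := hy r h0 h1
  exact ⟨min C C', (hC.mono (min_le_left _ _)).add (hC'.mono (min_le_right _ _))⟩

theorem Bd.neg {τ : ℝ} {x : HR F} (hx : Bd τ x) : Bd τ (-x) := by
  intro r h0 h1
  obtain ⟨C, hC⟩ := hx r h0 h1
  exact ⟨C, hC.neg⟩

theorem Bd.sub {τ : ℝ} {x y : HR F} (hx : Bd τ x) (hy : Bd τ y) : Bd τ (x - y) := by
  rw [sub_eq_add_neg]
  exact hx.add hy.neg

theorem Bd.one {τ : ℝ} : Bd τ (1 : HR F) := fun _ _ _ => ⟨0, wt_one⟩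

theorem Bd.zero {τ : ℝ} : Bd τ (0 : HR F) := fun _ _ _ => ⟨0, Wt.zero⟩

theorem Bd.pow {τ : ℝ} {x : HR F} (hx : Bd τ x) (n : ℕ) : Bd τ (x ^ n) := by
  induction n with
  | zero => rw [pow_zero]; exact Bd.one
  | succ n ih => rw [pow_succ]; exact ih.mul hx

theorem Bd.sum {ι : Type*} {τ : ℝ} (s : Finset ι) (f : ι → HR F)
    (h : ∀ i ∈ s, Bd τ (f i)) : Bd τ (∑ i ∈ s, f i) := by
  classical
  induction s using Finset.induction_on with
  | empty => simpa using Bd.zero
  | insert a s ha ih =>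
    rw [Finset.sum_insert ha]
    exact (h a (Finset.mem_insert_self a s)).add
      (ih fun i hi => h i (Finset.mem_insert_of_mem hi))

theorem Bd.tz {τ a : ℝ} {i : ℤ} : Bd τ (tz F a i 0) := fun _ _ _ => ⟨_, wt_tz _ _ _⟩

theorem Bd.of_low {τ κ : ℝ} {c : HK F} (hc : Low c κ) : Bd τ (incl c) :=
  fun _ _ _ => ⟨_, wt_incl hc⟩

theorem wt_conv {τ r κ κ' : ℝ} {x : HR F} (h0 : 0 ≤ r) (h1 : r ≤ 1) (hx : Wt (-τ) κ x)
    (hx' : Wt (1 - τ) κ' x) : Wt (r - τ) ((1 - r) * κ + r * κ') x := by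
  intro a i j h
  obtain ⟨k1, k2⟩ := hx a i j h
  obtain ⟨_, k3⟩ := hx' a i j h
  refine ⟨k1, ?_⟩
  have e : a + (r - τ) * i = (1 - r) * (a + -τ * i) + r * (a + (1 - τ) * i) := by ring
  rw [e]
  have := mul_le_mul_of_nonneg_left k2 (by linarith : 0 ≤ 1 - r)
  have := mul_le_mul_of_nonneg_left k3 h0
  linarith

theorem Bd.of_wt {τ κ κ' : ℝ} {x : HR F} (hx : Wt (-τ) κ x) (hx' : Wt (1 - τ) κ' x) : Bd τ x :=
  fun _ h0 h1 => ⟨_, wt_conv h0 h1 hx hx'⟩

theorem IsU.bd {τ : ℝ} {u : HR F} (hu : IsU τ u) : Bd τ u := Bd.of_wt hu.w0 hu.w1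

/-- generic identities -/
theorem gen1 {R : Type*} [CommRing R] (a b c : R) (h : a * b = c) : a - c = a * (1 - b) := by
  rw [← h]; ring

theorem gen2 {R : Type*} [CommRing R] (a b c : R) (h : c * b = a) : a - c = -(c * (1 - b)) := by
  rw [← h]; ring

theorem gen3 {R : Type*} [CommRing R] (a b : R) (h : a * b = 1) : 1 + a = a * (1 + b) := by
  rw [mul_add, h]; ring

theorem gen4 {R : Type*} [CommRing R] (a : R) : 1 - a - 1 = -a := by ring

theorem gen5 {R : Type*} [CommRing R] (a : R) : 1 + a - 1 = a := by ring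

theorem gen6 {R : Type*} [CommRing R] (a b c : R) (n : ℕ) :
    (-(a * b)) ^ n * c = (-1) ^ n * (a ^ n * (b ^ n * c)) := by
  have e : -(a * b) = (-1) * (a * b) := by ring
  rw [e, mul_pow, mul_pow]
  ring

theorem wt_pow_div {β κ ν C : ℝ} {x x1 v : HR F} (hν : 0 < ν) (hω : Wt β ν (v - 1)) (n : ℕ)
    (h : x = v ^ n * x1) (hx : Wt β κ x) (h1 : Wt β C x1) : Wt β κ x1 := by
  obtain ⟨ω', hω', h'⟩ : ∃ ω' : HR F, Wt β ν ω' ∧ v ^ n = 1 + ω' := by
    clear h
    induction n with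
    | zero => exact ⟨0, Wt.zero, by rw [pow_zero, add_zero]⟩
    | succ n ih =>
      obtain ⟨ω', hω', h'⟩ := ih
      refine ⟨ω' + (v - 1) + ω' * (v - 1), (hω'.add hω).add ((hω'.mul hω).mono (by linarith)), ?_⟩
      rw [pow_succ, h']
      ring
  rw [h'] at h
  exact wt_div hν hω' h hx h1

theorem tz_pow0 (a : ℝ) (i : ℤ) (n : ℕ) : (tz F a i 0) ^ n = tz F (n * a) (n * i) 0 := by
  unfold tz
  rw [HahnSeries.single_pow, AddMonoidAlgebra.single_pow, one_pow]
  simp [nsmul_eq_mul]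

theorem tz_one : (tz F 0 0 0 : HR F) = 1 := rfl

/-- the key lemma -/
theorem key_range {τ ρ : ℝ} (h0 : 0 < τ) (hτρ : τ < ρ) (hρ : ρ < 1) {G ψ u : HR F} {k m e1 e2 : ℕ}
    {β : ℝ} (hG0 : Wt (-τ) β G) (hG1 : Wt (1 - τ) β G) (hc1 : cf G (β + e1 * τ) e1 0 ≠ 0)
    (hc2 : cf G (β + e2 * (1 - τ)) (-e2) 0 ≠ 0) (hu : IsU τ u)
    (h : u * G = (1 + tz F (1 - ρ - τ) (-1) 0) ^ m * ((xi F τ - tz F ρ 0 0) ^ k * ψ))
    (hψ : Bd τ ψ) :
    ∀ (α : ℝ) (i j : ℤ), Low ψ α → cf ψ α i j ≠ 0 → j = 0 ∧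
      (i : ℝ) ≤ ((e1 : ℝ) + e2 - m - k) * (1 - τ) + ((m : ℝ) - k) * ρ ∧
      -(i : ℝ) ≤ ((e1 : ℝ) + e2 - m - k) * τ - ((m : ℝ) - k) * ρ := by
  have hτ1 : τ < 1 := by linarith
  have hρ0 : 0 < ρ := by linarith
  have hk0 : (0 : ℝ) ≤ k := Nat.cast_nonneg k
  have hm0 : (0 : ℝ) ≤ m := Nat.cast_nonneg m
  have hG : Bd τ G := Bd.of_wt hG0 hG1
  -- the factors at the left end
  have f1 : xi F τ - tz F ρ 0 0 = tz F τ 1 0 * (1 - tz F (ρ - τ) (-1) 0) := by
    unfold xi
    apply gen1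
    rw [CR.tz_mul']
    norm_num
  have f2 : xi F τ - tz F ρ 0 0 = -(tz F ρ 0 0 * (1 - tz F (τ - ρ) 1 0)) := by
    unfold xi
    apply gen2
    rw [CR.tz_mul']
    norm_num
  have f3 : 1 + tz F (1 - ρ - τ) (-1) 0 =
      tz F (1 - ρ - τ) (-1) 0 * (1 + tz F (τ - (1 - ρ)) 1 0) := by
    apply gen3
    rw [CR.tz_mul', ← tz_one]
    norm_num
  obtain ⟨x, hx⟩ : ∃ x, x = u * G := ⟨_, rfl⟩
  have hxl : Wt (-τ) β x := by rw [hx]; exact (hu.w0.mul hG0).mono (by simp)
  have hxr : Wt (1 - τ) β x := by rw [hx]; exact (hu.w1.mul hG1).mono (by simp)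
  rw [← hx] at h
  have wxi : ∀ r, Wt (r - τ) (min r ρ) (xi F τ - tz F ρ 0 0) := by
    intro r
    refine Wt.sub ?_ ?_
    · unfold xi
      refine (wt_tz _ _ _).mono ?_
      push_cast
      have := min_le_left r ρ
      linarith
    · refine (wt_tz _ _ _).mono ?_
      push_cast
      have := min_le_right r ρ
      linarith
  have wh2 : ∀ r, Wt (r - τ) (min 0 (1 - ρ - r)) (1 + tz F (1 - ρ - τ) (-1) 0) := by
    intro r
    refine Wt.add (wt_one.mono (min_le_left _ _)) ?_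
    refine (wt_tz _ _ _).mono ?_
    push_cast
    have := min_le_right 0 (1 - ρ - r)
    linarith
  -- the left end
  have hleft : Wt (-τ) β ψ := by
    obtain ⟨C, hC⟩ := hψ 0 le_rfl zero_le_one
    rw [zero_sub] at hC
    have w1 := (wxi 0)
    rw [zero_sub, min_eq_left hρ0.le] at w1
    have g1 : Wt (-τ) β ((xi F τ - tz F ρ 0 0) ^ k * ψ) := by
      refine wt_pow_div (ν := 1 - ρ) (by linarith) ?_ m h hxl ((w1.pow k).mul hC)
      rw [gen5]
      exact (wt_tz _ _ _).mono (by push_cast; linarith)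
    rw [f1, mul_pow, tz_pow0, mul_assoc] at g1
    have g2 := wt_tz_mul g1
    refine wt_pow_div (ν := ρ) hρ0 ?_ k rfl (g2.mono ?_) hC
    · rw [gen4]
      exact ((wt_tz _ _ _).neg).mono (by push_cast; linarith)
    · push_cast
      apply le_of_eq
      ring
  -- the right end
  have hright : Wt (1 - τ) (β + ((m : ℝ) - k) * ρ) ψ := by
    obtain ⟨C, hC⟩ := hψ 1 zero_le_one le_rfl
    have w1 := (wxi 1)
    rw [min_eq_right hρ.le] at w1
    rw [f3, mul_pow, tz_pow0, mul_assoc] at h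
    rw [h] at hxr
    have g1 := wt_tz_mul hxr
    have g2 : Wt (1 - τ) (β + m * ρ) ((xi F τ - tz F ρ 0 0) ^ k * ψ) := by
      refine wt_pow_div (ν := ρ) hρ0 ?_ m rfl (g1.mono ?_) ((w1.pow k).mul hC)
      · rw [gen5]
        exact (wt_tz _ _ _).mono (by push_cast; linarith)
      · push_cast
        apply le_of_eq
        ring
    rw [f2, gen6, tz_pow0] at g2
    have g3 : Wt (1 - τ) (β + m * ρ)
        (tz F (k * ρ) (k * 0) 0 * ((1 - tz F (τ - ρ) 1 0) ^ k * ψ)) := by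
      rcases neg_one_pow_eq_or (HR F) k with h1 | h1
      · rw [h1, one_mul] at g2
        exact g2
      · rw [h1, neg_one_mul] at g2
        have := g2.neg
        rwa [neg_neg] at this
    have g4 := wt_tz_mul g3
    refine wt_pow_div (ν := 1 - ρ) (by linarith) ?_ k rfl (g4.mono ?_) hC
    · rw [gen4]
      exact ((wt_tz _ _ _).neg).mono (by push_cast; linarith)
    · push_cast
      apply le_of_eq
      ring
  -- from `x` to `G`
  have hback : ∀ (r κ : ℝ), 0 < r → r < 1 → Wt (r - τ) κ ψ →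
      Wt (r - τ) (m * min 0 (1 - ρ - r) + (k * min r ρ + κ)) G := by
    intro r κ hr0 hr1 hκ
    obtain ⟨ν, hν, hw⟩ := hu.w r hr0 hr1
    obtain ⟨C, hC⟩ := hG r hr0.le hr1.le
    refine wt_pow_div (x := x) hν hw 1 (by rw [hx, pow_one]) ?_ hC
    rw [h]
    exact ((wh2 r).pow m).mul (((wxi r).pow k).mul hκ)
  intro α i j hα hij
  obtain ⟨hj, l1⟩ := hleft _ _ _ hij
  obtain ⟨_, l2⟩ := hright _ _ _ hij
  have hψa : ∀ a i j, cf ψ a i j ≠ 0 → α ≤ a := by
    intro a i j hc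
    by_contra hcon
    push Not at hcon
    apply hc
    unfold cf
    rw [hα a hcon]
    rfl
  -- the order is small: left
  have t1 : α ≤ β + ((e1 : ℝ) - k) * τ := by
    obtain ⟨r, hr0, hr1, hr2, hr3⟩ : ∃ r, 0 < r ∧ r < ρ ∧ r < 1 - ρ ∧ r < τ := by
      refine ⟨min (min ρ (1 - ρ)) τ / 2, ?_, ?_, ?_, ?_⟩
      · have : 0 < min (min ρ (1 - ρ)) τ := lt_min (lt_min hρ0 (by linarith)) h0
        linarith
      · have : 0 < min (min ρ (1 - ρ)) τ := lt_min (lt_min hρ0 (by linarith)) h0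
        have := (min_le_left (min ρ (1 - ρ)) τ).trans (min_le_left _ _)
        linarith
      · have : 0 < min (min ρ (1 - ρ)) τ := lt_min (lt_min hρ0 (by linarith)) h0
        have := (min_le_left (min ρ (1 - ρ)) τ).trans (min_le_right _ _)
        linarith
      · have : 0 < min (min ρ (1 - ρ)) τ := lt_min (lt_min hρ0 (by linarith)) h0
        have := (min_le_right (min ρ (1 - ρ)) τ)
        linarith
    have g1 : Wt (r - τ) (β + r / τ * (α - β)) ψ := by
      intro a' i' j' hc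
      obtain ⟨k1, k2⟩ := hleft _ _ _ hc
      have k3 := hψa _ _ _ hc
      refine ⟨k1, ?_⟩
      have e : a' + (r - τ) * i' = (1 - r / τ) * (a' + -τ * i') + r / τ * a' := by
        field_simp
        ring
      rw [e]
      have k4 : r / τ ≤ 1 := (div_le_one h0).2 hr3.le
      have k5 : 0 ≤ r / τ := by positivity
      have := mul_le_mul_of_nonneg_left k2 (by linarith : 0 ≤ 1 - r / τ)
      have := mul_le_mul_of_nonneg_left k3 k5
      linarith
    have g2 := (hback r _ hr0 (by linarith) g1 _ _ _ hc1).2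
    rw [min_eq_left (by linarith), min_eq_left hr1.le] at g2
    push_cast at g2
    have g3 : r / τ * (α - β) ≤ ((e1 : ℝ) - k) * r := by linarith
    have g4 : r / τ * (α - β) = r * ((α - β) / τ) := by ring
    have g5 : (α - β) / τ ≤ (e1 : ℝ) - k := by
      rw [g4, mul_comm ((e1 : ℝ) - k) r] at g3
      exact le_of_mul_le_mul_left g3 hr0
    rw [div_le_iff₀ h0] at g5
    linarith
  have t2 : α ≤ β + ((m : ℝ) - k) * ρ + ((e2 : ℝ) - m) * (1 - τ) := by
    obtain ⟨q, hq0, hq1, hq2, hq3⟩ : ∃ q, 0 < q ∧ q < ρ ∧ q < 1 - ρ ∧ q < 1 - τ := by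
      have hp : 0 < min (min ρ (1 - ρ)) (1 - τ) := lt_min (lt_min hρ0 (by linarith)) (by linarith)
      refine ⟨min (min ρ (1 - ρ)) (1 - τ) / 2, by linarith, ?_, ?_, ?_⟩
      · have := (min_le_left (min ρ (1 - ρ)) (1 - τ)).trans (min_le_left _ _)
        linarith
      · have := (min_le_left (min ρ (1 - ρ)) (1 - τ)).trans (min_le_right _ _)
        linarith
      · have := (min_le_right (min ρ (1 - ρ)) (1 - τ))
        linarith
    obtain ⟨κ, hκ⟩ : ∃ κ, κ = β + ((m : ℝ) - k) * ρ := ⟨_, rfl⟩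
    rw [← hκ] at hright ⊢
    have h1τ : 0 < 1 - τ := by linarith
    have g1 : Wt (1 - q - τ) (κ + q / (1 - τ) * (α - κ)) ψ := by
      intro a' i' j' hc
      obtain ⟨k1, k2⟩ := hright _ _ _ hc
      have k3 := hψa _ _ _ hc
      refine ⟨k1, ?_⟩
      have e : a' + (1 - q - τ) * i' = (1 - q / (1 - τ)) * (a' + (1 - τ) * i') +
          q / (1 - τ) * a' := by
        field_simp
        ring
      rw [e]
      have k4 : q / (1 - τ) ≤ 1 := (div_le_one h1τ).2 hq3.le
      have k5 : 0 ≤ q / (1 - τ) := by positivity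
      have := mul_le_mul_of_nonneg_left k2 (by linarith : 0 ≤ 1 - q / (1 - τ))
      have := mul_le_mul_of_nonneg_left k3 k5
      linarith
    have g2 := (hback (1 - q) _ (by linarith) (by linarith) g1 _ _ _ hc2).2
    rw [min_eq_right (by linarith), min_eq_right (by linarith)] at g2
    push_cast at g2
    have g3 : q / (1 - τ) * (α - κ) ≤ ((e2 : ℝ) - m) * q := by
      rw [hκ] at g2 ⊢
      linarith
    have g4 : q / (1 - τ) * (α - κ) = q * ((α - κ) / (1 - τ)) := by ring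
    have g5 : (α - κ) / (1 - τ) ≤ (e2 : ℝ) - m := by
      rw [g4, mul_comm ((e2 : ℝ) - m) q] at g3
      exact le_of_mul_le_mul_left g3 hq0
    rw [div_le_iff₀ h1τ] at g5
    linarith
  have h1τ : 0 < 1 - τ := by linarith
  refine ⟨hj, ?_, ?_⟩
  · have p1 : (i : ℝ) ≤ (e1 : ℝ) - k := by
      have : τ * i ≤ ((e1 : ℝ) - k) * τ := by linarith
      rw [mul_comm] at this
      exact le_of_mul_le_mul_right this h0
    have p2 := mul_le_mul_of_nonneg_left p1 h1τ.le
    linarith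
  · have p1 : -(i : ℝ) ≤ (e2 : ℝ) - m := by
      have : -(i : ℝ) * (1 - τ) ≤ ((e2 : ℝ) - m) * (1 - τ) := by linarith
      exact le_of_mul_le_mul_right this h1τ
    have p2 := mul_le_mul_of_nonneg_left p1 h0.le
    linarith

end Pool.Agent.L7h91.TW
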