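import Pool.Agent.L7h91.TW.Tr
import Pool.Agent.L7h91.TW.Elev2

/-!
# Nested series
-/

set_option autoImplicit false

namespace Pool.Agent.L7h91.TW

open Finset Pool.Agent.TH603.EL Pool.Agent.TH3.IR Pool.Agent.TH3.IR.Comap

/-- the map of the coefficients -/
noncomputable def hmap {A B : Type} [CommRing A] [CommRing B] (f : A →+* B) :
    HahnSeries ℝ A →+* HahnSeries ℝ B where
  toFun u := u.map f
  map_one' := by
    ext a
    simp only [HahnSeries.map_coeff, HahnSeries.coeff_one]
    split_ifs <;> simp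
  map_mul' u v := HahnSeries.map_mul (f : A →ₙ+* B)
  map_zero' := by ext; simp
  map_add' u v := by ext; simp

theorem hmap_coeff {A B : Type} [CommRing A] [CommRing B] (f : A →+* B) (u : HahnSeries ℝ A)
    (a : ℝ) : (hmap f u).coeff a = f (u.coeff a) := rfl

/-- series in `t` with Laurent polynomials as coefficients -/
abbrev Rt (F : Type) [Field F] (σ : Type) : Type := HahnSeries ℝ (La F σ)

/-- polynomials in `ε` -/
abbrev Re (F : Type) [Field F] (σ : Type) : Type := Polynomial (Rt F σ)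

/-- polynomials in `ε` over the constants -/
abbrev Ae (F : Type) [Field F] : Type := Polynomial (HK F)

section

variable {F : Type} [Field F] {σ : Type}

/-- the inclusion of the constants -/
noncomputable def φ0 (F : Type) [Field F] (σ : Type) : HK F →+* Rt F σ :=
  hmap (AddMonoidAlgebra.singleZeroRingHom (R := F) (M := ℤ × (σ → ℤ)))

/-- the inclusion of the constants -/
noncomputable def φe (F : Type) [Field F] (σ : Type) : Ae F →+* Re F σ :=
  Polynomial.mapRingHom (φ0 F σ)

section ev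

variable [Fintype σ] (x : F) (y : σ → F) (hx : x ≠ 0) (hy : ∀ i, y i ≠ 0)

/-- the evaluation at a point -/
noncomputable def E0 : Rt F σ →+* HK F := hmap (evS x y hx hy : La F σ →+* F)

/-- the evaluation at a point -/
noncomputable def Ee : Re F σ →+* Ae F := Polynomial.mapRingHom (E0 x y hx hy)

theorem E0_coeff (u : Rt F σ) (a : ℝ) : (E0 x y hx hy u).coeff a = evS x y hx hy (u.coeff a) := rfl

theorem E0_φ0 (c : HK F) : E0 x y hx hy (φ0 F σ c) = c := by
  ext a
  rw [E0_coeff]
  show evS x y hx hy (AddMonoidAlgebra.single (0 : ℤ × (σ → ℤ)) (c.coeff a)) = c.coeff a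
  rw [evS_single]
  unfold ch
  simp

theorem Ee_φe (c : Ae F) : Ee x y hx hy (φe F σ c) = c := by
  ext n : 1
  unfold Ee φe
  rw [Polynomial.coe_mapRingHom, Polynomial.coe_mapRingHom, Polynomial.coeff_map,
    Polynomial.coeff_map, E0_φ0]

/-- all coefficients lie in the `w`-th power of the ideal of the point -/
def VE (w : ℕ) (u : Re F σ) : Prop :=
  ∀ n a, (u.coeff n).coeff a ∈ (RingHom.ker (evS x y hx hy : La F σ →+* F)) ^ w

variable {x y hx hy}

theorem VE.add {w : ℕ} {u v : Re F σ} (h : VE x y hx hy w u) (h' : VE x y hx hy w v) :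
    VE x y hx hy w (u + v) := by
  intro n a
  rw [Polynomial.coeff_add, HahnSeries.coeff_add]
  exact Ideal.add_mem _ (h n a) (h' n a)

theorem VE.mul {w w' : ℕ} {u v : Re F σ} (h : VE x y hx hy w u) (h' : VE x y hx hy w' v) :
    VE x y hx hy (w + w') (u * v) := by
  intro n a
  rw [Polynomial.coeff_mul, HahnSeries.coeff_sum]
  apply Ideal.sum_mem
  intro p _
  rw [HahnSeries.coeff_mul, pow_add]
  apply Ideal.sum_mem
  intro ij _
  exact Ideal.mul_mem_mul (h _ _) (h' _ _)

omit [Fintype σ] in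
/-- generic induction over the powers of an ideal -/
theorem gen_pow {R : Type*} [CommRing R] (J : Ideal R) (P : ℕ → R → Prop) (h0 : ∀ u, P 0 u)
    (hadd : ∀ w u v, P w u → P w v → P w (u + v))
    (hmul : ∀ w u v, P w u → v ∈ J → P (w + 1) (u * v)) : ∀ w u, u ∈ J ^ w → P w u := by
  intro w
  induction w with
  | zero => intro u _; exact h0 u
  | succ w ih =>
    intro u hu
    rw [pow_succ] at hu
    exact Submodule.mul_induction_on hu (fun a ha b hb => hmul w a b (ih a ha) hb)
      (fun a b ha hb => hadd _ a b ha hb)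

theorem VE_of_ker {w : ℕ} {u : Re F σ} (h : u ∈ (RingHom.ker (Ee x y hx hy)) ^ w) :
    VE x y hx hy w u := by
  obtain ⟨J, hJ⟩ : ∃ J, J = RingHom.ker (Ee x y hx hy) := ⟨_, rfl⟩
  rw [← hJ] at h
  refine gen_pow J (fun w u => VE x y hx hy w u) ?_ ?_ ?_ w u h
  · intro u n a
    rw [pow_zero, Ideal.one_eq_top]
    trivial
  · intro w u v hu hv
    exact hu.add hv
  · intro w a b ha hb
    refine ha.mul ?_
    intro n c
    rw [pow_one]
    rw [hJ, RingHom.mem_ker] at hb
    rw [RingHom.mem_ker]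
    have h1 := congrArg (fun p : Ae F => (p.coeff n).coeff c) hb
    simp only [Polynomial.coeff_zero, HahnSeries.coeff_zero] at h1
    rw [← h1]
    unfold Ee
    rw [Polynomial.coe_mapRingHom, Polynomial.coeff_map]
    rfl

end ev

/-! ## the embedding of the series in `z` -/

/-- the homomorphism of the exponents -/
def gh (σ : Type) : (ℤ × ℤ) →+ (ℤ × (σ → ℤ)) where
  toFun m := (m.1, 0)
  map_zero' := rfl
  map_add' a b := by ext <;> simp

/-- the embedding, `Y ↦ 1` -/
noncomputable def io (F : Type) [Field F] (σ : Type) : HR F →+* Rt F σ :=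
  hmap (AddMonoidAlgebra.mapDomainRingHom F (gh σ) : Pool.Agent.TH603.EL.Lau F →+* La F σ)

/-- no `Y` -/
def NY (u : HR F) : Prop := ∀ a i j, cf u a i j ≠ 0 → j = 0

/-- the monomials -/
noncomputable def Mo (F : Type) [Field F] {σ : Type} (γ : σ → ℤ) : Rt F σ :=
  HahnSeries.single 0 (AddMonoidAlgebra.single (0, γ) 1)

theorem Mo_add (γ γ' : σ → ℤ) : Mo F (γ + γ') = Mo F γ * Mo F γ' := by
  unfold Mo
  rw [HahnSeries.single_mul_single, AddMonoidAlgebra.single_mul_single, add_zero, one_mul]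
  rfl

theorem Mo_zero : Mo F (0 : σ → ℤ) = 1 := rfl

theorem Mo_nsmul (γ : σ → ℤ) (n : ℕ) : Mo F ((n : ℤ) • γ) = Mo F γ ^ n := by
  induction n with
  | zero => rw [Nat.cast_zero, zero_smul, pow_zero, Mo_zero]
  | succ n ih =>
    rw [pow_succ, ← ih, ← Mo_add]
    congr 1
    push_cast
    rw [add_smul, one_smul]

/-- the coefficient -/
noncomputable def cfS (u : Rt F σ) (a : ℝ) (i : ℤ) (γ : σ → ℤ) : F := (u.coeff a).coeff (i, γ)

theorem io_sum (u : HR F) (a : ℝ) : (io F σ u).coeff a = ∑ m ∈ (u.coeff a).coeff.support,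
    AddMonoidAlgebra.single (gh σ m) ((u.coeff a).coeff m) := by
  show (AddMonoidAlgebra.mapDomainRingHom F (gh σ)) (u.coeff a) = _
  conv_lhs => rw [← AddMonoidAlgebra.sum_coeff_single (u.coeff a)]
  unfold Finsupp.sum
  rw [map_sum]
  refine Finset.sum_congr rfl fun m _ => ?_
  simp

theorem coeff_fsum {ι : Type*} (s : Finset ι) (f : ι → La F σ) (m : ℤ × (σ → ℤ)) :
    (∑ i ∈ s, f i).coeff m = ∑ i ∈ s, (f i).coeff m := by
  classical
  induction s using Finset.induction_on with
  | empty => simp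
  | insert a s ha ih =>
    rw [Finset.sum_insert ha, Finset.sum_insert ha, ← ih]
    rfl

theorem io_zero {u : HR F} (hu : NY u) (a : ℝ) (i : ℤ) : cfS (io F σ u) a i 0 = cf u a i 0 := by
  classical
  unfold cfS
  rw [io_sum, coeff_fsum]
  by_cases h : (i, (0 : ℤ)) ∈ (u.coeff a).coeff.support
  · rw [Finset.sum_eq_single (i, (0 : ℤ))]
    · rw [AddMonoidAlgebra.coeff_single, Finsupp.single_apply]
      exact if_pos rfl
    · rintro ⟨i', j'⟩ hm hne
      rw [AddMonoidAlgebra.coeff_single, Finsupp.single_apply, if_neg]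
      intro h2
      apply hne
      have h3 : j' = 0 := hu a i' j' (Finsupp.mem_support_iff.1 hm)
      have h4 : i' = i := congrArg Prod.fst h2
      rw [h3, h4]
    · intro h2
      exact absurd h h2
  · have h0 : cf u a i 0 = 0 := Finsupp.notMem_support_iff.1 h
    rw [h0]
    apply Finset.sum_eq_zero
    rintro ⟨i', j'⟩ hm
    rw [AddMonoidAlgebra.coeff_single, Finsupp.single_apply, if_neg]
    intro h2
    apply h
    have h3 : j' = 0 := hu a i' j' (Finsupp.mem_support_iff.1 hm)
    have h4 : i' = i := congrArg Prod.fst h2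
    rw [← h3, ← h4]
    exact hm

theorem io_ne (u : HR F) (a : ℝ) (i : ℤ) {γ : σ → ℤ} (hγ : γ ≠ 0) :
    cfS (io F σ u) a i γ = 0 := by
  classical
  unfold cfS
  rw [io_sum, coeff_fsum]
  apply Finset.sum_eq_zero
  intro m _
  rw [AddMonoidAlgebra.coeff_single, Finsupp.single_apply, if_neg]
  intro h2
  exact hγ (congrArg Prod.snd h2).symm

theorem cfS_Mo (u : Rt F σ) (γ0 : σ → ℤ) (a : ℝ) (i : ℤ) (γ : σ → ℤ) :
    cfS (Mo F γ0 * u) a i γ = cfS u a i (γ - γ0) := by
  have h : (Mo F γ0 * u).coeff a =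
      AddMonoidAlgebra.single ((0 : ℤ), γ0) (1 : F) * u.coeff a := by
    unfold Mo
    have := HahnSeries.coeff_single_mul_add
      (r := (AddMonoidAlgebra.single ((0 : ℤ), γ0) (1 : F) : La F σ)) (x := u) (a := a) (b := 0)
    rwa [add_zero] at this
  unfold cfS
  rw [h, AddMonoidAlgebra.coeff_single_mul_apply, one_mul]
  congr 1
  ext
  · simp
  · simp [sub_eq_neg_add]

theorem cfS_add (u v : Rt F σ) (a : ℝ) (i : ℤ) (γ : σ → ℤ) :
    cfS (u + v) a i γ = cfS u a i γ + cfS v a i γ := rfl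

theorem cfS_sum {ι : Type*} (s : Finset ι) (f : ι → Rt F σ) (a : ℝ) (i : ℤ) (γ : σ → ℤ) :
    cfS (∑ k ∈ s, f k) a i γ = ∑ k ∈ s, cfS (f k) a i γ := by
  unfold cfS
  rw [HahnSeries.coeff_sum, coeff_fsum]

theorem io_incl (c : HK F) : io F σ (incl c) = φ0 F σ c := by
  apply HahnSeries.ext
  funext a
  show (AddMonoidAlgebra.mapDomainRingHom F (gh σ))
    (AddMonoidAlgebra.single (0 : ℤ × ℤ) (c.coeff a)) =
    AddMonoidAlgebra.single (0 : ℤ × (σ → ℤ)) (c.coeff a)
  simp

end

end Pool.Agent.L7h91.TW
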