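import Pool.Agent.L7h91.TW.Tube

/-!
# Normalization of pairs and their edge coefficients
-/

set_option autoImplicit false

namespace Pool.Agent.L7h91.TW

open Finset Pool.Agent.TH603.EL Pool.Agent.TH3.IR Pool.Agent.TH3.IR.Pair

/-- the coordinates of the tube of the curve -/
structure IsT {F : Type} [Field F] (τ : ℝ) (c b : HR F) : Prop where
  cone : c ∈ Cone F τ 1
  eq : 2 * (c ^ 3 - c) = xi F τ - et F τ
  low : Low (c - 1) (min τ (1 - τ))
  noY : ∀ a i j, cf c a i j ≠ 0 → j = 0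
  b_eq : 2 * b = xi F τ + et F τ

variable {F : Type} [Field F] [CharZero F]

theorem exists_T {τ : ℝ} (h0 : 0 < τ) (h1 : τ < 1) : ∃ c b : HR F, IsT τ c b := by
  obtain ⟨c, h2, h3, h4, h5⟩ := exists_c0 (F := F) h0 h1
  refine ⟨c, incl (HahnSeries.C (2⁻¹ : F)) * (xi F τ + et F τ), h2, h3, h4, h5, ?_⟩
  have e1 : (2 : HR F) * incl (HahnSeries.C (2⁻¹ : F)) = 1 := by
    have e2 : (2 : HR F) = incl (HahnSeries.C (2 : F)) := by
      rw [map_ofNat, map_ofNat]
    rw [e2, ← map_mul, ← map_mul, mul_inv_cancel₀ two_ne_zero, map_one, map_one]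
  rw [← mul_assoc, e1, one_mul]

/-- the value of the pair `A + B y` -/
noncomputable def pv (c b : HR F) (A B : Polynomial (HK F)) : HR F :=
  A.eval₂ incl (c ^ 2) + B.eval₂ incl (c ^ 2) * (1 + b)

/-- the extreme coefficients of a pair with integral coefficients and nonzero residue -/
theorem pair_edges {τ : ℝ} (h0 : 0 < τ) (h1 : τ < 1) {c b : HR F} (hT : IsT τ c b)
    {A B : Polynomial (HK F)} {L R : ℝ}
    (hA0 : ∀ n, Low (A.coeff n) 0) (hB0 : ∀ n, Low (B.coeff n) 0)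
    (hne : res A ≠ 0 ∨ res B ≠ 0)
    (hA : ∀ n ∈ A.support, L ≤ n ∧ (n : ℝ) ≤ R)
    (hB : ∀ n ∈ B.support, L + 0 ≤ n ∧ (n : ℝ) ≤ R - 3 / 2) :
    ∃ e1 e2 : ℕ, ((e1 + e2 : ℕ) : ℝ) ≤ 2 * (R - L) ∧ pv c b A B ∈ Cone F τ 1 ∧
      cf (pv c b A B) (e1 * τ) e1 0 ≠ 0 ∧ cf (pv c b A B) (e2 * (1 - τ)) (-e2) 0 ≠ 0 := by
  obtain ⟨hc, hc2, hc1, -, hb⟩ := hT
  have hs0 : (0 : ℝ) < 1 := zero_lt_one
  have hA' : ∀ n ∈ (res A).support, L ≤ n ∧ (n : ℝ) ≤ R := by
    intro n hn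
    apply hA n
    rw [Polynomial.mem_support_iff] at hn ⊢
    intro h
    apply hn
    rw [res_coeff, h]
    rfl
  have hB' : ∀ n ∈ (res B).support, L + 0 ≤ n ∧ (n : ℝ) ≤ R - 3 / 2 := by
    intro n hn
    apply hB n
    rw [Polynomial.mem_support_iff] at hn ⊢
    intro h
    apply hn
    rw [res_coeff, h]
    rfl
  obtain ⟨e1, e2, Q1, Q2, hQ1, hQ2, hP1, hP2, he⟩ := zeros_bound le_rfl le_rfl hne hA' hB'
  set G : HR F := pv c b A B with hG
  unfold pv at hG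
  -- `b` is in the cone
  have h2 : (2 : F) ≠ 0 := two_ne_zero
  have hi2 : incl (HahnSeries.C (2⁻¹ : F)) * (2 : HR F) = 1 := by
    have : (2 : HR F) = incl (HahnSeries.C (2 : F)) := by
      rw [map_ofNat, map_ofNat]
    rw [this, ← map_mul, ← map_mul, inv_mul_cancel₀ h2, map_one, map_one]
  have hbe : b = incl (HahnSeries.C (2⁻¹ : F)) * (xi F τ + et F τ) := by
    rw [← hb, ← mul_assoc, hi2, one_mul]
  have hlc : ∀ x : F, Low (HahnSeries.C x : HK F) 0 := fun x => low_single 0 x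
  have hcc : ∀ x : F, (HahnSeries.C x : HK F).coeff 0 = x := fun x => by simp
  have cxi : xi F τ ∈ Cone F τ 1 := cone_xi h0 h1
  have ceta : et F τ ∈ Cone F τ 1 := cone_et h0 h1
  have cb : b ∈ Cone F τ 1 := by
    rw [hbe]
    exact cone_mul h0 h1 hs0 (cone_incl (hlc _)) (cone_add cxi ceta)
  have exi := edge_xi (F := F) h0 h1
  have eeta := edge_et (F := F) (τ := τ)
  have eb1 : edge1 τ b = PowerSeries.C (2⁻¹ : F) * PowerSeries.X := by
    rw [hbe, edge1_mul h0 h1 hs0 (cone_incl (hlc _)) (cone_add cxi ceta), (edge_add _ _).1,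
      exi.1, eeta.1, add_zero, (edge_incl h0 h1 _).1, hcc]
  have eb2 : edge2 τ b = PowerSeries.C (2⁻¹ : F) * PowerSeries.X := by
    rw [hbe, edge2_mul h0 h1 hs0 (cone_incl (hlc _)) (cone_add cxi ceta), (edge_add _ _).2,
      exi.2, eeta.2, zero_add, (edge_incl h0 h1 _).2, hcc]
  -- the edges of `c`
  have e2' : edge1 τ (2 : HR F) = 2 ∧ edge2 τ (2 : HR F) = 2 := by
    have h := edge_incl h0 h1 (HahnSeries.C (2 : F))
    rw [hcc] at h
    simp only [map_ofNat] at h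
    exact h
  have c2' : (2 : HR F) ∈ Cone F τ 1 := by
    have h := cone_incl (τ := τ) (s := 1) (hlc (2 : F))
    rwa [map_ofNat, map_ofNat] at h
  have eneg : ∀ x : HR F, edge1 τ (-x) = -edge1 τ x ∧ edge2 τ (-x) = -edge2 τ x := by
    intro x
    have h := edge_add (τ := τ) x (-x)
    rw [add_neg_cancel, edge_zero.1, edge_zero.2] at h
    exact ⟨by rw [eq_neg_iff_add_eq_zero, add_comm]; exact h.1.symm,
      by rw [eq_neg_iff_add_eq_zero, add_comm]; exact h.2.symm⟩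
  have esub : ∀ x y : HR F, edge1 τ (x - y) = edge1 τ x - edge1 τ y ∧
      edge2 τ (x - y) = edge2 τ x - edge2 τ y := by
    intro x y
    rw [sub_eq_add_neg, (edge_add _ _).1, (edge_add _ _).2, (eneg y).1, (eneg y).2]
    exact ⟨by ring, by ring⟩
  have csub : ∀ {x y : HR F}, x ∈ Cone F τ 1 → y ∈ Cone F τ 1 → x - y ∈ Cone F τ 1 := by
    intro x y hx hy
    rw [sub_eq_add_neg]
    exact cone_add hx (cone_neg hy)
  obtain ⟨cc3, e13, e23⟩ := edge_pow h0 h1 hs0 hc 3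
  have hγ1 : 2 * (edge1 τ c ^ 3 - edge1 τ c) = PowerSeries.C (1 : F) * PowerSeries.X := by
    have h := congrArg (edge1 τ) hc2
    rw [edge1_mul h0 h1 hs0 c2' (csub cc3 hc), e2'.1, (esub _ _).1, (esub _ _).1, e13, exi.1,
      eeta.1, sub_zero] at h
    rw [h, map_one, one_mul]
  have hγ2 : 2 * (edge2 τ c ^ 3 - edge2 τ c) = PowerSeries.C (-1 : F) * PowerSeries.X := by
    have h := congrArg (edge2 τ) hc2
    rw [edge2_mul h0 h1 hs0 c2' (csub cc3 hc), e2'.2, (esub _ _).2, (esub _ _).2, e23, exi.2,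
      eeta.2, zero_sub] at h
    rw [h, map_neg, map_one, neg_mul, one_mul]
  have hcf : cf c 0 0 0 = 1 := by
    have h3 : (c - 1).coeff 0 = 0 := hc1 0 (lt_min h0 (by linarith))
    rw [HahnSeries.coeff_sub, sub_eq_zero] at h3
    unfold cf
    rw [h3, HahnSeries.coeff_one, if_pos rfl, AddMonoidAlgebra.one_def]
    exact Finsupp.single_eq_same
  have hc01 : PowerSeries.constantCoeff (edge1 τ c) = 1 := by
    rw [← PowerSeries.coeff_zero_eq_constantCoeff_apply]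
    unfold edge1
    rw [PowerSeries.coeff_mk]
    simpa using hcf
  have hc02 : PowerSeries.constantCoeff (edge2 τ c) = 1 := by
    rw [← PowerSeries.coeff_zero_eq_constantCoeff_apply]
    unfold edge2
    rw [PowerSeries.coeff_mk]
    simpa using hcf
  obtain ⟨δ1, hδ1, hδ1'⟩ := ps_root one_ne_zero hc01 hγ1
  obtain ⟨δ2, hδ2, hδ2'⟩ := ps_root (neg_ne_zero.mpr one_ne_zero) hc02 hγ2
  -- the edges of `G`
  obtain ⟨cc2, e12, e22⟩ := edge_pow h0 h1 hs0 hc 2
  obtain ⟨cA, eA1, eA2⟩ := edge_eval h0 h1 hs0 cc2 hA0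
  obtain ⟨cB, eB1, eB2⟩ := edge_eval h0 h1 hs0 cc2 hB0
  have c1b : 1 + b ∈ Cone F τ 1 := cone_add cone_one cb
  have e1' : edge1 τ (1 : HR F) = 1 ∧ edge2 τ (1 : HR F) = 1 := by
    obtain ⟨_, h3, h4⟩ := edge_pow h0 h1 hs0 hc 0
    rw [pow_zero, pow_zero] at h3 h4
    exact ⟨h3, h4⟩
  have cG : G ∈ Cone F τ 1 := by
    rw [hG]
    exact cone_add cA (cone_mul h0 h1 hs0 cB c1b)
  have hev : ∀ (y : PowerSeries F), (res A).eval₂ PowerSeries.C (y ^ 2) +
      (res B).eval₂ PowerSeries.C (y ^ 2) * (1 + y ^ 3 - y) =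
      ((res A).comp (Polynomial.X ^ 2) + (res B).comp (Polynomial.X ^ 2) *
        (1 + Polynomial.X ^ 3 - Polynomial.X)).eval₂ PowerSeries.C y := by
    intro y
    rw [Polynomial.eval₂_add, Polynomial.eval₂_mul, Polynomial.eval₂_comp, Polynomial.eval₂_comp,
      Polynomial.eval₂_pow, Polynomial.eval₂_X, Polynomial.eval₂_sub, Polynomial.eval₂_add,
      Polynomial.eval₂_one, Polynomial.eval₂_pow, Polynomial.eval₂_X]
  have hx1 : PowerSeries.C (2⁻¹ : F) * PowerSeries.X = edge1 τ c ^ 3 - edge1 τ c := by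
    rw [map_one, one_mul] at hγ1
    rw [← hγ1, ← mul_assoc]
    have : PowerSeries.C (2⁻¹ : F) * 2 = 1 := by
      have h3 : (2 : PowerSeries F) = PowerSeries.C (2 : F) := by rw [map_ofNat]
      rw [h3, ← map_mul, inv_mul_cancel₀ h2, map_one]
    rw [this, one_mul]
  have hx2 : PowerSeries.C (2⁻¹ : F) * PowerSeries.X = -(edge2 τ c ^ 3 - edge2 τ c) := by
    have h4 : (PowerSeries.X : PowerSeries F) = -(2 * (edge2 τ c ^ 3 - edge2 τ c)) := by
      rw [hγ2, map_neg, map_one]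
      ring
    have : PowerSeries.C (2⁻¹ : F) * 2 = 1 := by
      have h3 : (2 : PowerSeries F) = PowerSeries.C (2 : F) := by rw [map_ofNat]
      rw [h3, ← map_mul, inv_mul_cancel₀ h2, map_one]
    rw [h4, mul_neg, ← mul_assoc, this, one_mul]
  have eG1 : edge1 τ G = (edge1 τ c - PowerSeries.C (1 : F)) ^ e1 *
      Q1.eval₂ PowerSeries.C (edge1 τ c) := by
    rw [hG, (edge_add _ _).1, edge1_mul h0 h1 hs0 cB c1b, (edge_add _ _).1, eA1, eB1, e12, e1'.1,
      eb1, hx1]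
    have h3 := hev (edge1 τ c)
    rw [hP1, Polynomial.eval₂_mul, Polynomial.eval₂_pow, Polynomial.eval₂_sub, Polynomial.eval₂_X,
      Polynomial.eval₂_one] at h3
    rw [map_one, ← h3]
    ring
  have eG2 : edge2 τ G = (-edge2 τ c - PowerSeries.C (-1 : F)) ^ e2 *
      Q2.eval₂ PowerSeries.C (-edge2 τ c) := by
    rw [hG, (edge_add _ _).2, edge2_mul h0 h1 hs0 cB c1b, (edge_add _ _).2, eA2, eB2, e22, e1'.2,
      eb2, hx2]
    have h3 := hev (-edge2 τ c)
    rw [hP2, Polynomial.eval₂_mul, Polynomial.eval₂_pow, Polynomial.eval₂_add, Polynomial.eval₂_X,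
      Polynomial.eval₂_one] at h3
    rw [map_neg, map_one, sub_neg_eq_add, ← h3, neg_sq]
    ring
  have k1 : PowerSeries.coeff e1 (edge1 τ G) ≠ 0 := by
    refine ps_coeff (δ := δ1) ?_ hδ1' hQ1 eG1
    rw [map_one, hδ1]
  have k2 : PowerSeries.coeff e2 (edge2 τ G) ≠ 0 := by
    refine ps_coeff (δ := -δ2) ?_ ?_ hQ2 eG2
    · rw [map_neg, map_one, mul_neg, ← hδ2]
      ring
    · rw [map_neg]
      exact neg_ne_zero.mpr hδ2'
  unfold edge1 at k1
  unfold edge2 at k2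
  rw [PowerSeries.coeff_mk] at k1 k2
  exact ⟨e1, e2, he, cG, k1, k2⟩

theorem noY_pow {x : HR F} (hx : ∀ a i j, cf x a i j ≠ 0 → j = 0) (n : ℕ) :
    ∀ a i j, cf (x ^ n) a i j ≠ 0 → j = 0 := by
  classical
  induction n with
  | zero =>
    intro a i j h
    rw [pow_zero] at h
    have h1 : (1 : HR F) = tz F 0 0 0 := rfl
    rw [h1, CR.cf_tz'] at h
    by_contra hj
    apply h
    rw [if_neg (fun h3 => hj h3.2.2)]
  | succ n ih =>
    intro a i j h
    rw [pow_succ] at h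
    obtain ⟨a1, a2, i1, i2, j1, j2, _, _, hj, k1, k2⟩ := Root.cf_mul_ne h
    rw [← hj, ih _ _ _ k1, hx _ _ _ k2, add_zero]

end Pool.Agent.L7h91.TW
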