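import Pool.Agent.L7h91.TW.StepC

/-!
# The step for simplices
-/

set_option autoImplicit false

namespace Pool.Agent.L7h91.TW

open Finset Pool.Agent.TH603.EL Pool.Agent.TH3.IR

/-- the left slopes after the step; `s` are the sums of the slopes, `u = 2 s l` -/
noncomputable def sm {σ : Type} [DecidableEq σ] (s : σ → ℝ) (q l : σ) (τ a : ℝ) : σ → ℝ :=
  Function.update (Function.update (fun i => 2 * s i * (τ + a / (2 * s l))) q
    (4 * s q * (τ + a / (2 * s l)))) l (2 * s l * τ + (2 + 1 / (2 * s l)) * a)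

theorem sm_l {σ : Type} [DecidableEq σ] (s : σ → ℝ) (q l : σ) (τ a : ℝ) :
    sm s q l τ a l = 2 * s l * τ + (2 + 1 / (2 * s l)) * a := by
  unfold sm
  rw [Function.update_self]

theorem sm_q {σ : Type} [DecidableEq σ] (s : σ → ℝ) {q l : σ} (hql : q ≠ l) (τ a : ℝ) :
    sm s q l τ a q = 4 * s q * (τ + a / (2 * s l)) := by
  unfold sm
  rw [Function.update_of_ne hql, Function.update_self]

theorem sm_i {σ : Type} [DecidableEq σ] (s : σ → ℝ) {q l i : σ} (hq : i ≠ q) (hl : i ≠ l)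
    (τ a : ℝ) : sm s q l τ a i = 2 * s i * (τ + a / (2 * s l)) := by
  unfold sm
  rw [Function.update_of_ne hl, Function.update_of_ne hq]

/-- the step in the right position -/
theorem EmpS_twist0 {ι σ : Type} [Fintype σ] [DecidableEq σ] {w : ι → ℕ} {L R : ℝ} {μ ν : σ → ℝ}
    (hL : 0 ≤ L) (hμ : ∀ i, 0 ≤ μ i) (hν : ∀ i, 0 ≤ ν i) {q l : σ} (hql : q ≠ l)
    (hq : 3 / 2 ≤ ν q) (hl : 1 / 2 ≤ ν l) {τ a : ℝ} (h0 : 0 < τ) (hτa : τ < a) (ha : a < 1)
    {s : σ → ℝ} (hs : ∀ i, μ i + ν i = s i) {W : ℝ} (hW : R - L = W)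
    (h : EmpS w (RegS (-(2 * W * (τ + a / (2 * s l)))) (2 * W * (1 - τ + (1 - a) / (2 * s l)))
      (sm s q l τ a) (sm s q l (1 - τ) (1 - a)))) : EmpS w (RegS L R μ ν) := by
  have hsl : 0 < s l := by
    have := hμ l
    rw [← hs]
    linarith
  have ht : 0 < 2 * s l := by linarith
  refine EmpS_core hL hμ hν q l hql hq hl h0 (ρ := 1 - a + τ) (by linarith) (by linarith) _ ?_ h
  intro c j k D i W' hc hcq hcl hW' hk hi1 hi2
  simp only [hs] at hW' hk hi1 hi2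
  obtain ⟨t, ht'⟩ : ∃ t, t = 2 * s l := ⟨_, rfl⟩
  rw [← ht'] at ht
  have hsl' : s l = t / 2 := by rw [ht']; ring
  obtain ⟨Cs, hCs⟩ : ∃ Cs, Cs = ∑ i ∈ (univ.erase q).erase l, s i * (c i : ℝ) := ⟨_, rfl⟩
  have hRL : R - L - Cs = W - Cs := by rw [hW]
  rw [← hCs, hRL] at hW'
  rw [hsl'] at hk hi1 hi2
  -- the bound for `D`
  have hD : (D : ℝ) ≤ (2 * W' - k) / t := by
    rw [le_div_iff₀ ht]
    linarith
  have e1 : (1 - (1 - a + τ) + τ : ℝ) = a := by ring
  have e2 : (1 - a + τ - τ : ℝ) = 1 - a := by ring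
  rw [e1] at hi2
  rw [e2] at hi1
  have hgam : ∀ f : σ → ℝ, ∑ x, f x * (gam q l c j k x : ℝ) = f q * j + f l * k +
      ∑ x ∈ (univ.erase q).erase l, f x * (c x : ℝ) := by
    intro f
    rw [sum_split q l hql]
    unfold gam
    simp only [Pi.add_apply, Pi.single_eq_same, Pi.single_eq_of_ne hql,
      Pi.single_eq_of_ne hql.symm, hcq, hcl]
    push_cast
    rw [zero_add, zero_add, add_zero, zero_add]
    congr 1
    refine Finset.sum_congr rfl fun x hx => ?_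
    rw [Finset.mem_erase, Finset.mem_erase] at hx
    rw [Pi.single_eq_of_ne hx.2.1, Pi.single_eq_of_ne hx.1]
    push_cast
    ring
  have hsum : ∀ τ a : ℝ, ∑ x, sm s q l τ a x * (gam q l c j k x : ℝ) =
      4 * s q * (τ + a / t) * j + (t * τ + (2 + 1 / t) * a) * k + 2 * (τ + a / t) * Cs := by
    intro τ a
    rw [hgam, sm_q s hql, sm_l, ← ht', hCs, Finset.mul_sum]
    congr 1
    refine Finset.sum_congr rfl fun x hx => ?_
    rw [Finset.mem_erase, Finset.mem_erase] at hx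
    rw [sm_i s hx.2.1 hx.1, ← ht']
    ring
  refine ⟨?_, ?_, ?_⟩
  · intro x
    show 0 ≤ gam q l c j k x
    unfold gam
    simp only [Pi.add_apply]
    have h1 := hc x
    have h2 : (0 : ℤ) ≤ (Pi.single q (j : ℤ) : σ → ℤ) x := by
      by_cases hx : x = q
      · subst hx
        rw [Pi.single_eq_same]
        exact Int.natCast_nonneg j
      · rw [Pi.single_eq_of_ne hx]
    have h3 : (0 : ℤ) ≤ (Pi.single l (k : ℤ) : σ → ℤ) x := by
      by_cases hx : x = l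
      · subst hx
        rw [Pi.single_eq_same]
        exact Int.natCast_nonneg k
      · rw [Pi.single_eq_of_ne hx]
    omega
  · show -(2 * W * (τ + a / (2 * s l))) + ∑ x, sm s q l τ a x * (gam q l c j k x : ℝ) ≤ (i : ℝ)
    rw [hsum, ← ht']
    have h1 := mul_le_mul_of_nonneg_left hD (by linarith : 0 ≤ a)
    have h2 : a * ((2 * W' - k) / t) = 2 * W' * (a / t) - k * (a * (1 / t)) := by ring
    rw [h2] at h1
    rw [hW'] at h1 hi2
    have h3 : a / t = a * (1 / t) := by ring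
    rw [h3] at h1 ⊢
    nlinarith
  · show (i : ℝ) ≤ 2 * W * (1 - τ + (1 - a) / (2 * s l)) -
      ∑ x, sm s q l (1 - τ) (1 - a) x * (gam q l c j k x : ℝ)
    rw [hsum, ← ht']
    have h1 := mul_le_mul_of_nonneg_left hD (by linarith : 0 ≤ 1 - a)
    have h2 : (1 - a) * ((2 * W' - k) / t) = 2 * W' * ((1 - a) / t) - k * ((1 - a) * (1 / t)) := by
      ring
    rw [h2] at h1
    rw [hW'] at h1 hi1
    have h3 : (1 - a) / t = (1 - a) * (1 / t) := by ring
    rw [h3] at h1 ⊢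
    nlinarith

/-- the step -/
theorem EmpS_twist {ι σ : Type} [Fintype σ] [DecidableEq σ] {w : ι → ℕ} {L R : ℝ} {μ ν : σ → ℝ}
    (hμ : ∀ i, 0 ≤ μ i) (hν : ∀ i, 0 ≤ ν i) {q l : σ} (hql : q ≠ l)
    (hq : 5 / 2 ≤ μ q + ν q ∨ 3 / 2 ≤ ν q) (hl : 3 / 2 ≤ μ l + ν l) {τ a : ℝ} (h0 : 0 < τ)
    (hτa : τ < a) (ha : a < 1)
    {s : σ → ℝ} (hs : ∀ i, μ i + ν i = s i) {W : ℝ} (hW : R - L = W)
    (h : EmpS w (RegS (-(2 * W * (τ + a / (2 * s l)))) (2 * W * (1 - τ + (1 - a) / (2 * s l)))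
      (sm s q l τ a) (sm s q l (1 - τ) (1 - a)))) : EmpS w (RegS L R μ ν) := by
  obtain ⟨p, hp1, hp2⟩ : ∃ p : ℤ, 0 ≤ μ q + p ∧ 3 / 2 ≤ ν q - p := by
    rcases hq with hq | hq
    · refine ⟨⌈-μ q⌉, ?_, ?_⟩
      · have := Int.le_ceil (-μ q)
        linarith
      · have := Int.ceil_lt_add_one (-μ q)
        linarith
    · exact ⟨0, by simpa using hμ q, by simpa using hq⟩
  obtain ⟨p', hp1', hp2'⟩ : ∃ p : ℤ, 0 ≤ μ l + p ∧ 1 / 2 ≤ ν l - p := by
    refine ⟨⌈-μ l⌉, ?_, ?_⟩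
    · have := Int.le_ceil (-μ l)
      linarith
    · have := Int.ceil_lt_add_one (-μ l)
      linarith
  obtain ⟨P, hP⟩ : ∃ P : σ → ℤ, P = Pi.single q p + Pi.single l p' := ⟨_, rfl⟩
  have hPq : P q = p := by
    rw [hP, Pi.add_apply, Pi.single_eq_same, Pi.single_eq_of_ne hql, add_zero]
  have hPl : P l = p' := by
    rw [hP, Pi.add_apply, Pi.single_eq_same, Pi.single_eq_of_ne hql.symm, zero_add]
  have hPi : ∀ i, i ≠ q → i ≠ l → P i = 0 := by
    intro i h1 h2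
    rw [hP, Pi.add_apply, Pi.single_eq_of_ne h1, Pi.single_eq_of_ne h2, add_zero]
  obtain ⟨u, hu⟩ : ∃ u : ℤ, 0 ≤ L + u := ⟨⌈-L⌉, by
    have := Int.le_ceil (-L)
    linarith⟩
  have h' : EmpS w (RegS (L + u) (R + u) (fun i => μ i + P i) (fun i => ν i - P i)) := by
    refine EmpS_twist0 hu (fun i => ?_) (fun i => ?_) hql ?_ ?_ h0 hτa ha (s := s)
      (fun i => by rw [← hs]; ring) (W := W) (by rw [← hW]; ring) h
    · show 0 ≤ μ i + (P i : ℝ)
      by_cases h1 : i = q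
      · subst h1
        rw [hPq]
        exact hp1
      · by_cases h2 : i = l
        · subst h2
          rw [hPl]
          exact hp1'
        · rw [hPi i h1 h2, Int.cast_zero, add_zero]
          exact hμ i
    · show 0 ≤ ν i - (P i : ℝ)
      by_cases h1 : i = q
      · subst h1
        rw [hPq]
        linarith
      · by_cases h2 : i = l
        · subst h2
          rw [hPl]
          linarith
        · rw [hPi i h1 h2, Int.cast_zero, sub_zero]
          exact hν i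
    · show 3 / 2 ≤ ν q - (P q : ℝ)
      rw [hPq]
      exact hp2
    · show 1 / 2 ≤ ν l - (P l : ℝ)
      rw [hPl]
      exact hp2'
  refine h'.comap 1 (Or.inl rfl) P u ?_
  rintro ⟨x, y⟩ ⟨k1, k2, k3⟩
  simp only at k1 k2 k3
  refine ⟨k1, ?_, ?_⟩
  · show L + (u : ℝ) + ∑ i, (μ i + (P i : ℝ)) * (y i : ℝ) ≤
      ((1 * x + ∑ i, P i * y i + u : ℤ) : ℝ)
    have e : ∑ i, (μ i + (P i : ℝ)) * (y i : ℝ) = ∑ i, μ i * (y i : ℝ) +
        ∑ i, (P i : ℝ) * (y i : ℝ) := by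
      rw [← Finset.sum_add_distrib]
      exact Finset.sum_congr rfl fun i _ => by ring
    rw [e]
    push_cast
    linarith
  · show ((1 * x + ∑ i, P i * y i + u : ℤ) : ℝ) ≤
      R + (u : ℝ) - ∑ i, (ν i - (P i : ℝ)) * (y i : ℝ)
    have e : ∑ i, (ν i - (P i : ℝ)) * (y i : ℝ) = ∑ i, ν i * (y i : ℝ) -
        ∑ i, (P i : ℝ) * (y i : ℝ) := by
      rw [← Finset.sum_sub_distrib]
      exact Finset.sum_congr rfl fun i _ => by ring
    rw [e]
    push_cast
    linarith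

end Pool.Agent.L7h91.TW
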