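import Pool.Agent.L7h91.TW.Asm

/-!
# Emptiness on the simplex, exactly up to the bound
-/

set_option autoImplicit false

namespace Pool.Agent.L7h91.TW

open Finset Pool.Agent.TH603.EL Pool.Agent.TH3.IR Pool.Agent.L7h91.IR

/-- emptiness on the simplex of size `d` in dimension `card σ + 1 ≥ 3` -/
theorem EmpS_simplexX {ι σ : Type} [Fintype ι] [Fintype σ] (hσ : 2 ≤ Fintype.card σ)
    {w : ι → ℕ} {β : ℝ}
    (hβ0 : 2 ≤ β) (hβ : 2 * (1 + 1 / (8 * β ^ (Fintype.card σ - 2))) ≤ β)
    (hk : β ^ (Fintype.card σ + 1) = Fintype.card ι)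
    (d : ℕ) (hw : β ^ Fintype.card σ * d < ∑ i, (w i : ℝ)) :
    EmpS w (RegS (0 : ℝ) d (fun _ : σ => 0) (fun _ => 1)) := by
  classical
  obtain ⟨l, q, hlq⟩ : ∃ l q : σ, l ≠ q := by
    have : 1 < Fintype.card σ := by omega
    exact Fintype.one_lt_card_iff.1 this
  have e1 : RegS (0 : ℝ) ((d * (0 + ((2 : ℤ) : ℝ)) - 0 * (((2 : ℤ) : ℝ) - 1)) / (0 + 1))
      (Function.update (fun _ : σ => (0 : ℝ)) l (0 + ((2 : ℤ) : ℝ)))
      (Function.update (fun _ : σ => ((1 : ℝ) * (0 + ((2 : ℤ) : ℝ)) + 0 * (((2 : ℤ) : ℝ) - 1)) / (0 + 1)) l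
        ((0 + ((2 : ℤ) : ℝ)) * (((2 : ℤ) : ℝ) - 1) / (0 + 1))) =
      RegS (0 : ℝ) (2 * d) (Function.update (fun _ : σ => (0 : ℝ)) l 2) (fun _ => 2) := by
    congr 1
    · push_cast
      ring
    · norm_num
    · funext i
      by_cases hi : i = l
      · subst hi
        rw [Function.update_self]
        norm_num
      · rw [Function.update_of_ne hi]
        norm_num
  refine EmpS_flat (fun _ => le_refl _) (fun _ => zero_le_one) l (by norm_num)
    (fun _ => by norm_num) 2 (by norm_num) ?_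
  rw [e1]
  have hμ : ∀ i, 0 ≤ Function.update (fun _ : σ => (0 : ℝ)) l 2 i := by
    intro i
    by_cases hi : i = l
    · subst hi
      rw [Function.update_self]
      norm_num
    · rw [Function.update_of_ne hi]
  have hsl : ∀ i, Function.update (fun _ : σ => (0 : ℝ)) l 2 i + 2 = sl β l ∅ i := by
    intro i
    unfold Pool.Agent.L7h91.IR.sl
    rw [Finset.card_empty]
    by_cases hi : i = l
    · subst hi
      rw [Function.update_self, if_pos rfl]
      norm_num
    · rw [Function.update_of_ne hi, if_neg hi, if_neg (by simp)]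
      norm_num
  by_cases h2 : Fintype.card σ = 2
  · refine baseX hβ0 hβ hk d hw l q hlq ∅ (by simp) (by simp)
      (by rw [Finset.card_empty]; omega) 0 (2 * d) _ _ hμ (fun _ => by norm_num) ?_ hsl
      (Or.inl (by norm_num))
    rw [Finset.card_empty]
    ring
  · refine run_gen hβ0 d l q hlq ?_
      (Fintype.card σ - 2) ∅ (by simp) (by simp)
      (by rw [Finset.card_empty]; omega) 0 (2 * d) _ _ hμ (fun _ => by norm_num) ?_ hsl ?_ ?_
    · intro T h3 h4 h5 L R μ ν h6 h7 h8 h9 _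
      exact baseX hβ0 hβ hk d hw l q hlq T h3 h4 h5 L R μ ν h6 h7 h8 h9 (Or.inr (by omega))
    · rw [Finset.card_empty]
      ring
    · exact ⟨2, by norm_num⟩
    · intro j _ _ τ h0 h1 h
      exact NodalAux.nodal_pos le_rfl hμ (fun _ => by norm_num) j (by norm_num) h0 h1 h

end Pool.Agent.L7h91.TW
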