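import Pool.Agent.L7h91.TW.Dec

/-!
# Auxiliary facts for the step
-/

set_option autoImplicit false

namespace Pool.Agent.L7h91.TW

open Finset Pool.Agent.TH603.EL Pool.Agent.TH3.IR Pool.Agent.TH3.IR.Comap

theorem ex_of_dvd {R : Type*} [CommRing R] {d a b : R} (h : d ∣ a - b) : ∃ r, a = b + d * r := by
  obtain ⟨r, hr⟩ := h
  exact ⟨r, by rw [← hr]; ring⟩

section

variable {F : Type} [Field F] {σ : Type}

theorem e0_ne [Fintype σ] {x : F} {y : σ → F} (hx : x ≠ 0) (hy : ∀ i, y i ≠ 0) {u : HR F} {a : ℝ}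
    {p : ℤ} {cx : F} (hu : Ld u a p cx) (hcx : cx ≠ 0) : E0 x y hx hy (io F σ u) ≠ 0 := by
  intro h
  have h1 := congrArg (fun v : HK F => v.coeff a) h
  simp only [HahnSeries.coeff_zero] at h1
  rw [E0_coeff] at h1
  have h2 : (io F σ u).coeff a = AddMonoidAlgebra.single (p, (0 : σ → ℤ)) cx := by
    show (AddMonoidAlgebra.mapDomainRingHom F (gh σ)) (u.coeff a) = _
    rw [hu.2]
    simp [gh]
  rw [h2, evS_single] at h1
  rcases mul_eq_zero.1 h1 with h3 | h3
  · exact hcx h3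
  · unfold ch at h3
    simp at h3
    exact (zpow_ne_zero p hx) h3

theorem Mo_single_pow [DecidableEq σ] (i : σ) (n : ℕ) :
    Mo F (Pi.single i 1) ^ n = Mo F (Pi.single i (n : ℤ)) := by
  rw [← Mo_nsmul]
  congr 1
  funext j
  by_cases h : j = i
  · subst h
    simp
  · simp [Pi.single_eq_of_ne h]

theorem Mo_prod [Fintype σ] [DecidableEq σ] {c : σ → ℤ} (hc : ∀ i, 0 ≤ c i) :
    ∏ i, Mo F (Pi.single i 1) ^ (c i).toNat = Mo F c := by
  have h1 : ∀ s : Finset σ, ∏ i ∈ s, Mo F (Pi.single i 1) ^ (c i).toNat =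
      Mo F (fun i => if i ∈ s then c i else 0) := by
    intro s
    induction s using Finset.induction_on with
    | empty =>
      rw [Finset.prod_empty, ← Mo_zero]
      congr 1
    | insert a s ha ih =>
      rw [Finset.prod_insert ha, ih, Mo_single_pow, ← Mo_add]
      congr 1
      funext j
      rw [Pi.add_apply]
      by_cases h : j = a
      · subst h
        rw [Pi.single_eq_same, if_neg ha, if_pos (Finset.mem_insert_self j s), add_zero,
          Int.toNat_of_nonneg (hc j)]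
      · rw [Pi.single_eq_of_ne h, zero_add]
        by_cases h2 : j ∈ s
        · rw [if_pos h2, if_pos (Finset.mem_insert_of_mem h2)]
        · rw [if_neg h2, if_neg (by rw [Finset.mem_insert]; tauto)]
  rw [h1]
  congr 1
  funext i
  rw [if_pos (mem_univ i)]

theorem Fs_top {R : Type*} [CommRing R] [IsDomain R] {N : ℕ} {φ : ℕ → R} {g : R} (hg : g ≠ 0)
    (h : ∃ n ≤ N, φ n ≠ 0) : ∃ D ≤ N, φ D ≠ 0 ∧ (∀ k, Fs N φ g k = Fs D φ g k) ∧
      Fs N φ g D ≠ 0 := by
  classical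
  obtain ⟨n0, hn0, hn1⟩ := h
  obtain ⟨D, hD⟩ : ∃ D, D = Nat.findGreatest (fun n => φ n ≠ 0) N := ⟨_, rfl⟩
  have h1 : D ≤ N := by rw [hD]; exact Nat.findGreatest_le N
  have h2 : φ D ≠ 0 := by
    rw [hD]
    exact Nat.findGreatest_spec (P := fun n => φ n ≠ 0) hn0 hn1
  have h3 : ∀ n, D < n → n ≤ N → φ n = 0 := by
    intro n hn hnN
    by_contra hc
    have := Nat.le_findGreatest (P := fun n => φ n ≠ 0) hnN hc
    omega
  have h4 : ∀ k, Fs N φ g k = Fs D φ g k := by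
    intro k
    unfold Fs
    symm
    apply Finset.sum_subset (Finset.range_subset_range.2 (by omega))
    intro n hn hn'
    rw [mem_range] at hn hn'
    rw [h3 n (by omega) (by omega)]
    ring
  refine ⟨D, h1, h2, h4, ?_⟩
  rw [h4]
  unfold Fs
  rw [Finset.sum_eq_single D]
  · rw [Nat.choose_self, Nat.cast_one, one_mul]
    exact mul_ne_zero h2 (pow_ne_zero _ hg)
  · intro n hn hnD
    rw [mem_range] at hn
    rw [Nat.choose_eq_zero_of_lt (by omega)]
    simp
  · intro h5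
    exact absurd (mem_range.2 (by omega)) h5

theorem Fs_gt {R : Type*} [CommRing R] {D : ℕ} {φ : ℕ → R} {g : R} {k : ℕ} (h : D < k) :
    Fs D φ g k = 0 := by
  unfold Fs
  apply Finset.sum_eq_zero
  intro n hn
  rw [mem_range] at hn
  rw [Nat.choose_eq_zero_of_lt (by omega)]
  simp

theorem Fs_NY {D : ℕ} {φ : ℕ → HR F} {g : HR F} (hφ : ∀ n, NY (φ n)) (hg : NY g) (k : ℕ) :
    NY (Fs D φ g k) := by
  unfold Fs
  exact NY.sum fun n _ => ((NY.natCast _).mul (hφ n)).mul (hg.pow n)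

variable [CharZero F]

theorem pv_ne {τ : ℝ} (h0 : 0 < τ) (h1 : τ < 1) {c b : HR F} (hT : IsT τ c b)
    {A B : Polynomial (HK F)} (hne : A ≠ 0 ∨ B ≠ 0) : pv c b A B ≠ 0 := by
  obtain ⟨R, hR⟩ : ∃ R : ℝ, (∀ n ∈ A.support, (n : ℝ) ≤ R) ∧
      (∀ n ∈ B.support, (n : ℝ) ≤ R - 3 / 2) := by
    refine ⟨A.natDegree + B.natDegree + 3 / 2, fun n hn => ?_, fun n hn => ?_⟩
    · have : (n : ℝ) ≤ A.natDegree := by
        exact_mod_cast Polynomial.le_natDegree_of_mem_supp n hn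
      have : (0 : ℝ) ≤ B.natDegree := Nat.cast_nonneg _
      linarith
    · have : (n : ℝ) ≤ B.natDegree := by
        exact_mod_cast Polynomial.le_natDegree_of_mem_supp n hn
      have : (0 : ℝ) ≤ A.natDegree := Nat.cast_nonneg _
      linarith
  obtain ⟨β, e1, e2, _, _, _, h3, _⟩ := pair_norm h0 h1 hT (L := 0) (R := R) hne
    (fun n hn => ⟨Nat.cast_nonneg n, hR.1 n hn⟩)
    (fun n hn => ⟨by rw [add_zero]; exact Nat.cast_nonneg n, hR.2 n hn⟩)
  intro h
  rw [h] at h3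
  exact h3 (by simp [cf])

theorem evt_pair (c b : HR F) (A B : Polynomial (HK F)) :
    SN.evt c b (Polynomial.C A + Polynomial.C B * Polynomial.X) = pv c b A B := by
  rw [map_add, map_mul, SN.evt_C, SN.evt_C, SN.evt_X]
  rfl

theorem ld_v0 {τ : ℝ} (h0 : 0 < τ) (h1 : τ < 1) {c b : HR F} (hT : IsT τ c b) :
    Ld (v0 c) 1 0 2 := by
  have h2 : Ld (3 * c ^ 2 - 1) 0 0 (2 : F) := by
    obtain ⟨m, hm, h3⟩ := ((nc h0 h1 hT).pow 2).low
    have e : (3 * c ^ 2 - 1 : HR F) = 2 + (c ^ 2 - 1) * 3 := by ring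
    have l3 : Low (3 : HR F) 0 := by
      have e3 : (3 : HR F) = incl (HahnSeries.C (3 : F)) := by rw [map_ofNat, map_ofNat]
      rw [e3]
      exact (low_single 0 (3 : F)).incl
    have l4 := h3.mul l3
    rw [add_zero] at l4
    rw [e]
    refine ⟨(ld_two (F := F)).1.add (l4.mono hm.le), ?_⟩
    rw [HahnSeries.coeff_add, l4 0 hm, add_zero]
    exact (ld_two (F := F)).2
  have h3 := (Ld.tz (F := F) 1 0).mul h2
  rw [add_zero, add_zero, one_mul] at h3
  exact h3

theorem NY_c {τ : ℝ} {c b : HR F} (hT : IsT τ c b) : NY c := hT.noY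

theorem NY_hf : NY (hf F) := NY.incl _

theorem NY_b {τ : ℝ} {c b : HR F} (hT : IsT τ c b) : NY b := by
  have e : b = hf F * (xi F τ + et F τ) := by
    rw [← hT.b_eq, ← mul_assoc, mul_comm (hf F) 2, two_hf, one_mul]
  rw [e]
  exact NY_hf.mul ((NY.tz _ _).add (NY.tz _ _))

theorem NY_pv {τ : ℝ} {c b : HR F} (hT : IsT τ c b) (A B : Polynomial (HK F)) :
    NY (pv c b A B) := by
  unfold pv
  exact (NY.poly ((NY_c hT).pow 2) A).add ((NY.poly ((NY_c hT).pow 2) B).mul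
    (NY.one.add (NY_b hT)))

theorem NY_v0 {τ : ℝ} {c b : HR F} (hT : IsT τ c b) : NY (v0 c) := by
  unfold v0
  refine (NY.tz _ _).mul (NY.sub ?_ NY.one)
  have e : (3 * c ^ 2 : HR F) = c ^ 2 + c ^ 2 + c ^ 2 := by ring
  rw [e]
  have := (NY_c hT).pow 2
  exact (this.add this).add this

/-- an element with monomial leading coefficient is a unit -/
theorem Ld.unit {X : HR F} {x0 : ℝ} {p : ℤ} (hX : Ld X x0 p 1) : IsUnit X := by
  obtain ⟨Y, hY⟩ : ∃ Y, Y = Pool.Agent.TH603.EL.tz F (-x0) (-p) 0 * X := ⟨_, rfl⟩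
  have hYl : Ld Y 0 0 1 := by
    have h := (Ld.tz (F := F) (-x0) (-p)).mul hX
    rw [neg_add_cancel, neg_add_cancel, one_mul] at h
    rw [hY]
    exact h
  have h1 : 0 < (Y - 1).orderTop := by
    by_cases h0 : Y - 1 = 0
    · rw [h0, HahnSeries.orderTop_zero]
      exact WithTop.top_pos
    · rw [HahnSeries.zero_lt_orderTop_iff h0]
      by_contra hc
      push Not at hc
      apply HahnSeries.coeff_order_eq_zero.not.2 h0
      rw [HahnSeries.coeff_sub, HahnSeries.coeff_one]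
      rcases lt_or_eq_of_le hc with h2 | h2
      · rw [hYl.1 _ h2, if_neg h2.ne, sub_zero]
      · rw [h2, hYl.2, if_pos rfl]
        exact sub_self _
  have h2 : IsUnit Y := HahnSeries.isUnit_of_orderTop_pos h1
  rw [hY] at h2
  exact isUnit_of_mul_isUnit_right h2

/-- the quotient -/
theorem exists_g {τ ρ : ℝ} (h0 : 0 < τ) (hτρ : τ < ρ) (hρ : ρ < 1) {c b : HR F} {cp bp : HK F}
    (hT : IsT τ c b) (hp : IsPt ρ cp bp) :
    ∃ g : HR F, g * (dat hT hp).V = (dat hT hp).U ∧ NY g ∧ Ld g 0 0 1 := by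
  have lV := ldV h0 hτρ hρ hT hp
  have lU := ldU h0 hτρ hρ hT hp
  obtain ⟨u, hu⟩ := lV.unit
  have nyw : NY (dat hT hp).w := by
    show NY (hf F * (c + incl cp))
    exact NY_hf.mul ((NY_c hT).add (NY.incl _))
  have nyq : NY (dat hT hp).q := by
    show NY (hf F * (c ^ 2 + c * incl cp + incl cp ^ 2 - 1))
    exact NY_hf.mul (((((NY_c hT).pow 2).add ((NY_c hT).mul (NY.incl _))).add
      ((NY.incl _).pow 2)).sub NY.one)
  have nyV : NY (dat hT hp).V := by
    show NY ((tz F τ 1 0 - tz F ρ 0 0) * _)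
    exact ((NY.tz _ _).sub (NY.tz _ _)).mul nyw
  have nyU : NY (dat hT hp).U := by
    show NY ((tz F τ 1 0 + tz F ρ 0 0) * _)
    exact ((NY.tz _ _).add (NY.tz _ _)).mul nyq
  obtain ⟨g, hg⟩ : ∃ g, g = prY F ((dat hT hp).U * (↑u⁻¹ : HR F)) := ⟨_, rfl⟩
  have hgV : g * (dat hT hp).V = (dat hT hp).U := by
    have h1 : (dat hT hp).U * (↑u⁻¹ : HR F) * (dat hT hp).V = (dat hT hp).U := by
      rw [← hu, mul_assoc, Units.inv_mul, mul_one]
    have h2 := congrArg (prY F) h1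
    rw [map_mul, prY_of_NY nyV, prY_of_NY nyU, ← hg] at h2
    exact h2
  have hny : NY g := by rw [hg]; exact NY_prY _
  refine ⟨g, hgV, hny, ?_⟩
  have e1 : (dat hT hp).U * 1 = (dat hT hp).V * g := by rw [mul_one, ← hgV, mul_comm]
  have hlow : Low g 0 := by
    have h := lead_div lU one_ne_zero lV one_ne_zero e1 (α := 0) (i := 0) (j := 0)
      (Ld.one (F := F)).1 (by
        unfold cf
        rw [(Ld.one (F := F)).2]
        simp)
    have := h.1
    rwa [zero_add, sub_self] at this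
  refine ⟨hlow, ?_⟩
  have h3 : ((dat hT hp).V * g).coeff (τ + 0) = (dat hT hp).U.coeff τ := by
    rw [add_zero, ← e1, mul_one]
  rw [lV.1.coeff_mul hlow, lV.2, lU.2] at h3
  have h4 : (AddMonoidAlgebra.single (1, 0) 1 : Pool.Agent.TH603.EL.Lau F) ≠ 0 := by
    intro h
    have h5 := congrArg (fun f : Pool.Agent.TH603.EL.Lau F => f.coeff (1, 0)) h
    simp at h5
  apply mul_left_cancel₀ h4
  rw [h3, AddMonoidAlgebra.single_mul_single]
  simp

end

end Pool.Agent.L7h91.TW
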