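import Pool.Agent.L7h91.TW.StepA
import Pool.Agent.TH3.IR.SStep

/-!
# The step
-/

set_option autoImplicit false

namespace Pool.Agent.L7h91.TW

open Finset Pool.Agent.TH603.EL Pool.Agent.TH3.IR Pool.Agent.TH3.IR.Comap

/-- clearing denominators -/
theorem clear {A K : Type} [CommRing A] [IsDomain A] [Field K] [Algebra A K] [IsFractionRing A K]
    {σ : Type} [Fintype σ] (f : (ℤ × (σ → ℤ)) →₀ K) (hf : f ≠ 0) :
    ∃ f' : (ℤ × (σ → ℤ)) →₀ A, f' ≠ 0 ∧ f'.support ⊆ f.support ∧
      ∀ (x : K) (y : σ → K) (w : ℕ), LMS f x y w →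
        LMS (f'.mapRange (algebraMap A K) (map_zero _)) x y w := by
  classical
  obtain ⟨d, hd⟩ := IsLocalization.exist_integer_multiples (nonZeroDivisors A) f.support f
  have hex : ∀ m, ∃ p : A, algebraMap A K p = algebraMap A K d * f m ∧ (f m = 0 → p = 0) := by
    intro m
    by_cases hm : m ∈ f.support
    · obtain ⟨p, hp⟩ := hd m hm
      refine ⟨p, ?_, fun h => absurd h (Finsupp.mem_support_iff.1 hm)⟩
      rw [hp, Algebra.smul_def]
    · rw [Finsupp.notMem_support_iff] at hm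
      exact ⟨0, by rw [hm, mul_zero, map_zero], fun _ => rfl⟩
  choose p hp1 hp2 using hex
  have hd0 : algebraMap A K d ≠ 0 := by
    intro h
    exact nonZeroDivisors.coe_ne_zero d ((IsFractionRing.injective A K) (h.trans (map_zero _).symm))
  obtain ⟨f', hf'⟩ : ∃ f' : (ℤ × (σ → ℤ)) →₀ A, ∀ m, f' m = p m :=
    ⟨Finsupp.onFinset f.support p (fun m hm => by
      rw [Finsupp.mem_support_iff]
      exact fun h => hm (hp2 m h)), fun m => rfl⟩
  refine ⟨f', ?_, ?_, ?_⟩
  · intro h0
    obtain ⟨m, hm⟩ := Finsupp.ne_iff.1 hf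
    rw [Finsupp.zero_apply] at hm
    have h1 := hp1 m
    rw [← hf', h0, Finsupp.zero_apply, map_zero] at h1
    rcases mul_eq_zero.1 h1.symm with h2 | h2
    · exact hd0 h2
    · exact hm h2
  · intro m hm
    rw [Finsupp.mem_support_iff, hf'] at hm
    rw [Finsupp.mem_support_iff]
    exact fun h => hm (hp2 m h)
  · intro x y w h α γ hw
    have e : f'.mapRange (algebraMap A K) (map_zero _) = (algebraMap A K d) • f := by
      ext m
      rw [Finsupp.mapRange_apply, hf', hp1, Finsupp.smul_apply, smul_eq_mul]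
    rw [e, SStep.mo_smul, h α γ hw, mul_zero]

section main

variable {F : Type} [Field F] [CharZero F] {σ : Type} [Fintype σ] [DecidableEq σ]

/-- the exponent of the monomial -/
def gam (q l : σ) (c : σ → ℤ) (j k : ℕ) : σ → ℤ := c + (Pi.single q (j : ℤ) + Pi.single l (k : ℤ))

theorem gam_inj {q l : σ} (hql : q ≠ l) {c c' : σ → ℤ} {j j' k k' : ℕ} (hq : c q = 0)
    (hq' : c' q = 0) (hl : c l = 0) (hl' : c' l = 0) (h : gam q l c j k = gam q l c' j' k') :
    c = c' ∧ j = j' ∧ k = k' := by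
  have h1 := congrFun h q
  have h2 := congrFun h l
  unfold gam at h1 h2
  simp only [Pi.add_apply, Pi.single_eq_same, Pi.single_eq_of_ne hql,
    Pi.single_eq_of_ne hql.symm, hq, hq', hl, hl', zero_add, add_zero] at h1 h2
  have h3 : j = j' := by exact_mod_cast h1
  have h4 : k = k' := by exact_mod_cast h2
  refine ⟨?_, h3, h4⟩
  rw [h3, h4] at h
  exact add_right_cancel h

/-- the data -/
noncomputable def sdE (σ : Type) [Fintype σ] [DecidableEq σ] (q l : σ) (S : ℕ) (τ : ℝ)
    (c b g : HR F) : SD F (Re F σ) where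
  j := (Polynomial.C : Rt F σ →+* Re F σ).comp (io F σ)
  ε := Polynomial.X
  mq := Polynomial.C (Mo F (Pi.single q 1))
  ml := Polynomial.C (Mo F (Pi.single l 1))
  S := S
  τ := τ
  c := c
  b := b
  g := g

/-- the passive coordinates -/
noncomputable def pasE (F : Type) [Field F] (σ : Type) [DecidableEq σ] (i : σ) : Re F σ :=
  Polynomial.C (Mo F (Pi.single i 1))

/-- the combinatorial core: the first coefficient of a sum of layers -/
theorem core {q l : σ} (hql : q ≠ l) {S N Na J A0 : ℕ} (CCs : Finset (σ → ℤ))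
    (hC : ∀ c ∈ CCs, c q = 0 ∧ c l = 0) (G : ℕ → (σ → ℤ) → ℕ → ℕ → HR F)
    (hG : ∀ a c j k, NY (G a c j k)) (u : Rt F σ)
    (hu : u = ∑ a ∈ range Na, ∑ c ∈ CCs, ∑ j ∈ range J, ∑ k ∈ range (N + 1),
      if a + S * j + k = A0 then Mo F (gam q l c j k) * io F σ (G a c j k) else 0) :
    (∀ α i γ, cfS u α i γ ≠ 0 → ∃ a < Na, ∃ c ∈ CCs, ∃ j < J, ∃ k ≤ N, a + S * j + k = A0 ∧
      γ = gam q l c j k ∧ cf (G a c j k) α i 0 ≠ 0) ∧
    (∀ a < Na, ∀ c ∈ CCs, ∀ j < J, ∀ k ≤ N, a + S * j + k = A0 → ∀ α i,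
      cfS u α i (gam q l c j k) = cf (G a c j k) α i 0) := by
  classical
  have h1 : ∀ (a : ℕ) (c : σ → ℤ) (j k : ℕ) (α : ℝ) (i : ℤ) (γ : σ → ℤ),
      cfS (if a + S * j + k = A0 then Mo F (gam q l c j k) * io F σ (G a c j k) else 0) α i γ =
      if a + S * j + k = A0 ∧ γ = gam q l c j k then cf (G a c j k) α i 0 else 0 := by
    intro a c j k α i γ
    by_cases h2 : a + S * j + k = A0
    · rw [if_pos h2, cfS_Mo]
      by_cases h3 : γ = gam q l c j k
      · rw [if_pos ⟨h2, h3⟩, h3, sub_self, io_zero (hG a c j k)]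
      · rw [if_neg (fun h => h3 h.2), io_ne _ _ _ (fun h => h3 (sub_eq_zero.1 h))]
    · rw [if_neg h2, if_neg (fun h => h2 h.1)]
      rfl
  have h2 : ∀ α i γ, cfS u α i γ = ∑ a ∈ range Na, ∑ c ∈ CCs, ∑ j ∈ range J,
      ∑ k ∈ range (N + 1), if a + S * j + k = A0 ∧ γ = gam q l c j k then cf (G a c j k) α i 0
      else 0 := by
    intro α i γ
    rw [hu, cfS_sum]
    refine Finset.sum_congr rfl fun a _ => ?_
    rw [cfS_sum]
    refine Finset.sum_congr rfl fun c _ => ?_
    rw [cfS_sum]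
    refine Finset.sum_congr rfl fun j _ => ?_
    rw [cfS_sum]
    refine Finset.sum_congr rfl fun k _ => ?_
    exact h1 _ _ _ _ _ _ _
  constructor
  · intro α i γ h
    rw [h2] at h
    obtain ⟨a, ha, h⟩ := Finset.exists_ne_zero_of_sum_ne_zero h
    obtain ⟨c, hc, h⟩ := Finset.exists_ne_zero_of_sum_ne_zero h
    obtain ⟨j, hj, h⟩ := Finset.exists_ne_zero_of_sum_ne_zero h
    obtain ⟨k, hk, h⟩ := Finset.exists_ne_zero_of_sum_ne_zero h
    rw [mem_range] at ha hj hk
    by_cases h3 : a + S * j + k = A0 ∧ γ = gam q l c j k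
    · rw [if_pos h3] at h
      exact ⟨a, ha, c, hc, j, hj, k, by omega, h3.1, h3.2, h⟩
    · rw [if_neg h3] at h
      exact absurd rfl h
  · intro a ha c hc j hj k hk hA α i
    rw [h2]
    obtain ⟨hcq, hcl⟩ := hC c hc
    rw [Finset.sum_eq_single a, Finset.sum_eq_single c, Finset.sum_eq_single j,
      Finset.sum_eq_single k, if_pos ⟨hA, rfl⟩]
    · intro k' _ hne
      rw [if_neg]
      rintro ⟨_, h3⟩
      exact hne (gam_inj hql hcq hcq hcl hcl h3).2.2.symm
    · intro h3
      exact absurd (mem_range.2 (by omega)) h3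
    · intro j' _ hne
      apply Finset.sum_eq_zero
      intro k' _
      rw [if_neg]
      rintro ⟨_, h3⟩
      exact hne (gam_inj hql hcq hcq hcl hcl h3).2.1.symm
    · intro h3
      exact absurd (mem_range.2 hj) h3
    · intro c' hc' hne
      apply Finset.sum_eq_zero
      intro j' _
      apply Finset.sum_eq_zero
      intro k' _
      rw [if_neg]
      rintro ⟨_, h3⟩
      exact hne (gam_inj hql hcq (hC c' hc').1 hcl (hC c' hc').2 h3).1.symm
    · intro h3
      exact absurd hc h3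
    · intro a' _ hne
      apply Finset.sum_eq_zero
      intro c' hc'
      apply Finset.sum_eq_zero
      intro j' _
      apply Finset.sum_eq_zero
      intro k' _
      rw [if_neg]
      rintro ⟨h4, h3⟩
      obtain ⟨_, h5, h6⟩ := gam_inj hql hcq (hC c' hc').1 hcl (hC c' hc').2 h3
      apply hne
      subst h5 h6
      omega
    · intro h3
      exact absurd (mem_range.2 ha) h3

end main

end Pool.Agent.L7h91.TW
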