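import Pool.Agent.L7h91.TW.StepB

/-!
# The step: nodal curve and section with a pole
-/

set_option autoImplicit false

namespace Pool.Agent.L7h91.TW

open Finset Pool.Agent.TH603.EL Pool.Agent.TH3.IR Pool.Agent.TH3.IR.Comap

theorem coefA {B : Type*} [CommRing B] {a A0 S j N : ℕ} (m : B) (T r : Polynomial B) (G : ℕ → B)
    (hT : T = ∑ k ∈ range (N + 1), Polynomial.X ^ (S * j + k) * Polynomial.C (G k) +
      Polynomial.X ^ (S * j + S) * r) (h : A0 < a + S * j + S) :
    (Polynomial.X ^ a * Polynomial.C m * T).coeff A0 =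
      ∑ k ∈ range (N + 1), if a + S * j + k = A0 then m * G k else 0 := by
  have e : Polynomial.X ^ a * Polynomial.C m * T =
      ∑ k ∈ range (N + 1), Polynomial.C (m * G k) * Polynomial.X ^ (a + S * j + k) +
      (Polynomial.C m * r) * Polynomial.X ^ (a + S * j + S) := by
    rw [hT, mul_add, Finset.mul_sum]
    congr 1
    · refine Finset.sum_congr rfl fun k _ => ?_
      rw [Polynomial.C_mul, add_assoc, pow_add]
      ring
    · rw [add_assoc, pow_add _ a]
      ring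
  rw [e, Polynomial.coeff_add, Polynomial.finsetSum_coeff, Polynomial.coeff_mul_X_pow',
    if_neg (by omega), add_zero]
  refine Finset.sum_congr rfl fun k _ => ?_
  rw [Polynomial.coeff_C_mul_X_pow]
  by_cases h1 : a + S * j + k = A0
  · rw [if_pos h1, if_pos h1.symm]
  · rw [if_neg h1, if_neg (fun h2 => h1 h2.symm)]

theorem coefA' {B : Type*} [CommRing B] {a A0 S j N : ℕ} (m : B) (T r : Polynomial B)
    (G' : ℕ → Polynomial B) (G : ℕ → B) (hG : ∀ k, G' k = Polynomial.C (G k))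
    (hT : T = ∑ k ∈ range (N + 1), Polynomial.X ^ (S * j + k) * G' k +
      Polynomial.X ^ (S * j + S) * r) (h : A0 < a + S * j + S) :
    (Polynomial.X ^ a * Polynomial.C m * T).coeff A0 =
      ∑ k ∈ range (N + 1), if a + S * j + k = A0 then m * G k else 0 := by
  refine coefA m T r G ?_ h
  rw [hT]
  congr 1
  exact Finset.sum_congr rfl fun k _ => by rw [hG]

theorem EmpS_core {ι σ : Type} [Fintype σ] [DecidableEq σ] {w : ι → ℕ} {L R : ℝ} {μ ν : σ → ℝ}
    (hL : 0 ≤ L) (hμ : ∀ i, 0 ≤ μ i) (hν : ∀ i, 0 ≤ ν i) (q l : σ) (hql : q ≠ l)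
    (hq : 3 / 2 ≤ ν q) (hl : 1 / 2 ≤ ν l) {τ ρ : ℝ} (h0 : 0 < τ) (hτρ : τ < ρ) (hρ : ρ < 1)
    (D' : Set (ℤ × (σ → ℤ)))
    (hreg : ∀ (c : σ → ℤ) (j k D : ℕ) (i : ℤ) (W : ℝ), (∀ i, 0 ≤ c i) → c q = 0 → c l = 0 →
      W = R - L - ∑ i ∈ (univ.erase q).erase l, (μ i + ν i) * (c i : ℝ) - 2 * (μ q + ν q) * j →
      (k : ℝ) ≤ 2 * (W - (μ l + ν l) * D) →
      (i : ℝ) ≤ 2 * (1 - τ) * (W - (μ l + ν l) * k) + (ρ - τ) * ((D : ℝ) - 2 * k) →
      -(i : ℝ) ≤ 2 * τ * (W - (μ l + ν l) * k) + (1 - ρ + τ) * ((D : ℝ) - 2 * k) →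
      (i, gam q l c j k) ∈ D')
    (h : EmpS w D') : EmpS w (RegS L R μ ν) := by
  classical
  have hτ1 : τ < 1 := by linarith
  obtain ⟨F, _, _, x, y, hx, hy, hfz⟩ := h
  obtain ⟨c, b, hT⟩ := exists_T (F := F) h0 hτ1
  obtain ⟨cp, bp, hp⟩ := exists_pt (F := F) (ρ := ρ) (by linarith) hρ
  obtain ⟨g, hg, hgy, hgl⟩ := exists_g h0 hτρ hρ hT hp
  obtain ⟨N, hNdef⟩ : ∃ N : ℕ, N = ⌈2 * R⌉₊ := ⟨_, rfl⟩
  obtain ⟨S, hS⟩ : ∃ S : ℕ, S = N + 1 := ⟨_, rfl⟩
  obtain ⟨A, hA⟩ : ∃ A, A = sdE σ q l S τ c b g := ⟨_, rfl⟩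
  have hTA : IsT A.τ A.c A.b := by rw [hA]; exact hT
  have hg0 : g ≠ 0 := hgl.ne one_ne_zero
  have hinj : Function.Injective (algebraMap (Ae F) (FractionRing (Ae F))) :=
    IsFractionRing.injective _ _
  -- the coordinates do not vanish
  have hnz : ∀ (i : ι) (p : Re F σ), E0 (x i) (y i) (hx i) (hy i) (p.coeff 0) ≠ 0 →
      Ee (x i) (y i) (hx i) (hy i) p ≠ 0 := by
    intro i p hp h
    apply hp
    have h1 := congrArg (fun p : Ae F => p.coeff 0) h
    simp only [Polynomial.coeff_zero] at h1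
    rw [← h1]
    unfold Ee
    rw [Polynomial.coe_mapRingHom, Polynomial.coeff_map]
  have hee : A.ee.coeff 0 = 0 := by
    rw [hA]
    show (Polynomial.X ^ S * _ : Re F σ).coeff 0 = 0
    rw [Polynomial.coeff_X_pow_mul', if_neg (by omega)]
  have hxe : A.xe.coeff 0 = io F σ (c ^ 2) := by
    unfold SD.xe
    rw [Polynomial.coeff_add, Polynomial.mul_coeff_zero, hee, zero_mul, add_zero, hA, map_pow]
    show (Polynomial.C (io F σ c) ^ 2 : Re F σ).coeff 0 = _
    rw [← Polynomial.C_pow, Polynomial.coeff_C_zero]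
  have hye : A.ye.coeff 0 = io F σ (1 + b) := by
    unfold SD.ye
    rw [Polynomial.coeff_add, Polynomial.mul_coeff_zero, hee, zero_mul, add_zero, hA,
      Polynomial.coeff_add, Polynomial.coeff_one_zero, map_add, map_one]
    show 1 + (Polynomial.C (io F σ b) : Re F σ).coeff 0 = _
    rw [Polynomial.coeff_C_zero]
  have hle : A.le.coeff 0 = io F σ g := by
    unfold SD.le
    rw [Polynomial.mul_coeff_zero, Polynomial.coeff_add, Polynomial.coeff_one_zero,
      Polynomial.mul_coeff_zero, hA]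
    show (Polynomial.C (io F σ g) : Re F σ).coeff 0 * (1 + (Polynomial.X : Re F σ).coeff 0 * _) = _
    rw [Polynomial.coeff_C_zero, Polynomial.coeff_X_zero, zero_mul, add_zero, mul_one]
  have hldc : Ld (c ^ 2) 0 0 (1 : F) := IsN.ld ((nc h0 hτ1 hT).pow 2)
  have hldb : Ld (1 + b) 0 0 (1 : F) := by
    apply Ld.near (m := min τ (1 - τ)) (lt_min h0 (by linarith))
    have e : b = hf F * (xi F τ + et F τ) := by
      rw [← hT.b_eq, ← mul_assoc, mul_comm (hf F) 2, two_hf, one_mul]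
    rw [add_sub_cancel_left, e]
    have h1 : Low (xi F τ) (min τ (1 - τ)) := (low_tz τ 1 0).mono (min_le_left _ _)
    have h2 : Low (et F τ) (min τ (1 - τ)) := (low_tz (1 - τ) (-1) 0).mono (min_le_right _ _)
    have := low_hf.mul (h1.add h2)
    rwa [zero_add] at this
  have hX : ∀ i, Ee (x i) (y i) (hx i) (hy i) A.xe ≠ 0 := by
    intro i
    apply hnz
    rw [hxe]
    exact e0_ne _ _ hldc one_ne_zero
  have hU : ∀ i k, Ee (x i) (y i) (hx i) (hy i) (UU q l A (pasE F σ) k) ≠ 0 := by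
    intro i k
    apply hnz
    unfold UU
    by_cases h1 : k = q
    · rw [if_pos h1, hye]
      exact e0_ne _ _ hldb one_ne_zero
    · rw [if_neg h1]
      by_cases h2 : k = l
      · rw [if_pos h2, hle]
        exact e0_ne _ _ hgl one_ne_zero
      · rw [if_neg h2]
        unfold pasE
        rw [Polynomial.coeff_C_zero]
        intro h3
        have h4 := congrArg (fun v : HK F => v.coeff 0) h3
        simp only [HahnSeries.coeff_zero] at h4
        rw [E0_coeff] at h4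
        unfold Mo at h4
        rw [HahnSeries.coeff_single_same, evS_single, one_mul] at h4
        unfold ch at h4
        rw [zpow_zero, one_mul] at h4
        exact (Finset.prod_ne_zero_iff.2 fun j _ => zpow_ne_zero _ (hy i j)) h4
  refine ⟨FractionRing (Ae F), inferInstance, inferInstance,
    fun i => algebraMap _ _ (Ee (x i) (y i) (hx i) (hy i) A.xe),
    fun i k => algebraMap _ _ (Ee (x i) (y i) (hx i) (hy i) (UU q l A (pasE F σ) k)), ?_, ?_, ?_⟩
  · intro i h
    exact hX i (hinj (h.trans (map_zero _).symm))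
  · intro i k h
    exact hU i k (hinj (h.trans (map_zero _).symm))
  intro f hfD hLM
  by_contra hne
  obtain ⟨f', hf'0, hf's, hf'L⟩ := clear (A := Ae F) f hne
  have hmem : ∀ m ∈ f'.support, m ∈ RegS L R μ ν := fun m hm => hfD (hf's hm)
  have hpos : ∀ m ∈ f'.support, 0 ≤ m.1 ∧ ∀ i, 0 ≤ m.2 i := by
    intro m hm
    obtain ⟨k1, k2, k3⟩ := hmem m hm
    refine ⟨?_, k1⟩
    have : (0 : ℝ) ≤ ∑ i, μ i * (m.2 i : ℝ) :=
      Finset.sum_nonneg fun i _ => mul_nonneg (hμ i) (by exact_mod_cast k1 i)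
    have : (0 : ℝ) ≤ (m.1 : ℝ) := by linarith
    exact_mod_cast this
  have hφE : ∀ i p, Ee (x i) (y i) (hx i) (hy i) (A.φ p) = p := by
    intro i p
    have h1 : A.φ = φe F σ := by
      apply Polynomial.ringHom_ext
      · intro κ
        unfold SD.φ φe
        rw [Polynomial.coe_eval₂RingHom, Polynomial.eval₂_C, Polynomial.coe_mapRingHom,
          Polynomial.map_C, hA]
        show Polynomial.C (io F σ (incl κ)) = _
        rw [io_incl]
      · unfold SD.φ φe
        rw [Polynomial.coe_eval₂RingHom, Polynomial.eval₂_X, Polynomial.coe_mapRingHom,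
          Polynomial.map_X, hA]
        rfl
    rw [h1, Ee_φe]
  obtain ⟨Tot, hTot⟩ : ∃ Tot, Tot = evR A.φ A.xe (UU q l A (pasE F σ)) f' := ⟨_, rfl⟩
  have hVE : ∀ i, VE (x i) (y i) (hx i) (hy i) (w i) Tot := by
    intro i
    apply VE_of_ker
    rw [hTot]
    exact evR_mem (algebraMap (Ae F) (FractionRing (Ae F))) hinj A.φ
      (Ee (x i) (y i) (hx i) (hy i)) (hφE i) hpos (hX i) (hU i) (hf'L _ _ _ (hLM i))
  -- bounds
  obtain ⟨Na, hNa⟩ : ∃ Na, Na = f'.support.sup (fun m => (f' m).natDegree) + 1 := ⟨_, rfl⟩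
  have hNa' : ∀ m ∈ f'.support, (f' m).natDegree < Na := by
    intro m hm
    have := Finset.le_sup (f := fun m => (f' m).natDegree) hm
    omega
  have hNl : ∀ m ∈ f'.support, (m.2 l).toNat ≤ N := by
    intro m hm
    obtain ⟨k1, k2, k3⟩ := hmem m hm
    have e1 : (0 : ℝ) ≤ (m.1 : ℝ) := by exact_mod_cast (hpos m hm).1
    have e2 : ν l * (m.2 l : ℝ) ≤ ∑ i, ν i * (m.2 i : ℝ) :=
      Finset.single_le_sum (f := fun i => ν i * (m.2 i : ℝ))
        (fun i _ => mul_nonneg (hν i) (by exact_mod_cast k1 i)) (mem_univ l)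
    have e3 : (0 : ℝ) ≤ (m.2 l : ℝ) := by exact_mod_cast k1 l
    have e4 : (m.2 l : ℝ) ≤ 2 * R := by nlinarith
    have e5 : 2 * R ≤ (N : ℝ) := by rw [hNdef]; exact Nat.le_ceil _
    have e6 : m.2 l ≤ (N : ℤ) := by
      have : (m.2 l : ℝ) ≤ ((N : ℤ) : ℝ) := by push_cast; linarith
      exact_mod_cast this
    omega
  obtain ⟨N1, hN1⟩ : ∃ N1, N1 = f'.support.sup (fun m => (m.2 q).toNat) := ⟨_, rfl⟩
  have hN1' : ∀ m ∈ f'.support, (m.2 q).toNat ≤ N1 := by
    intro m hm
    have := Finset.le_sup (f := fun m : ℤ × (σ → ℤ) => (m.2 q).toNat) hm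
    omega
  have hdeg : ∀ a c' n, (PP q l f' a c' n).natDegree ≤ N1 := by
    intro a c' n
    rw [Polynomial.natDegree_le_iff_coeff_eq_zero]
    intro B hB
    by_contra hc
    obtain ⟨k, hk⟩ : ∃ k, ((PP q l f' a c' n).coeff B).coeff k ≠ 0 := by
      by_contra hcon
      push Not at hcon
      apply hc
      ext k
      rw [hcon k, Polynomial.coeff_zero]
    obtain ⟨m, hm, _, _, h3, _⟩ := PP_coeff q l hk
    have := hN1' m hm
    omega
  have hexp : ∀ (a : ℕ) (c' : σ → ℤ) (n : ℕ), ∃ A B : ℕ → Polynomial (HK F),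
      (∀ j : ℕ, ∀ k ∈ (A j).support,
        L + ∑ i ∈ (univ.erase q).erase l, μ i * (c' i : ℝ) + μ l * n + 2 * μ q * j ≤ k ∧
        (k : ℝ) ≤ R - ∑ i ∈ (univ.erase q).erase l, ν i * (c' i : ℝ) - ν l * n - 2 * ν q * j) ∧
      (∀ j : ℕ, ∀ k ∈ (B j).support,
        L + ∑ i ∈ (univ.erase q).erase l, μ i * (c' i : ℝ) + μ l * n + 2 * μ q * j ≤ k ∧
        (k : ℝ) ≤ R - ∑ i ∈ (univ.erase q).erase l, ν i * (c' i : ℝ) - ν l * n - 2 * ν q * j -
          3 / 2) ∧
      ∀ J, N1 < J → PP q l f' a c' n = ∑ j ∈ range J, nod F ^ j * (Polynomial.C (A j) +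
        Polynomial.C (B j) * Polynomial.X) := fun a c' n =>
    nod_exp (hμ q) hq N1 (hdeg a c' n)
      (PP_tri q l hql (fun m hm => ⟨(hpos m hm).1, hmem m hm⟩) a n)
  choose AA BB hAA hBB hAB using hexp
  obtain ⟨J, hJ⟩ : ∃ J, J = N1 + 1 := ⟨_, rfl⟩
  obtain ⟨PJ, hPJ⟩ : ∃ PJ : ℕ → (σ → ℤ) → ℕ → ℕ → Polynomial (Polynomial (HK F)),
    ∀ a c' j n, PJ a c' j n = Polynomial.C (AA a c' n j) + Polynomial.C (BB a c' n j) *
      Polynomial.X := ⟨fun a c' j n => _, fun a c' j n => rfl⟩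
  obtain ⟨φφ, hφφ⟩ : ∃ φφ : ℕ → (σ → ℤ) → ℕ → ℕ → HR F,
    ∀ a c' j n, φφ a c' j n = SN.evt c b (PJ a c' j n) := ⟨fun a c' j n => _, fun a c' j n => rfl⟩
  have hφp : ∀ a c' j n, φφ a c' j n = pv c b (AA a c' n j) (BB a c' n j) := by
    intro a c' j n
    rw [hφφ, hPJ, evt_pair]
  have hφny : ∀ a c' j n, NY (φφ a c' j n) := fun a c' j n => by
    rw [hφp]
    exact NY_pv hT _ _
  have hφ0 : ∀ a c' j n, φφ a c' j n = 0 → PJ a c' j n = 0 := by
    intro a c' j n h1
    rw [hφp] at h1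
    rw [hPJ]
    have h2 : ¬ (AA a c' n j ≠ 0 ∨ BB a c' n j ≠ 0) := fun h3 => pv_ne h0 hτ1 hT h3 h1
    push Not at h2
    rw [h2.1, h2.2]
    simp
  obtain ⟨Z, hZ⟩ : ∃ Z : ℕ → (σ → ℤ) → ℕ → ℕ → HR F,
    ∀ a c' j k, Z a c' j k = Fs N (φφ a c' j) g k := ⟨fun a c' j k => _, fun a c' j k => rfl⟩
  have hZny : ∀ a c' j k, NY (Z a c' j k) := fun a c' j k => by
    rw [hZ]
    exact Fs_NY (hφny a c' j) hgy k
  have hZ0 : ∀ a c' j, (∀ k ≤ N, Z a c' j k = 0) → ∀ n ≤ N, φφ a c' j n = 0 := by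
    intro a c' j h1 n hn
    by_contra h2
    obtain ⟨D, hD, _, _, h3⟩ := Fs_top hg0 ⟨n, hn, h2⟩
    apply h3
    rw [← hZ]
    exact h1 D hD
  -- the first order
  have hex : ∃ A', ∃ a < Na, ∃ c' ∈ CC q l f', ∃ j < J, ∃ k ≤ N, Z a c' j k ≠ 0 ∧
      a + S * j + k = A' := by
    obtain ⟨m0, hm0⟩ := Finsupp.support_nonempty_iff.2 hf'0
    have h1 : f' m0 ≠ 0 := Finsupp.mem_support_iff.1 hm0
    obtain ⟨a, ha⟩ : ∃ a, (f' m0).coeff a ≠ 0 := by
      by_contra hcon
      push Not at hcon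
      apply h1
      ext1 a
      rw [hcon a, Polynomial.coeff_zero]
    have h2 := PP_ne q l hpos hm0 ha
    have h3 : a < Na := lt_of_le_of_lt (Polynomial.le_natDegree_of_ne_zero ha) (hNa' m0 hm0)
    have h4 := hNl m0 hm0
    have h5 : ∃ j < J, φφ a (prj q l m0) j (m0.2 l).toNat ≠ 0 := by
      by_contra hcon
      push Not at hcon
      apply h2
      rw [hAB a (prj q l m0) (m0.2 l).toNat J (by omega)]
      apply Finset.sum_eq_zero
      intro j hj
      rw [← hPJ, hφ0 _ _ _ _ (hcon j (mem_range.1 hj)), mul_zero]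
    obtain ⟨j, hj, h6⟩ := h5
    have h7 : ∃ k ≤ N, Z a (prj q l m0) j k ≠ 0 := by
      by_contra hcon
      push Not at hcon
      exact h6 (hZ0 _ _ _ hcon _ h4)
    obtain ⟨k, hk, h8⟩ := h7
    exact ⟨_, a, h3, prj q l m0, (mem_CC q l).2 ⟨m0, hm0, rfl⟩, j, hj, k, hk, h8, rfl⟩
  obtain ⟨A0, hA0⟩ : ∃ A0, A0 = Nat.find hex := ⟨_, rfl⟩
  have hA0s := Nat.find_spec hex
  rw [← hA0] at hA0s
  have hA0m : ∀ a < Na, ∀ c' ∈ CC q l f', ∀ j < J, ∀ k ≤ N, a + S * j + k < A0 →
      Z a c' j k = 0 := by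
    intro a ha c' hc' j hj k hk hlt
    by_contra h1
    rw [hA0] at hlt
    exact Nat.find_min hex hlt ⟨a, ha, c', hc', j, hj, k, hk, h1, rfl⟩
  have hCC : ∀ c' ∈ CC q l f', c' q = 0 ∧ c' l = 0 ∧ ∀ i, 0 ≤ c' i := by
    intro c' hc'
    obtain ⟨m, hm, rfl⟩ := (mem_CC q l).1 hc'
    refine ⟨prj_q q l hql m, prj_l q l m, fun i => ?_⟩
    by_cases h1 : i = q
    · rw [h1, prj_q q l hql]
    · by_cases h2 : i = l
      · rw [h2, prj_l]
      · rw [prj_i q l m h1 h2]
        exact (hpos m hm).2 i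
  -- the first coefficient
  obtain ⟨u, hu⟩ : ∃ u, u = Tot.coeff A0 := ⟨_, rfl⟩
  have hsum : u = ∑ a ∈ range Na, ∑ c' ∈ CC q l f', ∑ j ∈ range J, ∑ k ∈ range (N + 1),
      if a + S * j + k = A0 then Mo F (gam q l c' j k) * io F σ (v0 c ^ j * Z a c' j k) else 0 := by
    rw [hu, hTot, evR_dec q l A (pasE F σ) hql f' Na N hNa' hNl, Polynomial.finsetSum_coeff]
    refine Finset.sum_congr rfl fun a ha => ?_
    rw [Polynomial.finsetSum_coeff]
    refine Finset.sum_congr rfl fun c' hc' => ?_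
    obtain ⟨hcq, hcl, hc0⟩ := hCC c' hc'
    have e1 : ∏ i, pasE F σ i ^ (c' i).toNat = Polynomial.C (Mo F c') := by
      rw [← Mo_prod hc0, map_prod]
      refine Finset.prod_congr rfl fun i _ => ?_
      rw [map_pow]
      rfl
    have e2 : ∑ n ∈ range (N + 1), A.le ^ n * A.ev (PP q l f' a c' n) =
        ∑ j ∈ range J, A.ev (nod F) ^ j * ∑ n ∈ range (N + 1), A.le ^ n *
          A.ev (PJ a c' j n) := by
      have e3 : ∀ n, A.ev (PP q l f' a c' n) = ∑ j ∈ range J, A.ev (nod F) ^ j *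
          A.ev (PJ a c' j n) := by
        intro n
        rw [hAB a c' n J (by omega), map_sum]
        refine Finset.sum_congr rfl fun j _ => ?_
        rw [map_mul, map_pow, hPJ]
      simp_rw [e3, Finset.mul_sum]
      rw [Finset.sum_comm]
      refine Finset.sum_congr rfl fun j _ => Finset.sum_congr rfl fun n _ => ?_
      ring
    rw [e1, e2, Finset.mul_sum, Polynomial.finsetSum_coeff]
    refine Finset.sum_congr rfl fun j hj => ?_
    have hAε : A.ε = Polynomial.X := by rw [hA]; rfl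
    have hAS : A.S = S := by rw [hA]; rfl
    rw [hAε]
    by_cases hlt : A0 < a + S * j + S
    · obtain ⟨r, hr⟩ := ex_of_dvd (A.layer hTA j N (PJ a c' j))
      rw [hAε, hAS] at hr
      have hG : ∀ k, A.mq ^ j * A.ml ^ k *
          A.j (v0 A.c ^ j * Fs N (fun n => SN.evt A.c A.b (PJ a c' j n)) A.g k) =
          Polynomial.C (Mo F (Pi.single q 1) ^ j * Mo F (Pi.single l 1) ^ k *
              io F σ (v0 c ^ j * Z a c' j k)) := by
        intro k
        rw [Polynomial.C_mul, Polynomial.C_mul, Polynomial.C_pow, Polynomial.C_pow]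
        have e4 : Z a c' j k = Fs N (fun n => SN.evt A.c A.b (PJ a c' j n)) A.g k := by
          rw [hZ, hA]
          congr 1
          funext n
          exact hφφ a c' j n
        rw [e4, hA]
        rfl
      refine (coefA' (Mo F c') _ r _ _ hG hr hlt).trans ?_
      refine Finset.sum_congr rfl fun k _ => ?_
      by_cases h3 : a + S * j + k = A0
      · rw [if_pos h3, if_pos h3, ← mul_assoc]
        congr 1
        unfold gam
        rw [Mo_add, Mo_add, Mo_single_pow, Mo_single_pow]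
      · rw [if_neg h3, if_neg h3]
    · have hz : ∀ k ≤ N, Z a c' j k = 0 := by
        intro k hk
        exact hA0m a (mem_range.1 ha) c' hc' j (mem_range.1 hj) k hk (by omega)
      have hz2 := hZ0 a c' j hz
      have e5 : ∑ n ∈ range (N + 1), A.le ^ n * A.ev (PJ a c' j n) = 0 := by
        apply Finset.sum_eq_zero
        intro n hn
        rw [mem_range] at hn
        rw [hφ0 _ _ _ _ (hz2 n (by omega)), map_zero, mul_zero]
      rw [e5, mul_zero, mul_zero, Polynomial.coeff_zero]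
      symm
      apply Finset.sum_eq_zero
      intro k hk
      rw [mem_range] at hk
      rw [hz k (by omega), mul_zero, map_zero, mul_zero, ite_self]
  have hGny : ∀ a c' j k, NY (v0 c ^ j * Z a c' j k) := fun a c' j k =>
    ((NY_v0 hT).pow j).mul (hZny a c' j k)
  obtain ⟨c1, c2⟩ := core hql (CC q l f') (fun c' hc' => ⟨(hCC c' hc').1, (hCC c' hc').2.1⟩)
    (fun a c' j k => v0 c ^ j * Z a c' j k) hGny u hsum
  have hv0 : v0 c ≠ 0 := (ld_v0 h0 hτ1 hT).ne two_ne_zero
  have hu0 : u ≠ 0 := by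
    intro hu0
    obtain ⟨a, ha, c', hc', j, hj, k, hk, h1, h2⟩ := hA0s
    have h3 : v0 c ^ j * Z a c' j k ≠ 0 := mul_ne_zero (pow_ne_zero _ hv0) h1
    apply h3
    apply cf_ext
    intro α i j'
    have h4 : cf (0 : HR F) α i j' = 0 := by simp [cf]
    rw [h4]
    by_contra h5
    have h6 := hGny a c' j k α i j' h5
    subst h6
    apply h5
    rw [← c2 a ha c' hc' j hj k hk h2 α i, hu0]
    simp [cfS]
  obtain ⟨α, hα⟩ : ∃ α, α = u.order := ⟨_, rfl⟩
  have hlow : ∀ α' < α, u.coeff α' = 0 := fun α' h1 =>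
    HahnSeries.coeff_eq_zero_of_lt_order (by rw [← hα]; exact h1)
  have hne0 : u.coeff α ≠ 0 := by
    rw [hα]
    exact fun h1 => hu0 (HahnSeries.coeff_order_eq_zero.1 h1)
  apply hne0
  have hfin : (u.coeff α).coeff = 0 := by
    apply hfz
    · rintro ⟨i, γ⟩ hm
      rw [Finset.mem_coe, Finsupp.mem_support_iff] at hm
      obtain ⟨a, ha, c', hc', j, hj, k, hk, h1, h2, h3⟩ := c1 α i γ hm
      obtain ⟨hcq, hcl, hc0⟩ := hCC c' hc'
      have hlG : Low (v0 c ^ j * Z a c' j k) α := by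
        intro α' hα'
        ext ⟨i', j'⟩
        by_contra h5
        have h6 := hGny a c' j k α' i' j' (by
          intro h7
          exact h5 h7)
        subst h6
        apply h5
        have h7 := c2 a ha c' hc' j hj k hk h1 α' i'
        have h8 : cfS u α' i' (gam q l c' j k) = 0 := by
          unfold cfS
          rw [hlow α' hα']
          rfl
        rw [h8] at h7
        exact h7.symm
      obtain ⟨l1, l2⟩ := lead_div (Ld.one (F := F)) one_ne_zero ((ld_v0 h0 hτ1 hT).pow j)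
        (pow_ne_zero _ two_ne_zero)
        (show 1 * (v0 c ^ j * Z a c' j k) = v0 c ^ j * Z a c' j k from one_mul _) hlG h3
      have hZne : Z a c' j k ≠ 0 := by
        intro h5
        rw [h5] at l2
        exact l2 (by simp [cf])
      obtain ⟨D, hDN, hD1, hD2, _⟩ := Fs_top hg0 (N := N) (φ := φφ a c' j) (by
        by_contra hcon
        push Not at hcon
        apply hZne
        rw [hZ]
        unfold Fs
        apply Finset.sum_eq_zero
        intro n hn
        rw [mem_range] at hn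
        rw [hcon n (by omega)]
        ring)
      have hkD : k ≤ D := by
        by_contra hcon
        apply hZne
        rw [hZ, hD2]
        exact Fs_gt (by omega)
      rw [hZ, hD2] at l1 l2
      obtain ⟨b1, b2⟩ := elevel h0 hτρ hρ hT hp
        (L := L + ∑ i ∈ (univ.erase q).erase l, μ i * (c' i : ℝ) + 2 * μ q * j)
        (R := R - ∑ i ∈ (univ.erase q).erase l, ν i * (c' i : ℝ) - 2 * ν q * j) (hμ l) hl D
        (φφ a c' j) (by
          intro n
          rw [hφp]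
          refine ⟨_, _, ?_, ?_, rfl⟩
          · intro k' hk'
            have := hAA a c' n j k' hk'
            constructor <;> linarith
          · intro k' hk'
            have := hBB a c' n j k' hk'
            constructor <;> linarith) hD1 hg k hkD (by
          intro k' hk'
          rw [← hD2, ← hZ]
          exact hA0m a ha c' hc' j hj k' (by omega) (by omega))
      obtain ⟨_, b3, b4⟩ := b2 _ _ _ l1 l2
      obtain ⟨W, hW⟩ : ∃ W, W = R - L - ∑ i ∈ (univ.erase q).erase l, (μ i + ν i) * (c' i : ℝ) -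
        2 * (μ q + ν q) * j := ⟨_, rfl⟩
      have hW2 : R - ∑ i ∈ (univ.erase q).erase l, ν i * (c' i : ℝ) - 2 * ν q * j -
          (L + ∑ i ∈ (univ.erase q).erase l, μ i * (c' i : ℝ) + 2 * μ q * j) = W := by
        have e : ∑ i ∈ (univ.erase q).erase l, (μ i + ν i) * (c' i : ℝ) =
            ∑ i ∈ (univ.erase q).erase l, μ i * (c' i : ℝ) +
            ∑ i ∈ (univ.erase q).erase l, ν i * (c' i : ℝ) := by
          rw [← Finset.sum_add_distrib]
          exact Finset.sum_congr rfl fun i _ => by ring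
        rw [hW, e]
        ring
      rw [hW2] at b1 b3 b4
      have e5 : i + 0 - (j : ℤ) * 0 = i := by ring
      rw [e5] at b3 b4
      rw [h2]
      exact hreg c' j k D i W hc0 hcq hcl hW b1 b3 b4
    · intro i
      apply LMS_of_ker_pow (x i) (y i) (hx i) (hy i)
      rw [hu]
      exact hVE i A0 α
  ext m
  rw [hfin]
  rfl

end Pool.Agent.L7h91.TW
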