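import Pool.Agent.L7h91.TW.Exp

/-!
# The substitution
-/

set_option autoImplicit false

namespace Pool.Agent.L7h91.TW

open Finset Pool.Agent.TH603.EL Pool.Agent.TH3.IR Pool.Agent.TH3.IR.Comap

/-- generic computation of the nodal curve along the perturbed tube -/
theorem gen_nod {R : Type*} [CommRing R] (c b β e t η : R) (hb : b ^ 2 = (c ^ 3 - c) ^ 2 + t)
    (hη : b - (c ^ 3 - c) = η) (hβ : 2 * β = 3 * c ^ 2 - 1) :
    (1 + b + e * β - 1) ^ 2 - ((c ^ 2 + e * c) * (c ^ 2 + e * c - 1) ^ 2 + t) =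
      e * (η * (3 * c ^ 2 - 1)) + e ^ 2 * (β ^ 2 - c ^ 2 * (3 * c ^ 2 - 2) - e * c ^ 3) := by
  linear_combination hb + e * b * hβ + e * (3 * c ^ 2 - 1) * hη

section

variable {F : Type} [Field F] {R : Type} [CommRing R]

/-- the data of the substitution -/
structure SD (F : Type) [Field F] (R : Type) [CommRing R] where
  /-- the inclusion -/
  j : HR F →+* R
  /-- the parameter -/
  ε : R
  /-- the coordinates -/
  mq : R
  ml : R
  /-- the order -/
  S : ℕ
  τ : ℝ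
  c : HR F
  b : HR F
  g : HR F

variable (A : SD F R)

/-- the small quantity -/
noncomputable def SD.ee : R := A.ε ^ A.S * (A.mq * A.j (xi F A.τ))

/-- the abscissa -/
noncomputable def SD.xe : R := A.j A.c ^ 2 + A.ee * A.j A.c

/-- the ordinate -/
noncomputable def SD.ye : R := 1 + A.j A.b + A.ee * A.j (hf F * (3 * A.c ^ 2 - 1))

/-- the third coordinate -/
noncomputable def SD.le : R := A.j A.g * (1 + A.ε * A.ml)

/-- the evaluation in the plane -/
noncomputable def SD.ev : Polynomial (Polynomial (HK F)) →+* R :=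
  Polynomial.eval₂RingHom (Polynomial.eval₂RingHom (A.j.comp (incl (F := F))) A.xe) A.ye

theorem SD.ev_CC (κ : HK F) : A.ev (Polynomial.C (Polynomial.C κ)) = A.j (incl κ) := by
  unfold SD.ev
  rw [Polynomial.coe_eval₂RingHom, Polynomial.eval₂_C, Polynomial.coe_eval₂RingHom,
    Polynomial.eval₂_C]
  rfl

theorem SD.ev_CX : A.ev (Polynomial.C Polynomial.X) = A.xe := by
  unfold SD.ev
  rw [Polynomial.coe_eval₂RingHom, Polynomial.eval₂_C, Polynomial.coe_eval₂RingHom,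
    Polynomial.eval₂_X]

theorem SD.ev_X : A.ev Polynomial.X = A.ye := by
  unfold SD.ev
  rw [Polynomial.coe_eval₂RingHom, Polynomial.eval₂_X]

/-- the congruence modulo `ε ^ S` -/
theorem SD.ev_cong (P : Polynomial (Polynomial (HK F))) :
    A.ε ^ A.S ∣ A.ev P - A.j (SN.evt A.c A.b P) := by
  have h := cong_hom A.ev (A.j.comp (SN.evt A.c A.b)) (A.ε ^ A.S) ?_ ?_ ?_ P
  · exact h
  · intro κ
    rw [A.ev_CC]
    show _ ∣ _ - A.j (SN.evt A.c A.b (Polynomial.C (Polynomial.C κ)))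
    rw [SN.evt_C, Polynomial.eval₂_C, sub_self]
    exact dvd_zero _
  · rw [A.ev_CX]
    show _ ∣ _ - A.j (SN.evt A.c A.b (Polynomial.C Polynomial.X))
    rw [SN.evt_C, Polynomial.eval₂_X]
    unfold SD.xe SD.ee
    rw [map_pow, add_sub_cancel_left, mul_assoc]
    exact dvd_mul_right _ _
  · rw [A.ev_X]
    show _ ∣ _ - A.j (SN.evt A.c A.b Polynomial.X)
    rw [SN.evt_X]
    unfold SD.ye SD.ee
    rw [map_add, map_one, add_sub_cancel_left, mul_assoc]
    exact dvd_mul_right _ _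

variable [CharZero F]

/-- the leading factor of the nodal curve -/
noncomputable def v0 (c : HR F) : HR F := tz F 1 0 0 * (3 * c ^ 2 - 1)

theorem jsub (j : HR F →+* R) (x y : HR F) : j (x - y) = j x - j y := by
  have h := j.map_add (x - y) y
  have e : x - y + y = x := by ring
  rw [e] at h
  exact eq_sub_of_add_eq h.symm

theorem evsub (f : Polynomial (Polynomial (HK F)) →+* R) (x y : Polynomial (Polynomial (HK F))) :
    f (x - y) = f x - f y := by
  have h := f.map_add (x - y) y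
  have e : x - y + y = x := by ring
  rw [e] at h
  exact eq_sub_of_add_eq h.symm

/-- the nodal curve along the perturbed tube -/
theorem SD.ev_nod (hT : IsT A.τ A.c A.b) :
    ∃ v : R, A.ev (nod F) = A.ε ^ A.S * (A.mq * v) ∧ A.ε ^ A.S ∣ v - A.j (v0 A.c) := by
  have hη : A.b - (A.c ^ 3 - A.c) = et F A.τ := by
    apply mul_left_cancel₀ (two_ne (F := F))
    linear_combination hT.b_eq - hT.eq
  have hnod : A.ev (nod F) = (A.ye - 1) ^ 2 -
      (A.xe * (A.xe - 1) ^ 2 + A.j (incl (HahnSeries.single (1 : ℝ) (1 : F)))) := by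
    rw [← A.ev_CC, ← A.ev_CX, ← A.ev_X]
    unfold nod
    rw [evsub, map_pow, evsub, map_one, map_add, map_add, map_mul, map_mul, map_pow, map_pow]
    congr 3
    · congr 1
      rw [← map_one A.ev, ← evsub, Polynomial.C_sub, Polynomial.C_1]
  have hβ : 2 * A.j (hf F * (3 * A.c ^ 2 - 1)) = 3 * A.j A.c ^ 2 - 1 := by
    have h1 : (2 : R) = A.j 2 := (map_ofNat A.j 2).symm
    have h2 : (3 : R) = A.j 3 := (map_ofNat A.j 3).symm
    rw [h1, h2, ← map_mul, ← mul_assoc, two_hf, one_mul, jsub, map_mul, map_pow, map_one]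
  have hb : A.j A.b ^ 2 = (A.j A.c ^ 3 - A.j A.c) ^ 2 +
      A.j (incl (HahnSeries.single (1 : ℝ) (1 : F))) := by
    rw [← map_pow, hT.b_sq, map_add, map_pow, jsub, map_pow]
  have hη' : A.j A.b - (A.j A.c ^ 3 - A.j A.c) = A.j (et F A.τ) := by
    rw [← hη, jsub, jsub, map_pow]
  have key := gen_nod (A.j A.c) (A.j A.b) (A.j (hf F * (3 * A.c ^ 2 - 1))) A.ee
    (A.j (incl (HahnSeries.single (1 : ℝ) (1 : F)))) (A.j (et F A.τ)) hb hη' hβ
  have hx : A.xe = A.j A.c ^ 2 + A.ee * A.j A.c := rfl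
  have hy : A.ye = 1 + A.j A.b + A.ee * A.j (hf F * (3 * A.c ^ 2 - 1)) := rfl
  have hee : A.ee = A.ε ^ A.S * (A.mq * A.j (xi F A.τ)) := rfl
  obtain ⟨r, hr⟩ : ∃ r, r = A.j (hf F * (3 * A.c ^ 2 - 1)) ^ 2 -
    A.j A.c ^ 2 * (3 * A.j A.c ^ 2 - 2) - A.ee * A.j A.c ^ 3 := ⟨_, rfl⟩
  rw [← hx, ← hy, ← hnod, ← hr, hee] at key
  have hv0 : A.j (v0 A.c) = A.j (xi F A.τ) * (A.j (et F A.τ) * (3 * A.j A.c ^ 2 - 1)) := by
    unfold v0
    have h2 : (3 : R) = A.j 3 := (map_ofNat A.j 3).symm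
    rw [← xi_mul_et, h2, map_mul, map_mul, jsub, map_mul, map_pow, map_one, mul_assoc]
  refine ⟨A.j (v0 A.c) + A.ε ^ A.S * (A.mq * A.j (xi F A.τ) ^ 2 * r), ?_, ?_⟩
  · rw [key, hv0]
    ring
  · rw [add_sub_cancel_left]
    exact dvd_mul_right _ _

/-- the expansion of one layer -/
theorem SD.layer (hT : IsT A.τ A.c A.b) (j0 N : ℕ) (P : ℕ → Polynomial (Polynomial (HK F))) :
    A.ε ^ (A.S * j0 + A.S) ∣ A.ev (nod F) ^ j0 * (∑ n ∈ range (N + 1), A.le ^ n * A.ev (P n)) -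
      ∑ k ∈ range (N + 1), A.ε ^ (A.S * j0 + k) * (A.mq ^ j0 * A.ml ^ k *
        A.j (v0 A.c ^ j0 * Fs N (fun n => SN.evt A.c A.b (P n)) A.g k)) := by
  obtain ⟨v, hv1, hv2⟩ := A.ev_nod hT
  -- the sum of the leading parts
  have h1 : ∑ n ∈ range (N + 1), A.le ^ n * A.j (SN.evt A.c A.b (P n)) =
      ∑ k ∈ range (N + 1), A.ε ^ k * (A.ml ^ k *
        A.j (Fs N (fun n => SN.evt A.c A.b (P n)) A.g k)) := by
    have h2 : ∀ n ∈ range (N + 1), A.le ^ n * A.j (SN.evt A.c A.b (P n)) =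
        ∑ k ∈ range (N + 1), A.ε ^ k * (A.ml ^ k * ((n.choose k : R) *
          A.j (SN.evt A.c A.b (P n)) * A.j A.g ^ n)) := by
      intro n hn
      rw [mem_range] at hn
      have h3 : (1 + A.ε * A.ml) ^ n = ∑ k ∈ range (N + 1), (n.choose k : R) *
          (A.ε ^ k * A.ml ^ k) := by
        rw [add_comm, add_pow]
        rw [← Finset.sum_subset (Finset.range_subset_range.2 (show n + 1 ≤ N + 1 by omega))]
        · apply Finset.sum_congr rfl
          intro k _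
          rw [one_pow, mul_one, mul_pow]
          ring
        · intro k _ hk
          have : n < k := by rw [Finset.mem_range] at hk; omega
          rw [Nat.choose_eq_zero_of_lt this]
          simp
      unfold SD.le
      rw [mul_pow, h3, Finset.mul_sum, Finset.sum_mul]
      refine Finset.sum_congr rfl fun k _ => ?_
      ring
    rw [Finset.sum_congr rfl h2, Finset.sum_comm]
    refine Finset.sum_congr rfl fun k _ => ?_
    unfold Fs
    rw [map_sum, Finset.mul_sum, Finset.mul_sum]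
    refine Finset.sum_congr rfl fun n _ => ?_
    rw [map_mul, map_mul, map_natCast, map_pow]
  have h2 : ∑ k ∈ range (N + 1), A.ε ^ (A.S * j0 + k) * (A.mq ^ j0 * A.ml ^ k *
        A.j (v0 A.c ^ j0 * Fs N (fun n => SN.evt A.c A.b (P n)) A.g k)) =
      A.ε ^ (A.S * j0) * A.mq ^ j0 * A.j (v0 A.c) ^ j0 *
        ∑ n ∈ range (N + 1), A.le ^ n * A.j (SN.evt A.c A.b (P n)) := by
    rw [h1, Finset.mul_sum]
    refine Finset.sum_congr rfl fun k _ => ?_
    rw [map_mul, map_pow, pow_add]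
    ring
  rw [h2, hv1, mul_pow, mul_pow, ← pow_mul, pow_add]
  obtain ⟨s1, hs1⟩ : ∃ s1, s1 = ∑ n ∈ range (N + 1), A.le ^ n * A.ev (P n) := ⟨_, rfl⟩
  obtain ⟨s2, hs2⟩ : ∃ s2, s2 = ∑ n ∈ range (N + 1), A.le ^ n * A.j (SN.evt A.c A.b (P n)) :=
    ⟨_, rfl⟩
  rw [← hs1, ← hs2]
  have hd1 : A.ε ^ A.S ∣ s1 - s2 := by
    rw [hs1, hs2, ← Finset.sum_sub_distrib]
    apply Finset.dvd_sum
    intro n _
    rw [← mul_sub]
    exact Dvd.dvd.mul_left (A.ev_cong (P n)) _
  have hd2 : A.ε ^ A.S ∣ v ^ j0 - A.j (v0 A.c) ^ j0 := hv2.trans (sub_dvd_pow_sub_pow _ _ j0)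
  have e : A.ε ^ (A.S * j0) * (A.mq ^ j0 * v ^ j0) * s1 -
      A.ε ^ (A.S * j0) * A.mq ^ j0 * A.j (v0 A.c) ^ j0 * s2 =
      A.ε ^ (A.S * j0) * (A.mq ^ j0 * ((v ^ j0 - A.j (v0 A.c) ^ j0) * s1 +
        A.j (v0 A.c) ^ j0 * (s1 - s2))) := by ring
  rw [e]
  apply mul_dvd_mul_left
  apply Dvd.dvd.mul_left
  exact (Dvd.dvd.mul_right hd2 _).add (Dvd.dvd.mul_left hd1 _)

end

end Pool.Agent.L7h91.TW
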