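import Pool.Agent.TH3.IR.Comap
import Pool.Agent.TH868.NG.Van3

/-!
# Transfer of the multiplicities, any number of variables
-/

set_option autoImplicit false

namespace Pool.Agent.L7h91.TW

open Finset Pool.Agent.TH603.EL Pool.Agent.TH3.IR Pool.Agent.TH3.IR.Comap

/-- Laurent polynomials -/
abbrev La (F : Type) [Field F] (σ : Type) : Type := AddMonoidAlgebra F (ℤ × (σ → ℤ))

section ker

variable {F : Type} [Field F] {σ : Type} [Fintype σ]

/-- the character -/
noncomputable def chS (x : F) (y : σ → F) (hx : x ≠ 0) (hy : ∀ i, y i ≠ 0) :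
    Multiplicative (ℤ × (σ → ℤ)) →* F where
  toFun m := ch x y m.toAdd
  map_one' := by
    unfold ch
    simp
  map_mul' m n := by
    unfold ch
    rw [toAdd_mul, Prod.fst_add, Prod.snd_add, zpow_add₀ hx]
    have h : ∏ i, y i ^ ((Multiplicative.toAdd m).2 + (Multiplicative.toAdd n).2) i =
        (∏ i, y i ^ (Multiplicative.toAdd m).2 i) * ∏ i, y i ^ (Multiplicative.toAdd n).2 i := by
      rw [← Finset.prod_mul_distrib]
      refine Finset.prod_congr rfl fun i _ => ?_
      rw [Pi.add_apply, zpow_add₀ (hy i)]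
    rw [h]
    ring

/-- the evaluation -/
noncomputable def evS (x : F) (y : σ → F) (hx : x ≠ 0) (hy : ∀ i, y i ≠ 0) : La F σ →ₐ[F] F :=
  AddMonoidAlgebra.lift F F (ℤ × (σ → ℤ)) (chS x y hx hy)

theorem evS_single (x : F) (y : σ → F) (hx : x ≠ 0) (hy : ∀ i, y i ≠ 0) (m : ℤ × (σ → ℤ)) (c : F) :
    evS x y hx hy (AddMonoidAlgebra.single m c) = c * ch x y m := by
  unfold evS
  rw [AddMonoidAlgebra.lift_single]
  rfl

theorem evS_eq (x : F) (y : σ → F) (hx : x ≠ 0) (hy : ∀ i, y i ≠ 0) (g : La F σ) :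
    evS x y hx hy g = g.coeff.sum fun m c => c * ch x y m := by
  induction g using AddMonoidAlgebra.induction_linear with
  | zero => simp
  | add f g hf hg =>
    rw [map_add, hf, hg, AddMonoidAlgebra.coeff_add,
      Finsupp.sum_add_index' (by simp) (by intro m a b; ring)]
  | single m r =>
    rw [evS_single, AddMonoidAlgebra.coeff_single, Finsupp.sum_single_index (by simp)]

/-- multiply the coefficient of `m` by `l m` -/
noncomputable def DS (l : ℤ × (σ → ℤ) → F) (f : La F σ) : La F σ :=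
  AddMonoidAlgebra.ofCoeff (Finsupp.onFinset f.coeff.support (fun m => l m * f.coeff m)
    (fun m hm => by
      rw [Finsupp.mem_support_iff]
      exact right_ne_zero_of_mul hm))

theorem DS_coeff (l : ℤ × (σ → ℤ) → F) (f : La F σ) (m : ℤ × (σ → ℤ)) :
    (DS l f).coeff m = l m * f.coeff m := rfl

theorem DS_add (l : ℤ × (σ → ℤ) → F) (f g : La F σ) : DS l (f + g) = DS l f + DS l g := by
  ext m
  simp only [DS_coeff, AddMonoidAlgebra.coeff_add, Finsupp.add_apply]
  ring

theorem DS_zero (l : ℤ × (σ → ℤ) → F) : DS l (0 : La F σ) = 0 := by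
  ext m
  simp [DS_coeff]

theorem DS_single (l : ℤ × (σ → ℤ) → F) (m : ℤ × (σ → ℤ)) (c : F) :
    DS l (AddMonoidAlgebra.single m c) = AddMonoidAlgebra.single m (l m * c) := by
  classical
  ext m'
  rw [DS_coeff, AddMonoidAlgebra.coeff_single, AddMonoidAlgebra.coeff_single,
    Finsupp.single_apply, Finsupp.single_apply]
  split_ifs with h
  · rw [h]
  · simp

theorem DS_mul {l : ℤ × (σ → ℤ) → F} (hl : ∀ m m', l (m + m') = l m + l m') (f g : La F σ) :
    DS l (f * g) = DS l f * g + f * DS l g := by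
  induction f using AddMonoidAlgebra.induction_linear with
  | zero => simp [DS_zero]
  | add f f' hf hf' => rw [add_mul, DS_add, hf, hf', DS_add]; ring
  | single m r =>
    induction g using AddMonoidAlgebra.induction_linear with
    | zero => simp [DS_zero]
    | add g g' hg hg' => rw [mul_add, DS_add, hg, hg', DS_add]; ring
    | single m' r' =>
      rw [AddMonoidAlgebra.single_mul_single, DS_single, DS_single, DS_single,
        AddMonoidAlgebra.single_mul_single, AddMonoidAlgebra.single_mul_single,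
        ← AddMonoidAlgebra.single_add, hl]
      congr 1
      ring

theorem DS_mem_pow {l : ℤ × (σ → ℤ) → F} (hl : ∀ m m', l (m + m') = l m + l m')
    (I : Ideal (La F σ)) (k : ℕ) {f : La F σ} (hf : f ∈ I ^ (k + 1)) : DS l f ∈ I ^ k := by
  induction k generalizing f with
  | zero => simp
  | succ k ih =>
    rw [pow_succ] at hf
    refine Submodule.mul_induction_on hf ?_ ?_
    · intro a ha b hb
      rw [DS_mul hl]
      refine Ideal.add_mem _ ?_ ?_
      · rw [pow_succ]
        exact Ideal.mul_mem_mul (ih ha) hb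
      · exact Ideal.mul_mem_right _ _ ha
    · intro a b ha hb
      rw [DS_add]
      exact Ideal.add_mem _ ha hb

theorem sum_DS (l : ℤ × (σ → ℤ) → F) (f : La F σ) (P : ℤ × (σ → ℤ) → F) :
    ((DS l f).coeff.sum fun m c => c * P m) = f.coeff.sum fun m c => c * (l m * P m) := by
  rw [Finsupp.sum_of_support_subset (s := f.coeff.support)]
  · unfold Finsupp.sum
    apply sum_congr rfl
    intro m _
    simp only [DS_coeff]
    ring
  · intro m hm
    rw [Finsupp.mem_support_iff, DS_coeff] at hm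
    rw [Finsupp.mem_support_iff]
    exact right_ne_zero_of_mul hm
  · intro m _
    simp

theorem mo_eq (g : La F σ) (x : F) (y : σ → F) (α : ℕ) (γ : σ → ℕ) :
    mo g.coeff x y α γ = g.coeff.sum fun m c => c * (((m.1 : F) ^ α * ∏ i, (m.2 i : F) ^ γ i) *
      ch x y m) := by
  unfold mo
  exact Finsupp.sum_congr fun m _ => by ring

theorem LMS_of_ker_pow (x : F) (y : σ → F) (hx : x ≠ 0) (hy : ∀ i, y i ≠ 0) {w : ℕ} {g : La F σ}
    (hg : g ∈ (RingHom.ker (evS x y hx hy : La F σ →+* F)) ^ w) : LMS g.coeff x y w := by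
  classical
  set I := RingHom.ker (evS x y hx hy : La F σ →+* F) with hI
  have key : ∀ (N α : ℕ) (γ : σ → ℕ), α + ∑ i, γ i = N → ∀ (w : ℕ) (g : La F σ), N < w →
      g ∈ I ^ w → mo g.coeff x y α γ = 0 := by
    intro N
    induction N with
    | zero =>
      intro α γ hN w g hw hg
      have hα : α = 0 := by omega
      have hγ : ∀ i, γ i = 0 := fun i =>
        (Finset.sum_eq_zero_iff.1 (by omega : ∑ i, γ i = 0)) i (Finset.mem_univ i)
      have h1 : g ∈ I := Ideal.pow_le_self (by omega) hg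
      rw [hI, RingHom.mem_ker] at h1
      have h2 : evS x y hx hy g = 0 := h1
      rw [evS_eq] at h2
      rw [mo_eq, ← h2]
      refine Finsupp.sum_congr fun m _ => ?_
      rw [hα]
      simp [hγ]
    | succ N ih =>
      intro α γ hN w g hw hg
      obtain ⟨w', rfl⟩ : ∃ w', w = w' + 1 := ⟨w - 1, by omega⟩
      by_cases hα : α = 0
      · obtain ⟨i, hi⟩ : ∃ i, γ i ≠ 0 := by
          by_contra hcon
          push Not at hcon
          rw [Finset.sum_eq_zero fun i _ => hcon i] at hN
          omega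
        obtain ⟨γ', hγ'⟩ : ∃ γ', γ' = Function.update γ i (γ i - 1) := ⟨_, rfl⟩
        have h2 : ∑ j, γ j = ∑ j, γ' j + 1 := by
          have h3 : ∑ j, γ j = γ i + ∑ j ∈ univ.erase i, γ j :=
            (Finset.add_sum_erase univ γ (Finset.mem_univ i)).symm
          have h4 : ∑ j, γ' j = γ' i + ∑ j ∈ univ.erase i, γ' j :=
            (Finset.add_sum_erase univ γ' (Finset.mem_univ i)).symm
          have h5 : ∑ j ∈ univ.erase i, γ' j = ∑ j ∈ univ.erase i, γ j :=
            Finset.sum_congr rfl fun j hj => by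
              rw [hγ', Function.update_of_ne (Finset.ne_of_mem_erase hj)]
          have h6 : γ' i = γ i - 1 := by rw [hγ', Function.update_self]
          omega
        have h3 := ih α γ' (by omega) w' (DS (fun m => (m.2 i : F)) g) (by omega)
          (DS_mem_pow (by intro m m'; push_cast [Prod.snd_add, Pi.add_apply]; ring) I w' hg)
        rw [mo_eq, sum_DS] at h3
        rw [mo_eq, ← h3]
        refine Finsupp.sum_congr fun m _ => ?_
        have h7 : ∏ j, (m.2 j : F) ^ γ j = (m.2 i : F) * ∏ j, (m.2 j : F) ^ γ' j := by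
          rw [← Finset.mul_prod_erase univ _ (Finset.mem_univ i),
            ← Finset.mul_prod_erase univ (fun j => (m.2 j : F) ^ γ' j) (Finset.mem_univ i)]
          have h8 : ∏ j ∈ univ.erase i, (m.2 j : F) ^ γ' j =
              ∏ j ∈ univ.erase i, (m.2 j : F) ^ γ j :=
            Finset.prod_congr rfl fun j hj => by
              rw [hγ', Function.update_of_ne (Finset.ne_of_mem_erase hj)]
          have h9 : γ i = γ' i + 1 := by rw [hγ', Function.update_self]; omega
          rw [h8, h9, pow_succ]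
          ring
        rw [h7]
        ring
      · obtain ⟨α', rfl⟩ : ∃ α', α = α' + 1 := ⟨α - 1, by omega⟩
        have h3 := ih α' γ (by omega) w' (DS (fun m => (m.1 : F)) g) (by omega)
          (DS_mem_pow (by intro m m'; push_cast [Prod.fst_add]; ring) I w' hg)
        rw [mo_eq, sum_DS] at h3
        rw [mo_eq, ← h3]
        refine Finsupp.sum_congr fun m _ => ?_
        rw [pow_succ]
        ring
  intro α γ hw
  exact key _ α γ rfl w g hw hg

end ker

section taylor

variable {σ : Type} [Fintype σ]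

theorem desc_mem {K : Type} [Field K] (k0 : ℕ) (kk : σ → ℕ) :
    (fun u : K × (σ → K) => (∏ t ∈ range k0, (u.1 - (t : K))) *
      ∏ i, ∏ t ∈ range (kk i), (u.2 i - (t : K))) ∈ PFS K σ (k0 + ∑ i, kk i + 1) := by
  classical
  have h1 : ∀ s : Finset σ, (fun u : K × (σ → K) => ∏ i ∈ s, ∏ t ∈ range (kk i), (u.2 i - (t : K))) ∈
      PFS K σ (∑ i ∈ s, kk i + 1) := by
    intro s
    induction s using Finset.induction_on with
    | empty =>
      have := mem_PFS (K := K) (σ := σ) (α := 0) (γ := fun _ => 0) (w := 1) (by simp)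
      simpa using this
    | insert a s ha ih =>
      have h2 : ∀ n : ℕ, (fun u : K × (σ → K) => (∏ t ∈ range n, (u.2 a - (t : K))) *
          ∏ i ∈ s, ∏ t ∈ range (kk i), (u.2 i - (t : K))) ∈ PFS K σ (n + ∑ i ∈ s, kk i + 1) := by
        intro n
        induction n with
        | zero => simpa using ih
        | succ n ihn =>
          have h3 := (PFS K σ (n + ∑ i ∈ s, kk i + 1 + 1)).sub_mem (PFS_mul_snd a ihn)
            ((PFS K σ (n + ∑ i ∈ s, kk i + 1 + 1)).smul_mem (n : K) (PFS_mono (Nat.le_succ _) ihn))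
          have e : n + 1 + ∑ i ∈ s, kk i + 1 = n + ∑ i ∈ s, kk i + 1 + 1 := by ring
          rw [e]
          convert h3 using 1
          funext u
          simp only [Pi.sub_apply, Pi.smul_apply, smul_eq_mul]
          rw [Finset.prod_range_succ]
          ring
      rw [Finset.sum_insert ha]
      simp_rw [Finset.prod_insert ha]
      exact h2 (kk a)
  induction k0 with
  | zero => simpa using h1 univ
  | succ n ihn =>
    have h3 := (PFS K σ (n + ∑ i, kk i + 1 + 1)).sub_mem (PFS_mul_fst ihn)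
      ((PFS K σ (n + ∑ i, kk i + 1 + 1)).smul_mem (n : K) (PFS_mono (Nat.le_succ _) ihn))
    have e : n + 1 + ∑ i, kk i + 1 = n + ∑ i, kk i + 1 + 1 := by ring
    rw [e]
    convert h3 using 1
    funext u
    simp only [Pi.sub_apply, Pi.smul_apply, smul_eq_mul]
    rw [Finset.prod_range_succ]
    ring

/-- the binomial coefficients -/
noncomputable def bc {A : Type} [CommRing A] (X : A) (Y : σ → A) (k0 : ℕ) (kk : σ → ℕ)
    (m : ℤ × (σ → ℤ)) : A :=
  (m.1.toNat.choose k0 : A) * X ^ (m.1.toNat - k0) *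
    ∏ i, (((m.2 i).toNat.choose (kk i) : A) * Y i ^ ((m.2 i).toNat - kk i))

theorem taylor_zero {A K : Type} [CommRing A] [Field K] [CharZero K] (θ : A →+* K)
    (hθ : Function.Injective θ)
    {f : (ℤ × (σ → ℤ)) →₀ A} (hf : ∀ m ∈ f.support, 0 ≤ m.1 ∧ ∀ i, 0 ≤ m.2 i) {X : A} {Y : σ → A}
    (hX : X ≠ 0) (hY : ∀ i, Y i ≠ 0) {w : ℕ}
    (h : LMS (f.mapRange θ (map_zero θ)) (θ X) (fun i => θ (Y i)) w) (k0 : ℕ) (kk : σ → ℕ)
    (hk : k0 + ∑ i, kk i < w) : f.sum (fun m c => c * bc X Y k0 kk m) = 0 := by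
  apply hθ
  rw [map_zero]
  have hX' : θ X ≠ 0 := fun h0 => hX (hθ (h0.trans (map_zero θ).symm))
  have hY' : ∀ i, θ (Y i) ≠ 0 := fun i h0 => hY i (hθ (h0.trans (map_zero θ).symm))
  have h1 := prS_of_LMS h (PFS_mono (Nat.succ_le_of_lt hk) (desc_mem (K := K) k0 kk))
  have h2 : ((k0.factorial : K) * (∏ i, ((kk i).factorial : K)) *
      (θ X ^ k0 * ∏ i, θ (Y i) ^ kk i)) * θ (f.sum (fun m c => c * bc X Y k0 kk m)) = 0 := by
    rw [← h1]
    show _ = ∑ m ∈ (f.mapRange θ (map_zero θ)).support, _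
    have hs : (f.mapRange θ (map_zero θ)).support ⊆ f.support := Finsupp.support_mapRange
    rw [Finset.sum_subset hs]
    · unfold Finsupp.sum
      rw [map_sum, Finset.mul_sum]
      apply Finset.sum_congr rfl
      rintro ⟨m1, m2⟩ hm
      obtain ⟨hm1, hm2⟩ := hf _ hm
      obtain ⟨p, hp⟩ := Int.eq_ofNat_of_zero_le hm1
      simp only at hp hm2
      subst hp
      obtain ⟨qq, rfl⟩ : ∃ qq : σ → ℕ, m2 = fun i => (qq i : ℤ) :=
        ⟨fun i => (m2 i).toNat, by funext i; exact (Int.toNat_of_nonneg (hm2 i)).symm⟩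
      unfold bc ch
      simp only [Finsupp.mapRange_apply, Int.toNat_natCast, Int.cast_natCast, zpow_natCast,
        Pool.Agent.TH868.NG.prod_desc, map_mul, map_pow, map_natCast, map_prod]
      rw [Finset.prod_mul_distrib, Finset.prod_mul_distrib]
      by_cases hk0 : p < k0
      · rw [Nat.choose_eq_zero_of_lt hk0]
        simp
      by_cases hkk : ∃ i, qq i < kk i
      · obtain ⟨i, hi⟩ := hkk
        have e1 : ∏ i, ((qq i).choose (kk i) : K) = 0 := by
          apply Finset.prod_eq_zero (Finset.mem_univ i)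
          rw [Nat.choose_eq_zero_of_lt hi, Nat.cast_zero]
        rw [e1]
        simp
      push Not at hkk
      have h3 : θ X ^ p = θ X ^ k0 * θ X ^ (p - k0) := by rw [← pow_add]; congr 1; omega
      have h4 : ∏ i, θ (Y i) ^ qq i = (∏ i, θ (Y i) ^ kk i) * ∏ i, θ (Y i) ^ (qq i - kk i) := by
        rw [← Finset.prod_mul_distrib]
        refine Finset.prod_congr rfl fun i _ => ?_
        rw [← pow_add]
        congr 1
        have := hkk i
        omega
      rw [h3, h4]
      ring
    · intro m _ hm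
      rw [Finsupp.notMem_support_iff.1 hm, zero_mul, zero_mul]
  have h5 : ((k0.factorial : K) * (∏ i, ((kk i).factorial : K)) *
      (θ X ^ k0 * ∏ i, θ (Y i) ^ kk i)) ≠ 0 := by
    refine mul_ne_zero (mul_ne_zero ?_ ?_) (mul_ne_zero (pow_ne_zero _ hX') ?_)
    · exact_mod_cast k0.factorial_ne_zero
    · exact Finset.prod_ne_zero_iff.2 fun i _ => by exact_mod_cast (kk i).factorial_ne_zero
    · exact Finset.prod_ne_zero_iff.2 fun i _ => pow_ne_zero _ (hY' i)
  exact (mul_eq_zero.1 h2).resolve_left h5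

theorem pow_exp {A R : Type} [CommRing A] [CommRing R] (φ : A →+* R) (N n : ℕ) (hn : n ≤ N)
    (x : A) (D : R) : (φ x + D) ^ n = ∑ k ∈ range (N + 1),
      φ ((n.choose k : A) * x ^ (n - k)) * D ^ k := by
  rw [add_comm, add_pow]
  rw [← Finset.sum_subset (Finset.range_subset_range.2 (show n + 1 ≤ N + 1 by omega))]
  · apply Finset.sum_congr rfl
    intro k _
    rw [map_mul, map_natCast, map_pow]
    ring
  · intro k _ hk
    have : n < k := by rw [Finset.mem_range] at hk; omega
    rw [Nat.choose_eq_zero_of_lt this]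
    simp

/-- the value of a Laurent polynomial with natural exponents -/
noncomputable def evR {A R : Type} [CommRing A] [CommRing R] (φ : A →+* R) (U0 : R) (U : σ → R)
    (f : (ℤ × (σ → ℤ)) →₀ A) : R :=
  f.sum fun m c => φ c * (U0 ^ m.1.toNat * ∏ i, U i ^ (m.2 i).toNat)

theorem evR_mem {A K R : Type} [CommRing A] [Field K] [CharZero K] [CommRing R] (θ : A →+* K)
    (hθ : Function.Injective θ) (φ : A →+* R) (E : R →+* A) (hE : ∀ a, E (φ a) = a)
    {f : (ℤ × (σ → ℤ)) →₀ A} (hf : ∀ m ∈ f.support, 0 ≤ m.1 ∧ ∀ i, 0 ≤ m.2 i) {U0 : R} {U : σ → R}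
    (hX : E U0 ≠ 0) (hY : ∀ i, E (U i) ≠ 0) {w : ℕ}
    (h : LMS (f.mapRange θ (map_zero θ)) (θ (E U0)) (fun i => θ (E (U i))) w) :
    evR φ U0 U f ∈ (RingHom.ker E) ^ w := by
  classical
  obtain ⟨N, hN⟩ : ∃ N : ℕ, ∀ m ∈ f.support, m.1.toNat ≤ N ∧ ∀ i, (m.2 i).toNat ≤ N := by
    refine ⟨∑ m ∈ f.support, (m.1.toNat + ∑ i, (m.2 i).toNat), fun m hm => ?_⟩
    have h1 : m.1.toNat + ∑ i, (m.2 i).toNat ≤
        ∑ m ∈ f.support, (m.1.toNat + ∑ i, (m.2 i).toNat) :=
      Finset.single_le_sum (f := fun m : ℤ × (σ → ℤ) => m.1.toNat + ∑ i, (m.2 i).toNat)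
        (fun _ _ => Nat.zero_le _) hm
    refine ⟨by omega, fun i => ?_⟩
    have h2 : (m.2 i).toNat ≤ ∑ i, (m.2 i).toNat :=
      Finset.single_le_sum (f := fun i => (m.2 i).toNat) (fun _ _ => Nat.zero_le _)
        (Finset.mem_univ i)
    omega
  obtain ⟨D0, hD0⟩ : ∃ D0, D0 = U0 - φ (E U0) := ⟨_, rfl⟩
  obtain ⟨DD, hDD⟩ : ∃ DD : σ → R, DD = fun i => U i - φ (E (U i)) := ⟨_, rfl⟩
  have hU0 : U0 = φ (E U0) + D0 := by rw [hD0]; ring
  have hUi : ∀ i, U i = φ (E (U i)) + DD i := by intro i; rw [hDD]; ring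
  have hD0k : D0 ∈ RingHom.ker E := by
    rw [RingHom.mem_ker, hD0, map_sub, hE, sub_self]
  have hDDk : ∀ i, DD i ∈ RingHom.ker E := by
    intro i
    rw [RingHom.mem_ker, hDD, map_sub, hE, sub_self]
  have hexp : evR φ U0 U f = ∑ k0 ∈ range (N + 1),
      ∑ kk ∈ Fintype.piFinset (fun _ : σ => range (N + 1)),
        φ (f.sum (fun m c => c * bc (E U0) (fun i => E (U i)) k0 kk m)) *
          (D0 ^ k0 * ∏ i, DD i ^ kk i) := by
    unfold evR Finsupp.sum
    have e1 : ∀ m ∈ f.support, φ (f m) * (U0 ^ m.1.toNat * ∏ i, U i ^ (m.2 i).toNat) =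
        ∑ k0 ∈ range (N + 1), ∑ kk ∈ Fintype.piFinset (fun _ : σ => range (N + 1)),
          φ (f m * bc (E U0) (fun i => E (U i)) k0 kk m) * (D0 ^ k0 * ∏ i, DD i ^ kk i) := by
      intro m hm
      obtain ⟨hm1, hm2⟩ := hN m hm
      conv_lhs => rw [hU0]
      have e2 : ∏ i, U i ^ (m.2 i).toNat = ∏ i, ∑ k ∈ range (N + 1),
          φ (((m.2 i).toNat.choose k : A) * E (U i) ^ ((m.2 i).toNat - k)) * DD i ^ k := by
        refine Finset.prod_congr rfl fun i _ => ?_
        conv_lhs => rw [hUi i]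
        exact pow_exp φ N _ (hm2 i) _ _
      rw [e2, pow_exp φ N _ hm1, Finset.prod_univ_sum, Finset.sum_mul, Finset.mul_sum]
      refine Finset.sum_congr rfl fun k0 _ => ?_
      rw [Finset.mul_sum, Finset.mul_sum]
      refine Finset.sum_congr rfl fun kk _ => ?_
      unfold bc
      rw [Finset.prod_mul_distrib]
      simp only [map_mul, map_prod, map_pow, map_natCast]
      ring
    rw [Finset.sum_congr rfl e1, Finset.sum_comm]
    refine Finset.sum_congr rfl fun k0 _ => ?_
    rw [Finset.sum_comm]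
    refine Finset.sum_congr rfl fun kk _ => ?_
    rw [map_sum, Finset.sum_mul]
  rw [hexp]
  apply Ideal.sum_mem
  intro k0 _
  apply Ideal.sum_mem
  intro kk _
  by_cases hk : k0 + ∑ i, kk i < w
  · rw [taylor_zero θ hθ hf hX hY h k0 kk hk, map_zero, zero_mul]
    exact Ideal.zero_mem _
  · apply Ideal.mul_mem_left
    have h1 : D0 ^ k0 * ∏ i, DD i ^ kk i ∈ (RingHom.ker E) ^ (k0 + ∑ i, kk i) := by
      rw [pow_add]
      apply Ideal.mul_mem_mul (Ideal.pow_mem_pow hD0k k0)
      rw [← Finset.prod_pow_eq_pow_sum]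
      exact Ideal.prod_mem_prod fun i _ => Ideal.pow_mem_pow (hDDk i) (kk i)
    exact Ideal.pow_le_pow_right (not_lt.1 hk) h1

end taylor

end Pool.Agent.L7h91.TW
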