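import Pool.Agent.TH3.IR.Pair
import Pool.Agent.TH3.IR.Root

/-!
# The tube of the curve itself (no variable `Y`) and weights
-/

set_option autoImplicit false

namespace Pool.Agent.L7h91.TW

open Finset Pool.Agent.TH603.EL Pool.Agent.TH3.IR

section

variable {F : Type} [Field F]

/-- the tube coordinate `η = t ^ (1 - τ) z⁻¹` -/
noncomputable def et (F : Type) [Field F] (τ : ℝ) : HR F := tz F (1 - τ) (-1) 0

theorem xi_mul_et (τ : ℝ) : xi F τ * et F τ = tz F 1 0 0 := by
  unfold xi et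
  rw [CR.tz_mul']
  norm_num

theorem cone_et {τ s : ℝ} (h0 : 0 < τ) (h1 : τ < 1) : et F τ ∈ Cone F τ s := by
  unfold et
  apply cone_tz
  · exact le_rfl
  · rw [Int.cast_zero, Int.cast_neg, Int.cast_one]
    linarith
  · rw [Int.cast_zero, Int.cast_neg, Int.cast_one]
    linarith

theorem edge_et {τ : ℝ} :
    edge1 τ (et F τ) = 0 ∧ edge2 τ (et F τ) = PowerSeries.X := by
  classical
  constructor
  · ext n
    unfold edge1 et
    rw [PowerSeries.coeff_mk, CR.cf_tz', if_neg, map_zero]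
    rintro ⟨_, h, _⟩
    omega
  · ext n
    unfold edge2 et
    rw [PowerSeries.coeff_mk, CR.cf_tz', PowerSeries.coeff_X]
    by_cases hn : n = 1
    · subst hn
      rw [if_pos rfl, if_pos]
      refine ⟨by push_cast; ring, by norm_num, rfl⟩
    · rw [if_neg hn, if_neg]
      rintro ⟨_, h, _⟩
      omega

/-- the root of `2 (c ^ 3 - c) = ξ - η` near `1` -/
theorem exists_c0 [CharZero F] {τ : ℝ} (h0 : 0 < τ) (h1 : τ < 1) :
    ∃ c : HR F, c ∈ Cone F τ 1 ∧ 2 * (c ^ 3 - c) = xi F τ - et F τ ∧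
      Low (c - 1) (min τ (1 - τ)) ∧ (∀ a i j, cf c a i j ≠ 0 → j = 0) := by
  obtain ⟨y, hy⟩ := Root.exists_q (F := F) two_ne_zero
  obtain ⟨δ, hδ⟩ : ∃ δ : HR F, δ = (2⁻¹ : F) • (xi F τ - et F τ) := ⟨_, rfl⟩
  have hδ2 : 2 * δ = xi F τ - et F τ := by
    rw [hδ, two_mul, ← add_smul]
    have : (2⁻¹ : F) + 2⁻¹ = 1 := by
      rw [← two_mul, mul_inv_cancel₀ two_ne_zero]
    rw [this, one_smul]
  have hm : 0 < min τ (1 - τ) := lt_min h0 (by linarith)
  have hlow : Low δ (min τ (1 - τ)) := by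
    have hxi : Low (xi F τ) (min τ (1 - τ)) := (low_tz τ 1 0).mono (min_le_left _ _)
    have heta : Low (et F τ) (min τ (1 - τ)) := (low_tz (1 - τ) (-1) 0).mono (min_le_right _ _)
    intro a ha
    rw [hδ, HahnSeries.coeff_smul, (hxi.sub heta) a ha, smul_zero]
  have hpos : 0 < δ.orderTop := Root.orderTop_pos hm hlow
  have hcone : δ ∈ Cone F τ 1 := by
    rw [hδ]
    exact Root.smul_cone (Root.sub_cone (cone_xi h0 h1) (cone_et h0 h1)) _
  have hny : ∀ a i j, cf δ a i j ≠ 0 → j = 0 := by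
    classical
    intro a i j h
    rw [hδ, Root.cf_smul, Root.cf_sub] at h
    have h2 := right_ne_zero_of_mul h
    unfold xi et at h2
    rw [CR.cf_tz', CR.cf_tz'] at h2
    by_contra hj
    apply h2
    rw [if_neg (fun h3 => hj h3.2.2), if_neg (fun h3 => hj h3.2.2), sub_zero]
  have hnyp : ∀ n : ℕ, ∀ a i j, cf (δ ^ n) a i j ≠ 0 → j = 0 := by
    intro n
    induction n with
    | zero =>
      classical
      intro a i j h
      rw [pow_zero] at h
      have h1 : (1 : HR F) = tz F 0 0 0 := rfl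
      rw [h1, CR.cf_tz'] at h
      by_contra hj
      apply h
      rw [if_neg (fun h3 => hj h3.2.2)]
    | succ n ih =>
      intro a i j h
      rw [pow_succ] at h
      obtain ⟨a1, a2, i1, i2, j1, j2, _, _, hj, k1, k2⟩ := Root.cf_mul_ne h
      rw [← hj, ih _ _ _ k1, hny _ _ _ k2, add_zero]
  refine ⟨Root.hv δ (1 + PowerSeries.X * y), ?_, ?_, ?_, ?_⟩
  · intro a i j h
    obtain ⟨n, hn⟩ := Root.cf_hv hpos _ h
    exact Root.pow_cone hcone n _ _ _ hn
  · have h2 : Root.hv δ (1 + PowerSeries.X * y) ^ 3 - Root.hv δ (1 + PowerSeries.X * y) = δ := by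
      unfold Root.hv
      rw [← map_pow, ← map_sub, ← map_pow, ← map_sub, hy, PowerSeries.map_X,
        PowerSeries.heval_X δ hpos]
    rw [h2, hδ2]
  · have h3 : Root.hv δ (1 + PowerSeries.X * y) - 1 = δ * Root.hv δ y := by
      unfold Root.hv
      rw [map_add, map_one, map_mul, PowerSeries.map_X, map_add, map_one, map_mul,
        PowerSeries.heval_X δ hpos, add_sub_cancel_left]
    rw [h3]
    have h4 : Low (Root.hv δ y) 0 := by
      apply Root.low_of_cf
      intro a ha i j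
      by_contra hc
      obtain ⟨n, hn⟩ := Root.cf_hv hpos _ hc
      apply hn
      unfold cf
      rw [(hlow.pow n) a (lt_of_lt_of_le ha (by positivity))]
      rfl
    have h5 := hlow.mul h4
    rwa [add_zero] at h5
  · intro a i j h
    obtain ⟨n, hn⟩ := Root.cf_hv hpos _ h
    exact hnyp n _ _ _ hn

/-- the root in the field of constants -/
theorem exists_cp [CharZero F] {ρ : ℝ} (h0 : 0 < ρ) (h1 : ρ < 1) :
    ∃ c : HK F, 2 * (c ^ 3 - c) = HahnSeries.single ρ 1 - HahnSeries.single (1 - ρ) 1 ∧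
      Low (c - 1) (min ρ (1 - ρ)) := by
  obtain ⟨y, hy⟩ := Root.exists_q (F := F) two_ne_zero
  obtain ⟨δ, hδ⟩ : ∃ δ : HK F, δ = (2⁻¹ : F) • (HahnSeries.single ρ 1 - HahnSeries.single (1 - ρ) 1) :=
    ⟨_, rfl⟩
  have hδ2 : 2 * δ = HahnSeries.single ρ 1 - HahnSeries.single (1 - ρ) 1 := by
    rw [hδ, two_mul, ← add_smul]
    have : (2⁻¹ : F) + 2⁻¹ = 1 := by
      rw [← two_mul, mul_inv_cancel₀ two_ne_zero]
    rw [this, one_smul]
  have hm : 0 < min ρ (1 - ρ) := lt_min h0 (by linarith)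
  have hlow : Low δ (min ρ (1 - ρ)) := by
    have hxi : Low (HahnSeries.single ρ 1 : HK F) (min ρ (1 - ρ)) :=
      (low_single ρ (1 : F)).mono (min_le_left _ _)
    have heta : Low (HahnSeries.single (1 - ρ) 1 : HK F) (min ρ (1 - ρ)) :=
      (low_single (1 - ρ) (1 : F)).mono (min_le_right _ _)
    intro a ha
    rw [hδ, HahnSeries.coeff_smul, (hxi.sub heta) a ha, smul_zero]
  have hpos : 0 < δ.orderTop := by
    by_cases h0 : δ = 0
    · rw [h0, HahnSeries.orderTop_zero]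
      exact WithTop.top_pos
    · rw [HahnSeries.zero_lt_orderTop_iff h0]
      by_contra hc
      push Not at hc
      exact HahnSeries.coeff_order_eq_zero.not.2 h0 (hlow δ.order (lt_of_le_of_lt hc hm))
  refine ⟨PowerSeries.heval δ (1 + PowerSeries.X * y), ?_, ?_⟩
  · have h2 : PowerSeries.heval δ (1 + PowerSeries.X * y) ^ 3 -
        PowerSeries.heval δ (1 + PowerSeries.X * y) = δ := by
      rw [← map_pow, ← map_sub, hy, PowerSeries.heval_X δ hpos]
    rw [h2, hδ2]
  · have h3 : PowerSeries.heval δ (1 + PowerSeries.X * y) - 1 = δ * PowerSeries.heval δ y := by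
      rw [map_add, map_one, map_mul, PowerSeries.heval_X δ hpos, add_sub_cancel_left]
    rw [h3]
    have h4 : Low (PowerSeries.heval δ y) 0 := by
      intro a ha
      rw [PowerSeries.heval_apply, HahnSeries.SummableFamily.coeff_hsum_eq_sum]
      apply Finset.sum_eq_zero
      intro n _
      rw [HahnSeries.SummableFamily.powerSeriesFamily_of_orderTop_pos hpos, HahnSeries.coeff_smul,
        (hlow.pow n) a (lt_of_lt_of_le ha (by positivity)), smul_zero]
    have h5 := hlow.mul h4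
    rwa [add_zero] at h5

/-! ## weights -/

/-- all terms `t ^ a z ^ i Y ^ j` have `j = 0` and `κ ≤ a + β i` -/
def Wt (β κ : ℝ) (x : HR F) : Prop := ∀ (a : ℝ) (i j : ℤ), cf x a i j ≠ 0 → j = 0 ∧ κ ≤ a + β * i

theorem Wt.mono {β κ κ' : ℝ} {x : HR F} (h : Wt β κ x) (hk : κ' ≤ κ) : Wt β κ' x :=
  fun a i j hc => ⟨(h a i j hc).1, hk.trans (h a i j hc).2⟩

theorem Wt.mul {β κ κ' : ℝ} {x y : HR F} (hx : Wt β κ x) (hy : Wt β κ' y) :
    Wt β (κ + κ') (x * y) := by
  intro a i j h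
  obtain ⟨a1, a2, i1, i2, j1, j2, e1, e2, e3, k1, k2⟩ := Root.cf_mul_ne h
  obtain ⟨u1, u2⟩ := hx _ _ _ k1
  obtain ⟨v1, v2⟩ := hy _ _ _ k2
  subst e1 e2 e3
  push_cast
  refine ⟨by omega, by linarith⟩

theorem Wt.add {β κ : ℝ} {x y : HR F} (hx : Wt β κ x) (hy : Wt β κ y) : Wt β κ (x + y) := by
  intro a i j h
  rw [CR.cf_add'] at h
  by_cases h1 : cf x a i j = 0
  · rw [h1, zero_add] at h
    exact hy a i j h
  · exact hx a i j h1

theorem Wt.neg {β κ : ℝ} {x : HR F} (hx : Wt β κ x) : Wt β κ (-x) := by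
  intro a i j h
  rw [CR.cf_neg'] at h
  exact hx a i j (neg_ne_zero.1 h)

theorem Wt.sub {β κ : ℝ} {x y : HR F} (hx : Wt β κ x) (hy : Wt β κ y) : Wt β κ (x - y) := by
  rw [sub_eq_add_neg]
  exact hx.add hy.neg

theorem Wt.zero {β κ : ℝ} : Wt β κ (0 : HR F) := by
  intro a i j h
  exact absurd (by simp [cf]) h

theorem Wt.sum {ι : Type*} {β κ : ℝ} (s : Finset ι) (f : ι → HR F)
    (h : ∀ i ∈ s, Wt β κ (f i)) : Wt β κ (∑ i ∈ s, f i) := by
  classical
  induction s using Finset.induction_on with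
  | empty => simpa using Wt.zero
  | insert a s ha ih =>
    rw [Finset.sum_insert ha]
    exact (h a (Finset.mem_insert_self a s)).add
      (ih fun i hi => h i (Finset.mem_insert_of_mem hi))

theorem wt_tz (β a : ℝ) (i : ℤ) : Wt β (a + β * i) (tz F a i 0) := by
  classical
  intro a' i' j' h
  rw [CR.cf_tz'] at h
  by_cases h1 : a' = a ∧ i' = i ∧ j' = 0
  · obtain ⟨rfl, rfl, rfl⟩ := h1
    exact ⟨rfl, le_rfl⟩
  · rw [if_neg h1] at h
    exact absurd rfl h

theorem wt_incl {β κ : ℝ} {c : HK F} (hc : Low c κ) : Wt β κ (incl c) := by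
  intro a i j h
  rw [cf_incl] at h
  by_cases h1 : i = 0 ∧ j = 0
  · rw [if_pos h1] at h
    obtain ⟨rfl, rfl⟩ := h1
    refine ⟨rfl, ?_⟩
    rw [Int.cast_zero, mul_zero, add_zero]
    by_contra h2
    exact h (hc a (not_le.1 h2))
  · rw [if_neg h1] at h
    exact absurd rfl h

theorem wt_one {β : ℝ} : Wt β 0 (1 : HR F) := by
  have h : (1 : HR F) = tz F 0 0 0 := rfl
  rw [h]
  exact (wt_tz β 0 0).mono (by simp)

theorem Wt.pow {β κ : ℝ} {x : HR F} (hx : Wt β κ x) (n : ℕ) : Wt β (n * κ) (x ^ n) := by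
  induction n with
  | zero => simpa using wt_one
  | succ n ih =>
    rw [pow_succ]
    have := ih.mul hx
    refine this.mono (le_of_eq ?_)
    push_cast
    ring

theorem wt_of_cone {τ : ℝ} {x : HR F} (hx : x ∈ Cone F τ 1)
    (hy : ∀ a i j, cf x a i j ≠ 0 → j = 0) : Wt (-τ) 0 x ∧ Wt (1 - τ) 0 x := by
  refine ⟨fun a i j h => ?_, fun a i j h => ?_⟩
  · have h1 := hy a i j h
    obtain ⟨_, h2, _⟩ := hx a i j h
    subst h1
    refine ⟨rfl, ?_⟩
    rw [Int.cast_zero, mul_zero, add_zero] at h2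
    linarith
  · have h1 := hy a i j h
    obtain ⟨_, _, h3⟩ := hx a i j h
    subst h1
    refine ⟨rfl, ?_⟩
    rw [Int.cast_zero, mul_zero, add_zero] at h3
    linarith

theorem cone_of_wt {τ : ℝ} {x : HR F} (h1 : Wt (-τ) 0 x) (h2 : Wt (1 - τ) 0 x) :
    x ∈ Cone F τ 1 := by
  intro a i j h
  obtain ⟨k1, k2⟩ := h1 a i j h
  obtain ⟨_, k3⟩ := h2 a i j h
  subst k1
  rw [Int.cast_zero, mul_zero, add_zero, add_zero]
  refine ⟨le_rfl, by linarith, by linarith⟩

/-- division by `1 + ω`, where `ω` has positive weight -/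
theorem wt_div {β κ ν C : ℝ} {x x1 ω : HR F} (hν : 0 < ν) (hω : Wt β ν ω) (h : x = (1 + ω) * x1)
    (hx : Wt β κ x) (h1 : Wt β C x1) : Wt β κ x1 := by
  have h2 : ∀ n : ℕ, Wt β (min κ (C + n * ν)) x1 := by
    intro n
    induction n with
    | zero =>
      refine h1.mono ?_
      simp
    | succ n ih =>
      have e : x1 = x - ω * x1 := by rw [h]; ring
      rw [e]
      refine (hx.mono (min_le_left _ _)).sub ((hω.mul ih).mono ?_)
      push_cast
      rcases le_total κ (C + n * ν) with h3 | h3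
      · rw [min_eq_left h3]
        exact (min_le_left _ _).trans (by linarith)
      · rw [min_eq_right h3]
        exact (min_le_right _ _).trans (by linarith)
  obtain ⟨n, hn⟩ := exists_nat_gt ((κ - C) / ν)
  rw [div_lt_iff₀ hν] at hn
  have := h2 n
  rwa [min_eq_left (by linarith)] at this

end

end Pool.Agent.L7h91.TW
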